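import Mathlib

/-! Bundle of small proof modules (one section per former module). -/

section

/-!
# Approximate Fréchet derivatives of the norm in a norming subspace
-/

open Topology Filter Set

namespace Pool.Agent.Work.MP_8db9c5_an

variable {E : Type*} [NormedAddCommGroup E] [NormedSpace ℝ E]

/-- Baire category: if the norming functionals can be taken in a separable set then the norm is
approximately Fréchet differentiable on a dense set, with derivative in any norming subspace. -/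
theorem exists_frechet [CompleteSpace E] (H : Set (E →L[ℝ] ℝ))
    (hH : TopologicalSpace.IsSeparable H)
    (hnorm : ∀ x : E, ∃ f ∈ H, ‖f‖ ≤ 1 ∧ f x = ‖x‖) (F : Set (E →L[ℝ] ℝ))
    (hF : ∀ x : E, ∀ ε : ℝ, 0 < ε → ∃ f ∈ F, ‖f‖ ≤ 1 ∧ ‖x‖ - ε < f x)
    {r : ℝ} (hr : 0 < r) {U : Set E} (hU : IsOpen U) (hne : U.Nonempty) :
    ∃ x ∈ U, ∃ f ∈ F, ∃ δ : ℝ, 0 < δ ∧ ∀ y z : E, ‖y - x‖ < δ → ‖z - x‖ < δ →
      |‖z‖ - ‖y‖ - f (z - y)| ≤ r * ‖z - y‖ := by
  obtain ⟨c, hc, hHc⟩ := hH
  have hcne : c.Nonempty := by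
    obtain ⟨f, hf, _⟩ := hnorm 0
    exact closure_nonempty_iff.1 ⟨f, hHc hf⟩
  obtain ⟨g, hg⟩ := hc.exists_eq_range hcne
  let A : ℕ → Set E := fun k => {x | ∀ h : E, ‖x‖ + g k h - r / 4 * ‖h‖ ≤ ‖x + h‖}
  have hA : ∀ k, IsClosed (A k) := by
    intro k
    simp only [A, Set.ofPred_forall]
    refine isClosed_iInter fun h => ?_
    exact isClosed_le (by fun_prop) (by fun_prop)
  have hAU : ⋃ k, A k = univ := by
    rw [Set.eq_univ_iff_forall]
    intro x
    obtain ⟨f, hf, hf1, hfx⟩ := hnorm x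
    have h1 := hHc hf
    rw [Metric.mem_closure_iff] at h1
    obtain ⟨_, hgk, hlt⟩ := h1 (r / 4) (by positivity)
    rw [hg] at hgk
    obtain ⟨k, rfl⟩ := hgk
    refine Set.mem_iUnion.2 ⟨k, fun h => ?_⟩
    have h2 : f (x + h) ≤ ‖x + h‖ := by
      refine (le_abs_self _).trans ?_
      rw [← Real.norm_eq_abs]
      have := f.le_of_opNorm_le hf1 (x + h)
      rwa [one_mul] at this
    have h3 : g k h - f h ≤ r / 4 * ‖h‖ := by
      have h4 : ‖(g k - f) h‖ ≤ r / 4 * ‖h‖ := by
        refine (g k - f).le_of_opNorm_le ?_ h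
        rw [← dist_eq_norm, dist_comm]
        exact hlt.le
      refine le_trans (le_abs_self _) ?_
      rw [← Real.norm_eq_abs]
      exact h4
    rw [map_add, hfx] at h2
    linarith
  have hdense := dense_iUnion_interior_of_closed hA hAU
  obtain ⟨x, hxU, hx⟩ := hdense.inter_open_nonempty U hU hne
  obtain ⟨k, hxk⟩ := Set.mem_iUnion.1 hx
  obtain ⟨δ, hδ, hball⟩ := Metric.isOpen_iff.1 isOpen_interior x hxk
  have hball2 : ∀ y, ‖y - x‖ < δ → y ∈ A k := fun y hy => interior_subset (hball (by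
    rw [Metric.mem_ball, dist_eq_norm]; exact hy))
  have key : ∀ y z : E, ‖y - x‖ < δ → ‖z - x‖ < δ →
      |‖z‖ - ‖y‖ - g k (z - y)| ≤ r / 4 * ‖z - y‖ := by
    intro y z hy hz
    have h1 := hball2 y hy (z - y)
    have h2 := hball2 z hz (y - z)
    rw [add_sub_cancel] at h1 h2
    have h3 : g k (y - z) = - g k (z - y) := by rw [← map_neg, neg_sub]
    rw [h3, norm_sub_rev y z] at h2
    rw [abs_le]
    constructor <;> linarith
  obtain ⟨f, hfF, hf1, hfx⟩ := hF x (r * δ / 8) (by positivity)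
  have hdist : ∀ h : E, |(f - g k) h| ≤ r / 2 * ‖h‖ := by
    have h0 : ∀ h : E, (f - g k) h ≤ r / 2 * ‖h‖ := by
      intro h
      rcases eq_or_ne h 0 with rfl | hh
      · simp
      · have hh' : 0 < ‖h‖ := norm_pos_iff.2 hh
        set t : ℝ := δ / (2 * ‖h‖) with ht
        have htpos : 0 < t := by positivity
        have hth : ‖t • h‖ = δ / 2 := by
          rw [norm_smul, Real.norm_eq_abs, abs_of_pos htpos, ht]
          field_simp
        have h1 := key x (x + t • h) (by simpa using hδ) (by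
          rw [add_sub_cancel_left, hth]; linarith)
        rw [add_sub_cancel_left, hth] at h1
        have h2 := (abs_le.1 h1).2
        have h3 : f (x + t • h) ≤ ‖x + t • h‖ := by
          refine (le_abs_self _).trans ?_
          rw [← Real.norm_eq_abs]
          have := f.le_of_opNorm_le hf1 (x + t • h)
          rwa [one_mul] at this
        rw [map_add] at h3
        have h4 : f (t • h) - g k (t • h) ≤ r / 4 * (δ / 2) + r * δ / 8 := by linarith
        rw [map_smul, map_smul, smul_eq_mul, smul_eq_mul, ← mul_sub] at h4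
        have h5 : t * (f h - g k h) ≤ t * (r / 2 * ‖h‖) := by
          refine h4.trans (le_of_eq ?_)
          rw [ht]
          field_simp
          ring
        exact le_of_mul_le_mul_left h5 htpos
    intro h
    rw [abs_le]
    refine ⟨?_, h0 h⟩
    have := h0 (-h)
    rw [map_neg, norm_neg] at this
    linarith
  refine ⟨x, hxU, f, hfF, δ, hδ, fun y z hy hz => ?_⟩
  have h1 := abs_le.1 (key y z hy hz)
  have h2 := abs_le.1 (hdist (z - y))
  rw [_root_.sub_apply] at h2
  have h3 := norm_nonneg (z - y)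
  rw [abs_le]
  constructor <;> nlinarith [h1.1, h1.2, h2.1, h2.2]

/-- if `f (e_n) → 0` for the functionals `f` of a norming subspace, `T` is an isometry and
`f (T e_n) → f z` for these functionals then `z = 0` -/
theorem lim_eq_zero [CompleteSpace E] (H : Set (E →L[ℝ] ℝ))
    (hH : TopologicalSpace.IsSeparable H)
    (hnorm : ∀ x : E, ∃ f ∈ H, ‖f‖ ≤ 1 ∧ f x = ‖x‖) (F : Set (E →L[ℝ] ℝ))
    (hF : ∀ x : E, ∀ ε : ℝ, 0 < ε → ∃ f ∈ F, ‖f‖ ≤ 1 ∧ ‖x‖ - ε < f x)
    (T : E ≃ₗᵢ[ℝ] E) (U : Ultrafilter ℕ) (e : ℕ → E) (he : ∀ n, ‖e n‖ ≤ 1)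
    (he0 : ∀ f ∈ F, Tendsto (fun n => f (e n)) U (𝓝 0)) (z : E)
    (hz : ∀ f ∈ F, Tendsto (fun n => f (T (e n))) U (𝓝 (f z))) : z = 0 := by
  by_contra hz0
  have hzpos : 0 < ‖z‖ := norm_pos_iff.2 hz0
  obtain ⟨ε, hε0, hε1, hε2⟩ : ∃ ε : ℝ, 0 < ε ∧ ε ≤ 1 / 2 ∧ ε ≤ ‖z‖ / 16 :=
    ⟨min (1 / 2) (‖z‖ / 16), by positivity, min_le_left _ _, min_le_right _ _⟩
  obtain ⟨x1, hx1, f, hf, δ, hδ, hfδ⟩ := exists_frechet H hH hnorm F hF hε0
    (U := Metric.ball z ε) Metric.isOpen_ball ⟨z, Metric.mem_ball_self hε0⟩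
  have hopen : IsOpen (T ⁻¹' (Metric.ball z ε ∩ Metric.ball x1 δ)) :=
    (Metric.isOpen_ball.inter Metric.isOpen_ball).preimage T.continuous
  obtain ⟨x2, hx2, f', hf', δ', hδ', hfδ'⟩ := exists_frechet H hH hnorm F hF hε0
    (U := T ⁻¹' (Metric.ball z ε ∩ Metric.ball x1 δ)) hopen
    ⟨T.symm x1, by
      rw [Set.mem_preimage, LinearIsometryEquiv.apply_symm_apply]
      exact ⟨hx1, Metric.mem_ball_self hδ⟩⟩
  set x := T x2 with hx
  have hxz : ‖x - z‖ < ε := by
    have := hx2.1; rwa [Metric.mem_ball, dist_eq_norm] at this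
  have hxx1 : ‖x - x1‖ < δ := by
    have := hx2.2; rwa [Metric.mem_ball, dist_eq_norm] at this
  -- the two derivatives are close to each other
  obtain ⟨ρ, hρ, hρ1, hρ2⟩ : ∃ ρ : ℝ, 0 < ρ ∧ ρ < δ' ∧ ρ < δ - ‖x - x1‖ := by
    refine ⟨min δ' (δ - ‖x - x1‖) / 2, ?_, ?_, ?_⟩
    · have : 0 < min δ' (δ - ‖x - x1‖) := lt_min hδ' (by linarith)
      linarith
    · have h1 : min δ' (δ - ‖x - x1‖) ≤ δ' := min_le_left _ _
      have : 0 < min δ' (δ - ‖x - x1‖) := lt_min hδ' (by linarith)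
      linarith
    · have h1 : min δ' (δ - ‖x - x1‖) ≤ δ - ‖x - x1‖ := min_le_right _ _
      have : 0 < min δ' (δ - ‖x - x1‖) := lt_min hδ' (by linarith)
      linarith
  have hsmall : ∀ h : E, ‖h‖ ≤ ρ → |f (T h) - f' h| ≤ 2 * ε * ‖h‖ := by
    intro h hh
    have h1 := hfδ x (x + T h) hxx1 (by
      have : x + T h - x1 = (x - x1) + T h := by abel
      rw [this]
      refine (norm_add_le _ _).trans_lt ?_
      rw [T.norm_map]
      linarith)
    have h2 := hfδ' x2 (x2 + h) (by simpa using hδ') (by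
      rw [add_sub_cancel_left]; linarith)
    rw [add_sub_cancel_left] at h1 h2
    have h3 : ‖x + T h‖ = ‖x2 + h‖ := by rw [hx, ← map_add, T.norm_map]
    have h4 : ‖x‖ = ‖x2‖ := by rw [hx, T.norm_map]
    rw [h3, h4, T.norm_map] at h1
    have h5 := abs_le.1 h1
    have h6 := abs_le.1 h2
    rw [abs_le]
    constructor <;> linarith [h5.1, h5.2, h6.1, h6.2]
  have hall : ∀ h : E, |f (T h) - f' h| ≤ 2 * ε * ‖h‖ := by
    intro h
    rcases eq_or_ne h 0 with rfl | hh
    · simp
    · have hh' : 0 < ‖h‖ := norm_pos_iff.2 hh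
      set t : ℝ := ρ / ‖h‖ with ht
      have htpos : 0 < t := by positivity
      have hth : ‖t • h‖ = ρ := by
        rw [norm_smul, Real.norm_eq_abs, abs_of_pos htpos, ht]
        field_simp
      have h1 := hsmall (t • h) hth.le
      rw [hth] at h1
      simp only [map_smul, smul_eq_mul] at h1
      rw [← mul_sub, abs_mul, abs_of_pos htpos] at h1
      have h2 : t * |f (T h) - f' h| ≤ t * (2 * ε * ‖h‖) := by
        refine h1.trans (le_of_eq ?_)
        rw [ht]
        field_simp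
      exact le_of_mul_le_mul_left h2 htpos
  -- `|f z| ≤ 2 ε`
  have hfz : |f z| ≤ 2 * ε := by
    have h1 : Tendsto (fun n => |f (T (e n)) - f' (e n)|) U (𝓝 (|f z - 0|)) :=
      ((hz f hf).sub (he0 f' hf')).abs
    rw [sub_zero] at h1
    refine le_of_tendsto' h1 fun n => ?_
    refine (hall (e n)).trans ?_
    have := he n
    nlinarith
  -- lower bound
  have hfx : (1 - ε) * ‖x‖ ≤ f x := by
    rcases eq_or_ne x 0 with hx0 | hx0
    · rw [hx0]; simp
    · have hxpos : 0 < ‖x‖ := norm_pos_iff.2 hx0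
      set t : ℝ := (δ - ‖x - x1‖) / (2 * ‖x‖) with ht
      have htpos : 0 < t := by
        have : 0 < δ - ‖x - x1‖ := by linarith
        positivity
      have hth : t * ‖x‖ = (δ - ‖x - x1‖) / 2 := by
        rw [ht]; field_simp
      have h1 := hfδ x (x + t • x) hxx1 (by
        have : x + t • x - x1 = (x - x1) + t • x := by abel
        rw [this]
        refine (norm_add_le _ _).trans_lt ?_
        rw [norm_smul, Real.norm_eq_abs, abs_of_pos htpos, hth]
        linarith)
      rw [add_sub_cancel_left] at h1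
      have h2 : ‖x + t • x‖ = (1 + t) * ‖x‖ := by
        rw [show x + t • x = (1 + t) • x by rw [add_smul, one_smul], norm_smul,
          Real.norm_eq_abs, abs_of_pos (by linarith)]
      rw [h2, map_smul, smul_eq_mul, norm_smul, Real.norm_eq_abs, abs_of_pos htpos] at h1
      have h3 := (abs_le.1 h1).2
      have h4 : t * ((1 - ε) * ‖x‖) ≤ t * f x := by nlinarith
      exact le_of_mul_le_mul_left h4 htpos
  have hfnorm : ∀ h : E, |f h| ≤ (1 + ε) * ‖h‖ := by
    intro h
    rcases eq_or_ne h 0 with rfl | hh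
    · simp
    · have hh' : 0 < ‖h‖ := norm_pos_iff.2 hh
      set t : ℝ := (δ - ‖x - x1‖) / (2 * ‖h‖) with ht
      have htpos : 0 < t := by
        have : 0 < δ - ‖x - x1‖ := by linarith
        positivity
      have hth : t * ‖h‖ = (δ - ‖x - x1‖) / 2 := by
        rw [ht]; field_simp
      have h1 := hfδ x (x + t • h) hxx1 (by
        have : x + t • h - x1 = (x - x1) + t • h := by abel
        rw [this]
        refine (norm_add_le _ _).trans_lt ?_
        rw [norm_smul, Real.norm_eq_abs, abs_of_pos htpos, hth]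
        linarith)
      rw [add_sub_cancel_left, norm_smul, Real.norm_eq_abs, abs_of_pos htpos, map_smul,
        smul_eq_mul] at h1
      have h2 := abs_le.1 h1
      have h3 : |‖x + t • h‖ - ‖x‖| ≤ t * ‖h‖ := by
        have := abs_norm_sub_norm_le (x + t • h) x
        rwa [add_sub_cancel_left, norm_smul, Real.norm_eq_abs, abs_of_pos htpos] at this
      have h4 := abs_le.1 h3
      have h5 : t * |f h| ≤ t * ((1 + ε) * ‖h‖) := by
        rw [← abs_of_pos htpos, ← abs_mul, abs_of_pos htpos, abs_le]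
        constructor <;> nlinarith [h2.1, h2.2, h4.1, h4.2]
      exact le_of_mul_le_mul_left h5 htpos
  have h1 : f x - f z ≤ (1 + ε) * ε := by
    rw [← map_sub]
    refine (le_abs_self _).trans ((hfnorm (x - z)).trans ?_)
    nlinarith
  have h2 : ‖z‖ - ε ≤ ‖x‖ := by
    have := norm_sub_norm_le z x
    rw [norm_sub_rev] at this
    linarith
  have h3 := (abs_le.1 hfz).2
  nlinarith

end Pool.Agent.Work.MP_8db9c5_an

end

section

/-!
# Weak limits along ultrafilters
-/

open Topology Filter Set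

namespace Pool.Agent.Work.MP_8db9c5_an

variable {X : Type*} [NormedAddCommGroup X] [NormedSpace ℝ X]

theorem exists_real_lim (U : Ultrafilter ℕ) (c : ℕ → ℝ) (C : ℝ) (hc : ∀ n, |c n| ≤ C) :
    ∃ l : ℝ, |l| ≤ C ∧ Tendsto c U (𝓝 l) := by
  have h1 : IsCompact (Icc (-C) C) := isCompact_Icc
  have h2 : (↑(U.map c) : Filter ℝ) ≤ 𝓟 (Icc (-C) C) := by
    rw [Filter.le_principal_iff]
    change ∀ᶠ n in (U : Filter ℕ), c n ∈ Icc (-C) C
    exact Eventually.of_forall fun n => abs_le.1 (hc n)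
  obtain ⟨l, hl, h⟩ := h1.ultrafilter_le_nhds _ h2
  exact ⟨l, abs_le.2 hl, h⟩

/-- weak* limits in the dual ball -/
theorem exists_weakStar_lim (U : Ultrafilter ℕ) (g : ℕ → X →L[ℝ] ℝ) (C : ℝ)
    (hg : ∀ n, ‖g n‖ ≤ C) :
    ∃ G : X →L[ℝ] ℝ, ‖G‖ ≤ C ∧ ∀ v, Tendsto (fun n => g n v) U (𝓝 (G v)) := by
  have hC : 0 ≤ C := (norm_nonneg _).trans (hg 0)
  have h1 : ∀ v, ∃ l : ℝ, |l| ≤ C * ‖v‖ ∧ Tendsto (fun n => g n v) U (𝓝 l) := fun v =>
    exists_real_lim U (fun n => g n v) _ fun n => by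
      rw [← Real.norm_eq_abs]
      exact (g n).le_of_opNorm_le (hg n) v
  choose l hl1 hl2 using h1
  let L : X →ₗ[ℝ] ℝ :=
    { toFun := l
      map_add' := fun v w => by
        refine tendsto_nhds_unique (hl2 (v + w)) ?_
        have := (hl2 v).add (hl2 w)
        simpa only [map_add] using this
      map_smul' := fun c v => by
        refine tendsto_nhds_unique (hl2 (c • v)) ?_
        have := (hl2 v).const_mul c
        simpa only [map_smul, smul_eq_mul, RingHom.id_apply] using this }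
  refine ⟨L.mkContinuous C fun v => ?_, LinearMap.mkContinuous_norm_le _ hC _, fun v => ?_⟩
  · rw [Real.norm_eq_abs]; exact hl1 v
  · exact hl2 v

/-- weak limits in reflexive spaces -/
theorem exists_weak_lim (hrefl : Function.Surjective (NormedSpace.inclusionInDoubleDual ℝ X))
    (U : Ultrafilter ℕ) (w : ℕ → X) (C : ℝ) (hw : ∀ n, ‖w n‖ ≤ C) :
    ∃ v : X, ∀ g : X →L[ℝ] ℝ, Tendsto (fun n => g (w n)) U (𝓝 (g v)) := by
  obtain ⟨G, _, hG⟩ := exists_weakStar_lim U
    (fun n => NormedSpace.inclusionInDoubleDual ℝ X (w n)) C fun n => by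
      refine (NormedSpace.double_dual_bound ℝ X (w n)).trans (hw n)
  obtain ⟨v, hv⟩ := hrefl G
  refine ⟨v, fun g => ?_⟩
  have := hG g
  rw [← hv] at this
  simpa only [NormedSpace.dual_def] using this

end Pool.Agent.Work.MP_8db9c5_an

end
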