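import Pool.Agent.Work.MP_8db9c5_an.H71.Tail

/-! Bundle of small proof modules (one section per former module). -/

section

/-!
# Isometries of Jamesifications of strictly convex spaces, part 1
-/

set_option linter.unusedSectionVars false

open Topology Filter Set

namespace Pool.Agent.Work.MP_8db9c5_an.H71

open Pool.Agent.Work.MP_8db9c5_an

variable {X : Type*} [NormedAddCommGroup X] [NormedSpace ℝ X] [CompleteSpace X]
variable {E : Type*} [NormedAddCommGroup E] [NormedSpace ℝ E] [CompleteSpace E]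
variable {b : UnconditionalSchauderBasis ℕ ℝ X} {e : ℕ → E}

/-- a functional of norm one with the value one at `e_i` and `e_k` has the value one in between -/
theorem lemG [StrictConvexSpace ℝ X] (hn : ∀ i, ‖b i‖ = 1) (hJ : IsJamesification b.basis e)
    {φ : E →L[ℝ] ℝ} (hφ : ‖φ‖ ≤ 1) {i j k : ℕ} (hij : i ≤ j) (hjk : j ≤ k) (hi : φ (e i) = 1)
    (hk : φ (e k) = 1) : φ (e j) = 1 := by
  have hle : ∀ z, φ z ≤ ‖z‖ := fun z => by
    have := φ.le_of_opNorm_le hφ z
    rw [one_mul] at this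
    exact (le_abs_self _).trans this
  have hξ : φ (e i + e k) = ‖e i + e k‖ := by
    refine le_antisymm (hle _) ?_
    have := norm_add_le (e i) (e k)
    rw [norm_e hn hJ, norm_e hn hJ] at this
    rw [map_add, hi, hk]; exact this
  have h2 : ‖e i + e k‖ = 2 := by rw [← hξ, map_add, hi, hk]; norm_num
  obtain ⟨r, g, hr, hg, h3, h4⟩ := exists_danskin hJ (e i + e k) (-e j) φ hφ hξ
  rw [h2, map_add, map_add, V_basis hJ hr, V_basis hJ hr] at h3
  have h5 := g_le hg (norm_ox_le hn (r i))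
  have h6 := g_le hg (norm_ox_le hn (r k))
  have h7 : g (ox b.basis (r i)) = 1 := by linarith
  have h8 : g (ox b.basis (r k)) = 1 := by linarith
  rcases hri : r i with _ | p
  · rw [hri, ox_none, map_zero] at h7; exact absurd h7 zero_ne_one
  rcases hrk : r k with _ | q
  · rw [hrk, ox_none, map_zero] at h8; exact absurd h8 zero_ne_one
  rw [hri, ox_some] at h7
  rw [hrk, ox_some] at h8
  have hpq := noTwo hn g p q hg h7 h8
  subst hpq
  have hrj : r j = some p := (hr k p hrk).2 j ((hr i p hri).1.trans hij) hjk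
  rw [map_neg, map_neg, map_neg, V_basis hJ hr, hrj, ox_some, h7] at h4
  have h9 := hle (e j)
  rw [norm_e hn hJ] at h9
  linarith

/-- no functional of norm one has the values `1` and `-1` at two basis vectors -/
theorem lemH [StrictConvexSpace ℝ X] (hn : ∀ i, ‖b i‖ = 1) (hJ : IsJamesification b.basis e)
    {φ : E →L[ℝ] ℝ} (hφ : ‖φ‖ ≤ 1) {i k : ℕ} (hi : φ (e i) = -1) (hk : φ (e k) = 1) : False := by
  have h1 : 2 ≤ ‖e k - e i‖ := by
    have h2 := φ.le_of_opNorm_le hφ (e k - e i)
    rw [map_sub, hi, hk, one_mul, Real.norm_eq_abs] at h2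
    have := le_abs_self (1 - -1 : ℝ)
    linarith
  obtain ⟨r, hr, h2⟩ := exists_attain hJ (e k - e i)
  rw [map_sub, V_basis hJ hr, V_basis hJ hr] at h2
  have h3 : 2 ≤ ‖ox b.basis (r k) - ox b.basis (r i)‖ := by rw [h2]; exact h1
  have h4 := norm_ox_le hn (r i)
  have h5 := norm_ox_le hn (r k)
  obtain ⟨g, hg, hgp⟩ := exists_dual_vector'' ℝ (ox b.basis (r k) - ox b.basis (r i))
  have hgp' : g (ox b.basis (r k)) - g (ox b.basis (r i)) =
      ‖ox b.basis (r k) - ox b.basis (r i)‖ := by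
    rw [← map_sub, hgp]; rfl
  have h6 := g_le hg h5
  have h7 := g_le hg (v := -ox b.basis (r i)) (by rw [norm_neg]; exact h4)
  rw [map_neg] at h7
  have h8 : g (ox b.basis (r k)) = 1 := by linarith
  have h9 : g (-ox b.basis (r i)) = 1 := by rw [map_neg]; linarith
  have h10 := sc hg h5 (by rw [norm_neg]; exact h4) h8 h9
  rcases hri : r i with _ | p
  · rw [hri, ox_none, neg_zero, map_zero] at h9; exact zero_ne_one h9
  rcases hrk : r k with _ | q
  · rw [hrk, ox_none, map_zero] at h8; exact zero_ne_one h8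
  rw [hri, hrk, ox_some, ox_some] at h10
  have h11 := congrArg (b.coord q) h10
  rw [map_neg, coord_basis, coord_basis, if_pos rfl] at h11
  split_ifs at h11 <;> norm_num at h11

/-- `u_i ∘ T = u_j` -/
def Rel (b : UnconditionalSchauderBasis ℕ ℝ X) (e : ℕ → E) (T : E ≃ₗᵢ[ℝ] E) (i j : ℕ) : Prop :=
  ∀ z, u b e i (T z) = u b e j z

theorem Rel.symm {T : E ≃ₗᵢ[ℝ] E} {i j : ℕ} (h : Rel b e T i j) : Rel b e T.symm j i := by
  intro z
  have := h (T.symm z)
  rw [T.apply_symm_apply] at this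
  exact this.symm

theorem u_inj (hJ : IsJamesification b.basis e) {i j : ℕ} (h : ∀ z, u b e i z = u b e j z) :
    i = j := by
  rcases lt_trichotomy i j with h1 | h1 | h1
  · have := h (e i)
    rw [u_one hJ le_rfl, u_zero hJ h1] at this
    exact absurd this one_ne_zero
  · exact h1
  · have := h (e j)
    rw [u_one hJ le_rfl, u_zero hJ h1] at this
    exact absurd this zero_ne_one

theorem Rel.inj (hJ : IsJamesification b.basis e) {T : E ≃ₗᵢ[ℝ] E} {i j k : ℕ}
    (h1 : Rel b e T i k) (h2 : Rel b e T j k) : i = j :=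
  u_inj hJ fun z => by
    have h3 := h1 (T.symm z)
    have h4 := h2 (T.symm z)
    rw [T.apply_symm_apply] at h3 h4
    rw [h3, h4]

theorem Rel.inj' (hJ : IsJamesification b.basis e) {T : E ≃ₗᵢ[ℝ] E} {i j k : ℕ}
    (h1 : Rel b e T k i) (h2 : Rel b e T k j) : i = j :=
  u_inj hJ fun z => by rw [← h1 z, ← h2 z]

theorem norm_comp_le {f : E →L[ℝ] ℝ} (hf : ‖f‖ ≤ 1) (T : E ≃ₗᵢ[ℝ] E) :
    ‖f.comp (T : E →L[ℝ] E)‖ ≤ 1 :=
  ContinuousLinearMap.opNorm_le_bound _ zero_le_one fun z => by
    have := f.le_of_opNorm_le hf (T z)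
    rw [T.norm_map] at this
    exact this

theorem norm_sub_u_le (hn : ∀ i, ‖b i‖ = 1) (hJ : IsJamesification b.basis e) (m n : ℕ) :
    ‖u b e m - u b e n‖ ≤ 1 :=
  ContinuousLinearMap.opNorm_le_bound _ zero_le_one fun z => by
    rw [one_mul]; exact abs_u_sub_le hn hJ m n z

/-- all tail sums of `z` lie in `[0,1]` if `‖z‖ ≤ 1` and one of them is one -/
theorem u_nonneg (hn : ∀ i, ‖b i‖ = 1) (hJ : IsJamesification b.basis e) {z : E} (hz : ‖z‖ ≤ 1)
    {i : ℕ} (hi : u b e i z = 1) (j : ℕ) : 0 ≤ u b e j z := by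
  have h1 := abs_u_sub_le hn hJ i j z
  rw [hi] at h1
  have := le_abs_self (1 - u b e j z)
  linarith

theorem u_le_one (hn : ∀ i, ‖b i‖ = 1) (hJ : IsJamesification b.basis e) {z : E} (hz : ‖z‖ ≤ 1)
    (j : ℕ) : u b e j z ≤ 1 := by
  have h1 := abs_u_le hn hJ j z
  have := le_abs_self (u b e j z)
  linarith

theorem norm_T_e (hn : ∀ i, ‖b i‖ = 1) (hJ : IsJamesification b.basis e) (T : E ≃ₗᵢ[ℝ] E) (k : ℕ) :
    ‖T (e k)‖ ≤ 1 := by rw [T.norm_map, norm_e hn hJ]

/-- the first tail sum is mapped to a tail sum -/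
theorem exists_p [StrictConvexSpace ℝ X]
    (hrefl : Function.Surjective (NormedSpace.inclusionInDoubleDual ℝ X))
    (hn : ∀ i, ‖b i‖ = 1) (hJ : IsJamesification b.basis e) {T : E ≃ₗᵢ[ℝ] E}
    (hT : IsPosIso b e T) : ∃ p, Rel b e T p 0 := by
  obtain ⟨r, g, hr, hg, h⟩ := exists_norming hJ (T (xi e 0))
  rw [T.norm_map, norm_xi hn hJ] at h
  obtain ⟨p, hp, hgp⟩ := norming_T_pos hrefl hn hJ (noTwo hn) hT hr hg h
  refine ⟨p, fun z => ?_⟩
  have h1 : ∀ k, V b.basis e r (T (e k)) = b p := fun k =>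
    sc hg ((norm_V_le hJ hr _).trans (norm_T_e hn hJ T k)) (hn p).le
      (norming_T_basis hn hJ (noTwo hn) T (comp_V_norm hJ hr hg) h (Nat.zero_le k)) hgp
  refine fext hJ (f := (u b e p).comp (T : E →L[ℝ] E)) (g := u b e 0) (fun k => ?_) z
  change u b e p (T (e k)) = _
  rw [← coord_V_u hJ hr hp, h1, coord_basis, if_pos rfl, u_one hJ (Nat.zero_le _)]

/-- the non-degenerate norming chain at `T ξ_{m+1}` -/
theorem chainN [StrictConvexSpace ℝ X]
    (hrefl : Function.Surjective (NormedSpace.inclusionInDoubleDual ℝ X))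
    (hn : ∀ i, ‖b i‖ = 1) (hJ : IsJamesification b.basis e) {T : E ≃ₗᵢ[ℝ] E}
    (hT : IsPosIso b e T) (m : ℕ) :
    ∃ (r : ℕ → Option ℕ) (w : ℕ → X) (a : ℕ), IsCode r ∧ (∀ j, r j = some a ↔ a ≤ j) ∧
      w m ≠ b a ∧ ∀ z, V b.basis e r z = ∑ i ∈ Finset.range (m + 1),
        (u b e i (T.symm z) - u b e (i + 1) (T.symm z)) • w i + u b e (m + 1) (T.symm z) • b a := by
  set f : E →L[ℝ] ℝ := (u b e (m + 1)).comp (T.symm : E →L[ℝ] E) with hf
  have hf1 : ‖f‖ ≤ 1 := norm_comp_le (norm_u_le hn hJ _) T.symm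
  have hfT : ∀ z, f (T z) = u b e (m + 1) z := fun z => by
    change u b e (m + 1) (T.symm (T z)) = _
    rw [T.symm_apply_apply]
  have huξ : u b e (m + 1) (xi e (m + 1)) = 1 := by
    have h1 := hasSum_f_xi hn hJ (m + 1) (u b e (m + 1))
    have h2 : ∀ i, u b e (m + 1) (e (m + 1 + i)) = 1 := fun i => u_one hJ (by omega)
    simp only [h2, mul_one] at h1
    exact h1.unique hasSum_half
  obtain ⟨r, g, hr, hg, h1, h2⟩ := exists_danskin hJ (T (xi e (m + 1))) (T (e (m + 1) - e m)) f hf1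
    (by rw [hfT, T.norm_map, norm_xi hn hJ, huξ])
  rw [T.norm_map, norm_xi hn hJ] at h1
  rw [hfT, map_sub, u_one hJ le_rfl, u_zero hJ (Nat.lt_succ_self m), sub_zero] at h2
  obtain ⟨a, ha, hga⟩ := norming_T_pos hrefl hn hJ (noTwo hn) hT hr hg h1
  have h3 : ∀ k, m + 1 ≤ k → V b.basis e r (T (e k)) = b a := fun k hk =>
    sc hg ((norm_V_le hJ hr _).trans (norm_T_e hn hJ T k)) (hn a).le
      (norming_T_basis hn hJ (noTwo hn) T (comp_V_norm hJ hr hg) h1 hk) hga
  refine ⟨r, fun i => V b.basis e r (T (e i)), a, hr, ha, ?_, ?_⟩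
  · intro hcon
    have hcon' : V b.basis e r (T (e m)) = b a := hcon
    rw [map_sub, map_sub, map_sub, h3 _ le_rfl, hcon', sub_self] at h2
    linarith
  · have key : (V b.basis e r).comp (T : E →L[ℝ] E) = ∑ i ∈ Finset.range (m + 1),
        (u b e i - u b e (i + 1)).smulRight (V b.basis e r (T (e i))) +
          (u b e (m + 1)).smulRight (b a) := by
      refine clm_ext hJ.dense fun k => ?_
      rw [_root_.add_apply, _root_.sum_apply]
      simp only [ContinuousLinearMap.smulRight_apply, _root_.sub_apply,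
        ContinuousLinearMap.comp_apply]
      by_cases hk : k < m + 1
      · rw [u_zero hJ hk, zero_smul, add_zero, Finset.sum_eq_single_of_mem k (Finset.mem_range.2 hk)]
        · rw [u_one hJ le_rfl, u_zero hJ (Nat.lt_succ_self k), sub_zero, one_smul]; rfl
        · intro i _ hik
          have : u b e i (e k) - u b e (i + 1) (e k) = 0 := by
            rcases lt_or_gt_of_ne hik with h | h
            · rw [u_one hJ (by omega), u_one hJ (by omega), sub_self]
            · rw [u_zero hJ (by omega), u_zero hJ (by omega), sub_self]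
          rw [this, zero_smul]
      · rw [u_one hJ (by omega), one_smul, Finset.sum_eq_zero, zero_add]
        · exact h3 k (by omega)
        · intro i hi
          have hi' := Finset.mem_range.1 hi
          rw [u_one hJ (by omega), u_one hJ (by omega), sub_self, zero_smul]
    intro z
    have h4 := congrArg (fun F => F (T.symm z)) key
    simp only [ContinuousLinearMap.comp_apply, _root_.add_apply, _root_.sum_apply,
      ContinuousLinearMap.smulRight_apply, _root_.sub_apply] at h4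
    have h5 : (T : E →L[ℝ] E) (T.symm z) = z := T.apply_symm_apply z
    rw [h5] at h4
    exact h4

/-- (F1) -/
theorem exists_s (hn : ∀ i, ‖b i‖ = 1) (hJ : IsJamesification b.basis e) {T : E ≃ₗᵢ[ℝ] E}
    {p : ℕ} (hp : Rel b e T p 0) {j : ℕ} (hj : j < p) : ∃ s : ℝ, 0 < s ∧ ‖b p - s • b j‖ ≤ 1 := by
  by_cases h : ∀ k, u b e j (T (e k)) = 1
  · exfalso
    have h1 : Rel b e T j 0 := fun z =>
      fext hJ (f := (u b e j).comp (T : E →L[ℝ] E)) (g := u b e 0) (fun k => by
        rw [u_one hJ (Nat.zero_le _)]; exact h k) z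
    have := Rel.inj hJ h1 hp
    omega
  · push Not at h
    obtain ⟨k, hk⟩ := h
    refine ⟨1 - u b e j (T (e k)), ?_, ?_⟩
    · have := u_le_one hn hJ (norm_T_e hn hJ T k) j
      have h2 : u b e j (T (e k)) < 1 := lt_of_le_of_ne this hk
      linarith
    · have h1 := chain2i hJ hj.le (le_refl p) (T (e k))
      have h2 : u b e p (T (e k)) = 1 := by rw [hp, u_one hJ (Nat.zero_le _)]
      rw [h2, one_smul] at h1
      refine le_trans (le_of_eq ?_) (h1.trans (norm_T_e hn hJ T k))
      congr 1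
      module

/-- (F1') -/
theorem eq_zero_of_le [StrictConvexSpace ℝ X] (hn : ∀ i, ‖b i‖ = 1)
    (hJ : IsJamesification b.basis e) {T : E ≃ₗᵢ[ℝ] E} {p : ℕ} (hp : Rel b e T p 0) {j : ℕ}
    (hj : j < p) {t : ℝ} (ht : 0 ≤ t) (h : ‖t • b j + b p‖ ≤ 1) : t = 0 := by
  obtain ⟨s, hs, h1⟩ := exists_s hn hJ hp hj
  exact no_between hn hs ht h1 (by rw [add_comm]; exact h)

/-- (P2) -/
theorem P2 [StrictConvexSpace ℝ X] (hn : ∀ i, ‖b i‖ = 1)
    (hJ : IsJamesification b.basis e) {T : E ≃ₗᵢ[ℝ] E} {p p' : ℕ} (hp : Rel b e T p 0)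
    (hp' : Rel b e T 0 p') {j k : ℕ} (hj : j ≤ p) (hk : p' ≤ k) : u b e j (T (e k)) = 1 := by
  rcases hj.eq_or_lt with rfl | hj
  · rw [hp, u_one hJ (Nat.zero_le _)]
  · have h1 := chain2i hJ (Nat.zero_le j) hj.le (T (e k))
    rw [hp, u_one hJ (Nat.zero_le k), hp', u_one hJ hk, one_smul] at h1
    have h2 := eq_zero_of_le hn hJ hp (j := 0) (by omega) (t := 1 - u b e j (T (e k)))
      (by have := u_le_one hn hJ (norm_T_e hn hJ T k) j; linarith)
      (h1.trans (norm_T_e hn hJ T k))
    linarith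

end Pool.Agent.Work.MP_8db9c5_an.H71

end

section

/-!
# Isometries of Jamesifications of strictly convex spaces, part 2:
the image of the first tail sum is the first or the second tail sum
-/

set_option linter.unusedSectionVars false

open Topology Filter Set

namespace Pool.Agent.Work.MP_8db9c5_an.H71

open Pool.Agent.Work.MP_8db9c5_an

variable {X : Type*} [NormedAddCommGroup X] [NormedSpace ℝ X] [CompleteSpace X]
variable {E : Type*} [NormedAddCommGroup E] [NormedSpace ℝ E] [CompleteSpace E]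
variable {b : UnconditionalSchauderBasis ℕ ℝ X} {e : ℕ → E}

theorem lemK [StrictConvexSpace ℝ X] (hn : ∀ i, ‖b i‖ = 1) (hJ : IsJamesification b.basis e)
    {ψ : E →L[ℝ] ℝ} (hψ : ‖ψ‖ ≤ 1) {p q : ℕ} (hqp : q ≤ p) (hpq : p ≤ q + 1)
    (h1 : ∀ j, p ≤ j → ψ (e j) = 1) {r : ℕ → Option ℕ} (hr : IsCode r) {D : X} (hD0 : D ≠ 0)
    (hD : ∀ j, j < q → ox b.basis (r j) = ψ (e j) • D) (hne : ∃ j, j < q ∧ ψ (e j) ≠ 0)
    {y : E} (hy : ‖y‖ ≤ 1) (hy0 : ψ y = 0) (hyp : u b e p y = 1) (hyq : u b e q y = 1) :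
    ∃ c, c < q ∧ ∀ z, ψ z = u b e c z := by
  obtain ⟨j0, hj0, hne0⟩ := hne
  set κ := ψ (e j0) with hκ
  obtain ⟨c, hc⟩ : ∃ c, r j0 = some c := by
    rcases h : r j0 with _ | c
    · exfalso
      have h2 := hD j0 hj0
      rw [h, ox_none] at h2
      rcases smul_eq_zero.1 h2.symm with h3 | h3
      · exact hne0 h3
      · exact hD0 h3
    · exact ⟨c, rfl⟩
  have hcj0 := (hr j0 c hc).1
  have hcoord : ∀ j, j < q → ψ (e j) * b.coord c D = if r j = some c then 1 else 0 := by
    intro j hj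
    have h2 := congrArg (b.coord c) (hD j hj)
    rw [coord_ox, map_smul, smul_eq_mul] at h2
    exact h2.symm
  have hκD : κ * b.coord c D = 1 := by
    have := hcoord j0 hj0
    rwa [if_pos hc] at this
  have hval : ∀ j, j < q → ψ (e j) = if r j = some c then κ else 0 := by
    intro j hj
    have h2 := hcoord j hj
    have h3 : ψ (e j) = ψ (e j) * b.coord c D * κ := by
      rw [mul_assoc, mul_comm (b.coord c D), hκD, mul_one]
    rw [h3, h2]
    split_ifs <;> simp
  obtain ⟨l, hcl, hlq, hl⟩ : ∃ l, c < l ∧ l ≤ q ∧ ∀ j, j < q → (r j = some c ↔ c ≤ j ∧ j < l) := by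
    rcases code_cases hr c with h | ⟨q0, hq0, h⟩ | h
    · exact absurd hc (h j0)
    · have h2 := (h j0).1 hc
      refine ⟨min q0 q, by omega, min_le_right _ _, fun j hj => ?_⟩
      rw [h j]
      constructor
      · rintro ⟨h3, h4⟩; exact ⟨h3, by omega⟩
      · rintro ⟨h3, h4⟩; exact ⟨h3, by omega⟩
    · refine ⟨q, by omega, le_rfl, fun j hj => ?_⟩
      rw [h j]
      constructor
      · intro h3; exact ⟨h3, hj⟩
      · rintro ⟨h3, _⟩; exact h3
  have hrep : ∀ z, ψ z = κ * (u b e c z - u b e l z) + ψ (e q) * (u b e q z - u b e p z) +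
      u b e p z := by
    intro z
    refine fext hJ (g := κ • (u b e c - u b e l) + ψ (e q) • (u b e q - u b e p) + u b e p)
      (fun j => ?_) z
    simp only [_root_.add_apply, _root_.smul_apply, _root_.sub_apply, smul_eq_mul]
    rcases lt_or_ge j q with hjq | hjq
    · rw [hval j hjq, u_zero hJ hjq, u_zero hJ (show j < p by omega)]
      by_cases h2 : c ≤ j ∧ j < l
      · rw [if_pos ((hl j hjq).2 h2), u_one hJ h2.1, u_zero hJ h2.2]; ring
      · rw [if_neg (fun h3 => h2 ((hl j hjq).1 h3))]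
        by_cases h3 : c ≤ j
        · rw [u_one hJ h3, u_one hJ (show l ≤ j by omega)]; ring
        · rw [u_zero hJ (show j < c by omega), u_zero hJ (show j < l by omega)]; ring
    · rw [u_one hJ (show c ≤ j by omega), u_one hJ (show l ≤ j by omega), u_one hJ hjq]
      rcases lt_or_ge j p with hjp | hjp
      · obtain rfl : j = q := by omega
        rw [u_zero hJ hjp]; ring
      · rw [h1 j hjp, u_one hJ hjp]; ring
  have h2 := hrep y
  rw [hy0, hyp, hyq, sub_self, mul_zero, add_zero] at h2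
  have h3 : |u b e c y - u b e l y| ≤ 1 := (abs_u_sub_le hn hJ c l y).trans hy
  have h4 : |κ| ≤ 1 := by
    have h5 := ψ.le_of_opNorm_le hψ (e j0)
    rwa [norm_e hn hJ, one_mul, Real.norm_eq_abs] at h5
  have h5 : |κ| * |u b e c y - u b e l y| = 1 := by
    rw [← abs_mul]
    have : κ * (u b e c y - u b e l y) = -1 := by linarith
    rw [this]; simp
  have h6 : |κ| = 1 := by
    have := abs_nonneg κ
    have := abs_nonneg (u b e c y - u b e l y)
    nlinarith
  have hψc : ψ (e c) = κ := by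
    rw [hval c (by omega), if_pos ((hl c (by omega)).2 ⟨le_rfl, hcl⟩)]
  have hψp : ψ (e p) = 1 := h1 p le_rfl
  rcases abs_eq (zero_le_one) |>.1 h6 with h7 | h7
  · refine ⟨c, by omega, fun z => ?_⟩
    refine fext hJ (fun j => ?_) z
    rcases lt_or_ge j c with hjc | hjc
    · rw [u_zero hJ hjc, hval j (by omega), if_neg]
      intro h8
      have := ((hl j (by omega)).1 h8).1
      omega
    · rw [u_one hJ hjc]
      rcases le_total j p with hjp | hjp
      · exact lemG hn hJ hψ hjc hjp (by rw [hψc, h7]) hψp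
      · exact h1 j hjp
  · exact absurd (lemH hn hJ hψ (by rw [hψc, h7]) hψp) id

theorem K1 [StrictConvexSpace ℝ X]
    (hrefl : Function.Surjective (NormedSpace.inclusionInDoubleDual ℝ X))
    (hn : ∀ i, ‖b i‖ = 1) (hJ : IsJamesification b.basis e) {T : E ≃ₗᵢ[ℝ] E}
    (hT : IsPosIso b e T) {p p' : ℕ} (hp : Rel b e T p 0) (hp' : Rel b e T 0 p')
    (h1' : 1 ≤ p') : ∃ c, c < p ∧ Rel b e T.symm 1 c := by
  obtain ⟨r, w, a, hr, ha, hw, hV⟩ := chainN hrefl hn hJ hT 0
  have hψ : ‖(u b e 1).comp (T.symm : E →L[ℝ] E)‖ ≤ 1 := norm_comp_le (norm_u_le hn hJ 1) T.symm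
  have hψa : ∀ z, ((u b e 1).comp (T.symm : E →L[ℝ] E)) z = u b e 1 (T.symm z) := fun _ => rfl
  have hP : ∀ j, p ≤ j → u b e 1 (T.symm (e j)) = 1 := fun j hj =>
    P2 hn hJ hp'.symm hp.symm h1' hj
  obtain ⟨c, hc, h⟩ := lemK hn hJ hψ (le_refl p) (Nat.le_succ p) (fun j hj => by
      rw [hψa]; exact hP j hj) hr (D := b a - w 0)
    (fun h => hw (sub_eq_zero.1 h).symm) (fun j hj => by
      rw [← V_basis hJ hr, hV, hψa]
      simp only [zero_add, Finset.sum_range_one]
      have h0 : u b e 0 (T.symm (e j)) = 0 := by rw [hp.symm, u_zero hJ hj]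
      rw [h0]
      module) (by
      by_contra hcon
      push Not at hcon
      have h2 : Rel b e T.symm 1 p := fun z => by
        refine fext hJ (f := (u b e 1).comp (T.symm : E →L[ℝ] E)) (g := u b e p) (fun j => ?_) z
        rcases lt_or_ge j p with hj | hj
        · rw [hcon j hj, u_zero hJ hj]
        · rw [hψa, hP j hj, u_one hJ hj]
      have := Rel.inj hJ h2 hp.symm
      omega) (y := T (e 0)) (norm_T_e hn hJ T 0) (by
      rw [hψa, T.symm_apply_apply, u_zero hJ Nat.zero_lt_one]) (by rw [hp, u_one hJ le_rfl])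
      (by rw [hp, u_one hJ le_rfl])
  exact ⟨c, hc, h⟩

theorem K1' [StrictConvexSpace ℝ X] (hn : ∀ i, ‖b i‖ = 1) (hJ : IsJamesification b.basis e)
    {T : E ≃ₗᵢ[ℝ] E} {p c : ℕ} (hp : Rel b e T p 0) (hc : Rel b e T c 1) (hcp : c < p) :
    c + 1 = p := by
  by_contra hne
  have h1 : c + 1 < p := by omega
  have h2 : ∀ k, 1 ≤ k → u b e (c + 1) (T (e k)) = 1 := by
    intro k hk
    have h3 := chain2i hJ (Nat.le_succ c) h1.le (T (e k))
    rw [Nat.succ_eq_add_one, hp, u_one hJ (Nat.zero_le k), hc, u_one hJ hk, one_smul] at h3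
    have h4 := eq_zero_of_le hn hJ hp hcp (t := 1 - u b e (c + 1) (T (e k)))
      (by have := u_le_one hn hJ (norm_T_e hn hJ T k) (c + 1); linarith)
      (h3.trans (norm_T_e hn hJ T k))
    linarith
  set y := u b e (c + 1) (T (e 0)) with hy
  have h3 : ∀ z, u b e (c + 1) (T z) = u b e 1 z + y * (u b e 0 z - u b e 1 z) := by
    intro z
    refine fext hJ (f := (u b e (c + 1)).comp (T : E →L[ℝ] E))
      (g := u b e 1 + y • (u b e 0 - u b e 1)) (fun j => ?_) z
    simp only [_root_.add_apply, _root_.smul_apply, _root_.sub_apply, smul_eq_mul]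
    change u b e (c + 1) (T (e j)) = _
    rcases Nat.eq_zero_or_pos j with rfl | hj
    · rw [u_zero hJ Nat.zero_lt_one, u_one hJ le_rfl, ← hy]; ring
    · rw [h2 j hj, u_one hJ hj, u_one hJ (Nat.zero_le _)]; ring
  have h4 : ∀ z, u b e (c + 1) z = u b e c z + y * (u b e p z - u b e c z) := by
    intro z
    have h5 := h3 (T.symm z)
    rw [T.apply_symm_apply] at h5
    rw [h5, hp.symm, hc.symm]
  have h5 := h4 (e c)
  have h6 := h4 (e (c + 1))
  rw [u_zero hJ (Nat.lt_succ_self c), u_one hJ le_rfl, u_zero hJ hcp] at h5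
  rw [u_one hJ le_rfl, u_one hJ (Nat.le_succ c), u_zero hJ h1] at h6
  linarith

theorem K2 [StrictConvexSpace ℝ X]
    (hrefl : Function.Surjective (NormedSpace.inclusionInDoubleDual ℝ X))
    (hn : ∀ i, ‖b i‖ = 1) (hJ : IsJamesification b.basis e) {T : E ≃ₗᵢ[ℝ] E}
    (hT : IsPosIso b e T) {q p' : ℕ} (hp : Rel b e T (q + 1) 0) (hq : Rel b e T q 1)
    (hp' : Rel b e T 0 p') (h2' : 2 ≤ p') : ∃ c, c < q ∧ Rel b e T.symm 2 c := by
  obtain ⟨r, w, a, hr, ha, hw, hV⟩ := chainN hrefl hn hJ hT 1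
  have hψ : ‖(u b e 2).comp (T.symm : E →L[ℝ] E)‖ ≤ 1 := norm_comp_le (norm_u_le hn hJ 2) T.symm
  have hψa : ∀ z, ((u b e 2).comp (T.symm : E →L[ℝ] E)) z = u b e 2 (T.symm z) := fun _ => rfl
  have hP : ∀ j, q + 1 ≤ j → u b e 2 (T.symm (e j)) = 1 := fun j hj =>
    P2 hn hJ hp'.symm hp.symm h2' hj
  obtain ⟨c, hc, h⟩ := lemK hn hJ hψ (Nat.le_succ q) (le_refl (q + 1)) (fun j hj => by
      rw [hψa]; exact hP j hj) hr (D := b a - w 1)
    (fun h => hw (sub_eq_zero.1 h).symm) (fun j hj => by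
      rw [← V_basis hJ hr, hV, hψa]
      simp only [Finset.sum_range_succ, Finset.sum_range_zero, zero_add]
      have h0 : u b e 0 (T.symm (e j)) = 0 := by rw [hp.symm, u_zero hJ (by omega)]
      have h1 : u b e 1 (T.symm (e j)) = 0 := by rw [hq.symm, u_zero hJ hj]
      have e2 : (1 + 1 : ℕ) = 2 := rfl
      rw [h0, h1, e2]
      module) (by
      by_contra hcon
      push Not at hcon
      set η := u b e 2 (T.symm (e q)) with hη
      have h2 : ∀ z, u b e 2 (T.symm z) =
          η * (u b e q z - u b e (q + 1) z) + u b e (q + 1) z := fun z => by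
        refine fext hJ (f := (u b e 2).comp (T.symm : E →L[ℝ] E))
          (g := η • (u b e q - u b e (q + 1)) + u b e (q + 1)) (fun j => ?_) z
        simp only [_root_.add_apply, _root_.smul_apply, _root_.sub_apply, smul_eq_mul]
        rcases lt_or_ge j q with hj | hj
        · rw [hcon j hj, u_zero hJ hj, u_zero hJ (show j < q + 1 by omega)]; ring
        · rw [hψa, u_one hJ hj]
          rcases hj.eq_or_lt with rfl | hj
          · rw [u_zero hJ (Nat.lt_succ_self q), ← hη]; ring
          · rw [hP j hj, u_one hJ hj]; ring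
      have h3 := h2 (T (e 1))
      rw [T.symm_apply_apply, hp, hq, u_zero hJ (show 1 < 2 by omega), u_one hJ le_rfl,
        u_one hJ (Nat.zero_le _)] at h3
      linarith) (y := T (e 1)) (norm_T_e hn hJ T 1) (by
      rw [hψa, T.symm_apply_apply, u_zero hJ (show 1 < 2 by omega)])
      (by rw [hp, u_one hJ (Nat.zero_le _)]) (by rw [hq, u_one hJ le_rfl])
  exact ⟨c, hc, h⟩

/-- `T e_0` vanishes before `p` -/
theorem fact0 [StrictConvexSpace ℝ X] (hn : ∀ i, ‖b i‖ = 1) (hJ : IsJamesification b.basis e)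
    {T : E ≃ₗᵢ[ℝ] E} {q : ℕ} (hp : Rel b e T (q + 1) 0) (hq : Rel b e T q 1) {j : ℕ}
    (hj : j ≤ q) : u b e j (T (e 0)) = 0 := by
  have h0 : u b e q (T (e 0)) = 0 := by rw [hq, u_zero hJ Nat.zero_lt_one]
  have h1 : u b e (q + 1) (T (e 0)) = 1 := by rw [hp, u_one hJ le_rfl]
  have h3 := chain2i hJ hj (Nat.le_succ q) (T (e 0))
  rw [Nat.succ_eq_add_one, h0, h1, one_smul, sub_zero] at h3
  exact eq_zero_of_le hn hJ hp (Nat.lt_succ_of_le hj)
    (u_nonneg hn hJ (norm_T_e hn hJ T 0) h1 j) (h3.trans (norm_T_e hn hJ T 0))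

theorem K2' [StrictConvexSpace ℝ X] (hn : ∀ i, ‖b i‖ = 1) (hJ : IsJamesification b.basis e)
    {T : E ≃ₗᵢ[ℝ] E} {q c : ℕ} (hp : Rel b e T (q + 1) 0) (hq : Rel b e T q 1)
    (hc : Rel b e T c 2) (hcq : c < q) : c + 1 = q := by
  by_contra hne
  have h1 : c + 1 < q := by omega
  have h2 : ∀ k, 2 ≤ k → u b e (c + 1) (T (e k)) = 1 := by
    intro k hk
    have h3 := chain2i hJ (Nat.le_succ c) (show c + 1 ≤ q + 1 by omega) (T (e k))
    rw [Nat.succ_eq_add_one, hp, u_one hJ (Nat.zero_le k), hc, u_one hJ hk, one_smul] at h3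
    have h4 := eq_zero_of_le hn hJ hp (show c < q + 1 by omega)
      (t := 1 - u b e (c + 1) (T (e k)))
      (by have := u_le_one hn hJ (norm_T_e hn hJ T k) (c + 1); linarith)
      (h3.trans (norm_T_e hn hJ T k))
    linarith
  set y := u b e (c + 1) (T (e 1)) with hy
  have h3 : ∀ z, u b e (c + 1) (T z) = u b e 2 z + y * (u b e 1 z - u b e 2 z) := by
    intro z
    refine fext hJ (f := (u b e (c + 1)).comp (T : E →L[ℝ] E))
      (g := u b e 2 + y • (u b e 1 - u b e 2)) (fun j => ?_) z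
    simp only [_root_.add_apply, _root_.smul_apply, _root_.sub_apply, smul_eq_mul]
    change u b e (c + 1) (T (e j)) = _
    rcases (show j = 0 ∨ j = 1 ∨ 2 ≤ j by omega) with rfl | rfl | hj
    · rw [u_zero hJ (show 0 < 2 by omega), u_zero hJ (show 0 < 1 by omega),
        fact0 hn hJ hp hq (by omega)]; ring
    · rw [u_zero hJ (show 1 < 2 by omega), u_one hJ le_rfl, ← hy]; ring
    · rw [h2 j hj, u_one hJ hj, u_one hJ (by omega)]; ring
  have h4 : ∀ z, u b e (c + 1) z = u b e c z + y * (u b e q z - u b e c z) := by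
    intro z
    have h5 := h3 (T.symm z)
    rw [T.apply_symm_apply] at h5
    rw [h5, hq.symm, hc.symm]
  have h5 := h4 (e c)
  have h6 := h4 (e (c + 1))
  rw [u_zero hJ (Nat.lt_succ_self c), u_one hJ le_rfl, u_zero hJ hcq] at h5
  rw [u_one hJ le_rfl, u_one hJ (Nat.le_succ c), u_zero hJ h1] at h6
  linarith

/-- adjacent values of a code -/
theorem code_pair (hn : ∀ i, ‖b i‖ = 1) {i : ℕ} (h : ∀ j, j < i + 1 → ‖b (i + 1) - b j‖ ≤ 1)
    {r : ℕ → Option ℕ} (hr : IsCode r) :
    ‖ox b.basis (r (i + 1)) - ox b.basis (r i)‖ ≤ 1 := by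
  rcases h1 : r (i + 1) with _ | s
  · rw [ox_none, zero_sub, norm_neg]; exact norm_ox_le hn _
  · have h2 := hr (i + 1) s h1
    rcases h2.1.eq_or_lt with rfl | hlt
    · rcases h3 : r i with _ | j
      · rw [ox_none, sub_zero, ox_some]; exact (hn _).le
      · rw [ox_some, ox_some]
        exact h j (by have := (hr i j h3).1; omega)
    · have h3 : r i = some s := h2.2 i (by omega) (by omega)
      rw [h3, sub_self, norm_zero]; exact zero_le_one

/-- there is no isometry with `u_0 ↔ u_{c+2}`, `u_1 ↔ u_{c+1}`, `u_2 ↔ u_c` -/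
theorem no_reversal [StrictConvexSpace ℝ X] (hn : ∀ i, ‖b i‖ = 1)
    (hJ : IsJamesification b.basis e) {T : E ≃ₗᵢ[ℝ] E} {c : ℕ} (hp : Rel b e T (c + 2) 0)
    (hq : Rel b e T (c + 1) 1) (hc : Rel b e T c 2) : False := by
  -- values of `T e_0`, `T e_1`
  have a0 : ∀ j, j < c + 2 → u b e j (T (e 0)) = 0 := fun j hj =>
    fact0 hn hJ hp hq (by omega)
  have a0' : u b e (c + 2) (T (e 0)) = 1 := by rw [hp, u_one hJ le_rfl]
  have a1' : u b e (c + 2) (T (e 1)) = 1 := by rw [hp, u_one hJ (Nat.zero_le _)]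
  have a1'' : u b e (c + 1) (T (e 1)) = 1 := by rw [hq, u_one hJ le_rfl]
  have a1c : u b e c (T (e 1)) = 0 := by rw [hc, u_zero hJ (show 1 < 2 by omega)]
  have a1 : ∀ j, j < c + 1 → u b e j (T (e 1)) = 0 := by
    intro j hj
    have h3 := chain2i hJ (show j ≤ c by omega) (show c ≤ c + 2 by omega) (T (e 1))
    rw [a1c, a1', one_smul, sub_zero] at h3
    exact eq_zero_of_le hn hJ hp (by omega)
      (u_nonneg hn hJ (norm_T_e hn hJ T 1) a1' j) (h3.trans (norm_T_e hn hJ T 1))
  have pair1 : ∀ j, j < c + 1 + 1 → ‖b (c + 1 + 1) - b j‖ ≤ 1 := by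
    intro j hj
    have h3 := chain2i hJ hj.le (le_refl (c + 2)) (T (e 0))
    rw [a0 j hj, a0'] at h3
    refine le_trans (le_of_eq ?_) (h3.trans (norm_T_e hn hJ T 0))
    congr 1
    module
  have pair2 : ∀ j, j < c + 1 → ‖b (c + 1) - b j‖ ≤ 1 := by
    intro j hj
    have h3 := chain2i hJ hj.le (le_refl (c + 1)) (T (e 1))
    rw [a1 j hj, a1''] at h3
    refine le_trans (le_of_eq ?_) (h3.trans (norm_T_e hn hJ T 1))
    congr 1
    module
  have pair02 : ‖b 0 - b 2‖ ≤ 1 := by
    have h3 := chain2i hJ (Nat.zero_le 2) (le_refl 2) (T.symm (e c))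
    rw [hp.symm, hc.symm, u_zero hJ (show c < c + 2 by omega), u_one hJ le_rfl] at h3
    refine le_trans (le_of_eq ?_) (h3.trans (norm_T_e hn hJ T.symm c))
    rw [← norm_neg]
    congr 1
    module
  -- the functional
  obtain ⟨g, hg, hg0⟩ := exists_dual_basis (b := b) hn 0
  have hγ : 0 < g (b 2) := by
    have h1 := g_le hg pair02
    rw [map_sub, hg0] at h1
    refine lt_of_le_of_ne (by linarith) fun h2 => ?_
    have h3 : g (b 0 - b 2) = 1 := by rw [map_sub, hg0, ← h2, sub_zero]
    have h4 := sc hg pair02 (hn 0).le h3 hg0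
    have h5 : b 2 = 0 := sub_eq_self.1 h4
    have h6 := hn 2
    rw [h5, norm_zero] at h6
    exact zero_ne_one h6
  have hcode : IsCode (c3 0 1 1 1 2) := isCode_c3 (by omega) (by omega) (by omega)
  set φ : E →L[ℝ] ℝ := (g.comp (V b.basis e (c3 0 1 1 1 2))).comp (T.symm : E →L[ℝ] E) with hφ
  have hφ1 : ‖φ‖ ≤ 1 := norm_comp_le (comp_V_norm hJ hcode hg) T.symm
  have hφz : ∀ z, φ z = u b e (c + 2) z - u b e (c + 1) z + g (b 2) * u b e c z := by
    intro z
    change g (V b.basis e (c3 0 1 1 1 2) (T.symm z)) = _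
    rw [V_c3 hJ (by omega) (by omega) (by omega) (by omega), hp.symm, hq.symm, hc.symm]
    simp only [map_add, map_smul, smul_eq_mul, hg0]
    ring
  set z0 : E := (e c - e (c + 1)) + (e (c + 1 + 1) - e (c + 1)) with hz0
  have hφz0 : φ z0 = 2 := by
    rw [hφz, hz0]
    simp only [map_add, map_sub]
    rw [u_zero hJ (show c < c + 2 by omega), u_zero hJ (show c + 1 < c + 2 by omega),
      u_one hJ (show c + 2 ≤ c + 1 + 1 by omega), u_zero hJ (show c < c + 1 by omega),
      u_one hJ (show c + 1 ≤ c + 1 by omega), u_one hJ (show c + 1 ≤ c + 1 + 1 by omega),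
      u_one hJ (le_refl c), u_one hJ (show c ≤ c + 1 by omega),
      u_one hJ (show c ≤ c + 1 + 1 by omega)]
    norm_num
  have hVz0 : ∀ r, IsCode r → V b.basis e r z0 =
      (ox b.basis (r c) - ox b.basis (r (c + 1))) +
        (ox b.basis (r (c + 1 + 1)) - ox b.basis (r (c + 1))) := by
    intro r hr
    rw [hz0]
    simp only [map_add, map_sub, V_basis hJ hr]
  have hA : ∀ r, IsCode r → ‖ox b.basis (r c) - ox b.basis (r (c + 1))‖ ≤ 1 := fun r hr => by
    rw [norm_sub_rev]; exact code_pair hn pair2 hr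
  have hB : ∀ r, IsCode r → ‖ox b.basis (r (c + 1 + 1)) - ox b.basis (r (c + 1))‖ ≤ 1 :=
    fun r hr => code_pair hn pair1 hr
  have hz0n : ‖z0‖ = 2 := by
    refine le_antisymm ?_ ?_
    · obtain ⟨r, hr, h⟩ := exists_attain hJ z0
      rw [← h, hVz0 r hr]
      refine (norm_add_le _ _).trans ?_
      have := hA r hr
      have := hB r hr
      linarith
    · have h1 := φ.le_of_opNorm_le hφ1 z0
      rw [hφz0, one_mul] at h1
      have : ‖(2 : ℝ)‖ = 2 := by norm_num
      rwa [this] at h1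
  obtain ⟨r, g', hr, hg', h1, h2⟩ := exists_danskin hJ z0 (e c) φ hφ1 (by rw [hφz0, hz0n])
  rw [hz0n, hVz0 r hr, map_add] at h1
  rw [hφz, u_zero hJ (show c < c + 2 by omega), u_zero hJ (show c < c + 1 by omega),
    u_one hJ (le_refl c), V_basis hJ hr] at h2
  have h3 := g_le hg' (hA r hr)
  have h4 := g_le hg' (hB r hr)
  have h5 : g' (ox b.basis (r c) - ox b.basis (r (c + 1))) = 1 := by linarith
  have h6 : g' (ox b.basis (r (c + 1 + 1)) - ox b.basis (r (c + 1))) = 1 := by linarith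
  have h7 := sc hg' (hA r hr) (hB r hr) h5 h6
  have h8 : ox b.basis (r c) = ox b.basis (r (c + 1 + 1)) := sub_left_inj.1 h7
  rcases hrc : r c with _ | s
  · rw [hrc, ox_none, map_zero] at h2; linarith
  · rcases hrc2 : r (c + 1 + 1) with _ | s'
    · rw [hrc, hrc2, ox_some, ox_none] at h8
      have := hn s
      rw [h8, norm_zero] at this
      exact zero_ne_one this
    · rw [hrc, hrc2, ox_some, ox_some] at h8
      have hss := b_inj h8
      subst hss
      have h9 : r (c + 1) = some s :=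
        (hr _ s hrc2).2 (c + 1) ((hr c s hrc).1.trans (Nat.le_succ c)) (Nat.le_succ _)
      rw [hrc, h9, sub_self, map_zero] at h5
      exact zero_ne_one h5

/-- the first tail sum is fixed or exchanged with the second one -/
theorem first [StrictConvexSpace ℝ X]
    (hrefl : Function.Surjective (NormedSpace.inclusionInDoubleDual ℝ X))
    (hn : ∀ i, ‖b i‖ = 1) (hJ : IsJamesification b.basis e) {T : E ≃ₗᵢ[ℝ] E}
    (hT : IsPosIso b e T) :
    (Rel b e T 0 0 ∧ Rel b e T.symm 0 0) ∨
      (Rel b e T 0 1 ∧ Rel b e T 1 0 ∧ Rel b e T.symm 0 1 ∧ Rel b e T.symm 1 0) := by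
  have hT' := IsPosIso.symm hrefl hn hJ (noTwo hn) hT
  obtain ⟨p, hp⟩ := exists_p hrefl hn hJ hT
  obtain ⟨p', hp'⟩ := exists_p hrefl hn hJ hT'
  have hp'' : Rel b e T 0 p' := by simpa using hp'.symm
  rcases Nat.eq_zero_or_pos p with rfl | hpos
  · left; exact ⟨hp, hp.symm⟩
  · right
    have hpos' : 1 ≤ p' := by
      by_contra hcon
      have : p' = 0 := by omega
      subst this
      have := Rel.inj hJ hp'' hp
      omega
    obtain ⟨c, hcp, hc⟩ := K1 hrefl hn hJ hT hp hp'' hpos'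
    have hc' : Rel b e T c 1 := by simpa using hc.symm
    have hcp1 := K1' hn hJ hp hc' hcp
    obtain ⟨c', hcp', hd⟩ := K1 hrefl hn hJ hT' (p := p') (p' := p) hp' hp.symm hpos
    have hd' : Rel b e T.symm c' 1 := by simpa using hd.symm
    have hcp1' := K1' hn hJ hp' hd' hcp'
    -- `p = 1`
    have hp1 : p = 1 := by
      by_contra hcon
      have hp2' : 2 ≤ p' := by
        by_contra h2
        have h3 : p' = 1 := by omega
        have h4 : c' = 0 := by omega
        subst h3; subst h4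
        have h5 : Rel b e T 1 0 := by simpa using hd'.symm
        have := Rel.inj hJ h5 hp
        omega
      obtain ⟨q, rfl⟩ : ∃ q, p = q + 1 := ⟨p - 1, by omega⟩
      obtain rfl : c = q := by omega
      obtain ⟨d, hdc, hd2⟩ := K2 hrefl hn hJ hT hp hc' hp'' hp2'
      have hd2' : Rel b e T d 2 := by simpa using hd2.symm
      have h6 := K2' hn hJ hp hc' hd2' hdc
      subst h6
      exact no_reversal hn hJ hp hc' hd2'
    subst hp1
    have hc0 : c = 0 := by omega
    subst hc0
    exact ⟨hc', hp, hp.symm, hc⟩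

end Pool.Agent.Work.MP_8db9c5_an.H71

end

section

/-!
# Isometries of Jamesifications of strictly convex spaces, part 3: the classification
-/

set_option linter.unusedSectionVars false

open Topology Filter Set

namespace Pool.Agent.Work.MP_8db9c5_an.H71

open Pool.Agent.Work.MP_8db9c5_an

variable {X : Type*} [NormedAddCommGroup X] [NormedSpace ℝ X] [CompleteSpace X]
variable {E : Type*} [NormedAddCommGroup E] [NormedSpace ℝ E] [CompleteSpace E]
variable {b : UnconditionalSchauderBasis ℕ ℝ X} {e : ℕ → E}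

/-- the identity or the exchange of `0` and `1` -/
def sw (s : Bool) (n : ℕ) : ℕ := if s then (if n = 0 then 1 else if n = 1 then 0 else n) else n

theorem sw_le {s : Bool} {m i : ℕ} (hm : s = true → 1 ≤ m) (hi : i ≤ m) : sw s i ≤ m := by
  unfold sw
  split_ifs with h1 h2 h3
  · exact hm h1
  · omega
  · exact hi
  · exact hi

theorem sw_iff {s : Bool} {i k : ℕ} (hk : sw s 0 ≤ k) : sw s i ≤ k ↔ i ≤ k := by
  unfold sw at hk ⊢
  cases s
  · simp
  · simp only [if_true] at hk ⊢
    split_ifs <;> omega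

theorem rep (hJ : IsJamesification b.basis e) (ψ : E →L[ℝ] ℝ) {m a : ℕ} (hma : m ≤ a) (β : ℝ)
    (h1 : ∀ j, m ≤ j → j < a → ψ (e j) = β) (h2 : ∀ j, a ≤ j → ψ (e j) = 1) (z : E) :
    ψ z = ∑ j ∈ Finset.range m, ψ (e j) * (u b e j z - u b e (j + 1) z) +
      β * (u b e m z - u b e a z) + u b e a z := by
  refine fext hJ (g := ∑ j ∈ Finset.range m, ψ (e j) • (u b e j - u b e (j + 1)) +
      β • (u b e m - u b e a) + u b e a) (fun k => ?_) z |>.trans ?_
  · simp only [_root_.add_apply, _root_.sum_apply, _root_.smul_apply, _root_.sub_apply, smul_eq_mul]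
    by_cases hk : k < m
    · rw [u_zero hJ hk, u_zero hJ (show k < a by omega),
        Finset.sum_eq_single_of_mem k (Finset.mem_range.2 hk)]
      · rw [u_one hJ le_rfl, u_zero hJ (Nat.lt_succ_self k)]; ring
      · intro i _ hik
        rcases lt_or_gt_of_ne hik with h | h
        · rw [u_one hJ (by omega), u_one hJ (by omega)]; ring
        · rw [u_zero hJ (by omega), u_zero hJ (by omega)]; ring
    · rw [u_one hJ (show m ≤ k by omega), Finset.sum_eq_zero]
      · rcases lt_or_ge k a with hka | hka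
        · rw [h1 k (by omega) hka, u_zero hJ hka]; ring
        · rw [h2 k hka, u_one hJ hka]; ring
      · intro i hi
        have hi' := Finset.mem_range.1 hi
        rw [u_one hJ (show i ≤ k by omega), u_one hJ (show i + 1 ≤ k by omega)]; ring
  · simp only [_root_.add_apply, _root_.sum_apply, _root_.smul_apply, _root_.sub_apply, smul_eq_mul]

theorem KM [StrictConvexSpace ℝ X]
    (hrefl : Function.Surjective (NormedSpace.inclusionInDoubleDual ℝ X))
    (hn : ∀ i, ‖b i‖ = 1) (hJ : IsJamesification b.basis e) {T : E ≃ₗᵢ[ℝ] E}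
    (hT : IsPosIso b e T) {s : Bool} {m : ℕ} (hm : s = true → 1 ≤ m)
    (hH : ∀ i, i ≤ m → Rel b e T i (sw s i) ∧ Rel b e T.symm i (sw s i)) :
    ∃ a, m + 1 ≤ a ∧ Rel b e T.symm (m + 1) a := by
  obtain ⟨r, w, a, hr, ha, hw, hV⟩ := chainN hrefl hn hJ hT m
  set ψ : E →L[ℝ] ℝ := (u b e (m + 1)).comp (T.symm : E →L[ℝ] E) with hψ
  have hψa : ∀ z, ψ z = u b e (m + 1) (T.symm z) := fun _ => rfl
  have hψT : ∀ z, ψ (T z) = u b e (m + 1) z := fun z => by rw [hψa, T.symm_apply_apply]
  have hψn : ‖ψ‖ ≤ 1 := norm_comp_le (norm_u_le hn hJ _) T.symm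
  have FT : ∀ i k, i ≤ m → m ≤ k → u b e i (T (e k)) = 1 := fun i k hi hk => by
    rw [(hH i hi).1, u_one hJ ((sw_le hm hi).trans hk)]
  have FR : ∀ i k, i ≤ m → m ≤ k → u b e i (T.symm (e k)) = 1 := fun i k hi hk => by
    rw [(hH i hi).2, u_one hJ ((sw_le hm hi).trans hk)]
  have hox : ∀ j, m ≤ j → ox b.basis (r j) = (1 - ψ (e j)) • w m + ψ (e j) • b a := by
    intro j hj
    rw [← V_basis hJ hr, hV, Finset.sum_range_succ, Finset.sum_eq_zero, zero_add, FR m j le_rfl hj,
      hψa]
    intro i hi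
    have hi' := Finset.mem_range.1 hi
    rw [FR i j (by omega) hj, FR (i + 1) j (by omega) hj, sub_self, zero_smul]
  have hone : ∀ j, m ≤ j → a ≤ j → ψ (e j) = 1 := by
    intro j hj haj
    have h1 := hox j hj
    rw [(ha j).2 haj, ox_some] at h1
    have h2 : (1 - ψ (e j)) • (w m - b a) = 0 := by
      rw [smul_sub, sub_eq_zero]
      have h3 : (1 - ψ (e j)) • w m = b a - ψ (e j) • b a := by
        rw [eq_sub_iff_add_eq]; exact h1.symm
      rw [h3, sub_smul, one_smul]
    rcases smul_eq_zero.1 h2 with h3 | h3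
    · linarith
    · exact absurd (sub_eq_zero.1 h3) hw
  have hsum0 : ∀ z, (∀ i, i ≤ m → u b e i z = 1) →
      ∑ j ∈ Finset.range m, ψ (e j) * (u b e j z - u b e (j + 1) z) = 0 := by
    intro z hz
    refine Finset.sum_eq_zero fun i hi => ?_
    have hi' := Finset.mem_range.1 hi
    rw [hz i (by omega), hz (i + 1) (by omega)]; ring
  have ham : m < a := by
    by_contra hcon
    have h1 := rep hJ ψ (le_refl m) 0 (fun j h1 h2 => by omega)
      (fun j hj => hone j hj (by omega)) (T (e m))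
    rw [hψT, u_zero hJ (Nat.lt_succ_self m), hsum0 _ (fun i hi => FT i m hi le_rfl),
      FT m m le_rfl le_rfl] at h1
    norm_num at h1
  set ω := b.coord a (w m) with hω
  have hω1 : ∀ j, m ≤ j → j < a → (1 - ψ (e j)) * (1 - ω) = 1 := by
    intro j hj hja
    have h1 := congrArg (b.coord a) (hox j hj)
    rw [coord_ox, if_neg (fun h => by have := (ha j).1 h; omega), map_add, map_smul, map_smul,
      coord_basis, if_pos rfl, smul_eq_mul, smul_eq_mul, ← hω] at h1
    linarith
  have hωne : (1 - ω) ≠ 0 := by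
    intro h
    have := hω1 m le_rfl ham
    rw [h, mul_zero] at this
    exact zero_ne_one this
  set β := ψ (e m) with hβ
  have hconst : ∀ j, m ≤ j → j < a → ψ (e j) = β := by
    intro j hj hja
    have h1 := hω1 j hj hja
    have h2 := hω1 m le_rfl ham
    have h3 : (1 - ψ (e j)) = 1 - ψ (e m) := mul_right_cancel₀ hωne (h1.trans h2.symm)
    linarith
  have hrep := rep hJ ψ ham.le β hconst (fun j hj => hone j (by omega) hj)
  have hβ0 : β = 0 := by
    have h0 : 0 ≤ β := u_nonneg hn hJ (norm_T_e hn hJ T.symm m) (FR 0 m (Nat.zero_le _) le_rfl) _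
    have h1 := hrep (T (e m))
    rw [hψT, u_zero hJ (Nat.lt_succ_self m), hsum0 _ (fun i hi => FT i m hi le_rfl),
      FT m m le_rfl le_rfl] at h1
    have h2 := u_nonneg hn hJ (norm_T_e hn hJ T m) (FT 0 m (Nat.zero_le _) le_rfl) a
    have h3 := u_le_one hn hJ (norm_T_e hn hJ T m) a
    have h4 : 0 ≤ β * (1 - u b e a (T (e m))) := mul_nonneg h0 (by linarith)
    have h5 : u b e a (T (e m)) = 0 := by linarith
    rw [h5] at h1
    linarith
  have hk0 : ∀ k, sw s 0 ≤ k → k < m → ψ (e k) = 0 := by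
    intro k hk hkm
    have h1 := hrep (T (e k))
    have h2 := hrep (e k)
    have h3 : ∀ i, i ≤ m → u b e i (T (e k)) = u b e i (e k) := by
      intro i hi
      rw [(hH i hi).1, u_basis hJ, u_basis hJ]
      simp only [sw_iff hk]
    rw [Finset.sum_congr rfl (g := fun j => ψ (e j) * (u b e j (e k) - u b e (j + 1) (e k)))
      (fun j hj => by
        have hj' := Finset.mem_range.1 hj
        rw [h3 j (by omega), h3 (j + 1) (by omega)])] at h1
    rw [hψT, u_zero hJ (show k < m + 1 by omega), hβ0, zero_mul, add_zero] at h1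
    rw [hβ0, zero_mul, add_zero, u_zero hJ (show k < a by omega), add_zero] at h2
    rw [← h2] at h1
    have h4 : u b e 0 (T (e k)) = 1 := by rw [(hH 0 (Nat.zero_le _)).1, u_one hJ hk]
    have h5 : u b e 0 (T.symm (e k)) = 1 := by rw [(hH 0 (Nat.zero_le _)).2, u_one hJ hk]
    have h6 := u_nonneg hn hJ (norm_T_e hn hJ T k) h4 a
    have h7 : 0 ≤ ψ (e k) := u_nonneg hn hJ (norm_T_e hn hJ T.symm k) h5 _
    linarith
  have hall : ∀ k, k < a → ψ (e k) = 0 := by
    intro k hka
    rcases lt_or_ge k m with hkm | hkm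
    · rcases le_or_gt (sw s 0) k with h | h
      · exact hk0 k h hkm
      · -- `s = true`, `k = 0`
        have hs : s = true := by
          cases s
          · simp [sw] at h
          · rfl
        subst hs
        have hk : k = 0 := by simp [sw] at h; exact h
        subst hk
        have hm1 := hm rfl
        have h1 : ψ (e 1) = 0 := by
          rcases hm1.eq_or_lt with h1 | h1
          · rw [h1]; exact hβ0
          · exact hk0 1 (by simp [sw]) h1
        have hR0 : ∀ z, u b e 0 (T.symm z) = u b e 1 z := fun z => (hH 0 (Nat.zero_le _)).2 z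
        have hR1 : ∀ z, u b e 1 (T.symm z) = u b e 0 z := fun z => (hH 1 hm1).2 z
        have hge : 0 ≤ ψ (e 0) :=
          u_nonneg hn hJ (norm_T_e hn hJ T.symm 0) (i := 1) (by rw [hR1, u_one hJ le_rfl]) _
        have hpair : ‖b 1 - b 0‖ ≤ 1 := by
          have h3 := chain2i hJ (Nat.zero_le 1) (le_refl 1) (T.symm (e 0))
          rw [hR0, hR1, u_zero hJ Nat.zero_lt_one, u_one hJ le_rfl] at h3
          refine le_trans (le_of_eq ?_) (h3.trans (norm_T_e hn hJ T.symm 0))
          congr 1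
          module
        set φ : E →L[ℝ] ℝ := (u b e 0 - u b e (m + 1)).comp (T.symm : E →L[ℝ] E) with hφ
        have hφ1 : ‖φ‖ ≤ 1 := norm_comp_le (norm_sub_u_le hn hJ _ _) T.symm
        have hφz : ∀ z, φ z = u b e 1 z - ψ z := fun z => by
          change u b e 0 (T.symm z) - u b e (m + 1) (T.symm z) = _
          rw [hR0]; rfl
        obtain ⟨r', g, hr', hg, h4, h5⟩ := exists_danskin hJ (e 1) (-e 0) φ hφ1 (by
          rw [hφz, h1, u_one hJ le_rfl, norm_e hn hJ, sub_zero])
        rw [norm_e hn hJ, V_basis hJ hr'] at h4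
        rw [map_neg, map_neg, map_neg, hφz, u_zero hJ Nat.zero_lt_one, V_basis hJ hr'] at h5
        refine le_antisymm ?_ hge
        rcases h6 : r' 1 with _ | t
        · rw [h6, ox_none, map_zero] at h4; exact absurd h4 zero_ne_one
        · rw [h6, ox_some] at h4
          have h7 := hr' 1 t h6
          rcases h7.1.eq_or_lt with rfl | hlt
          · rcases h8 : r' 0 with _ | t'
            · rw [h8, ox_none, map_zero] at h5; linarith
            · have ht' : t' = 0 := by have := (hr' 0 t' h8).1; omega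
              subst ht'
              rw [h8, ox_some] at h5
              have h9 := g_le hg hpair
              rw [map_sub, h4] at h9
              linarith
          · have ht : t = 0 := by omega
            subst ht
            have h8 : r' 0 = some 0 := h7.2 0 le_rfl (by omega)
            rw [h8, ox_some, h4] at h5
            linarith
    · rw [hconst k hkm hka, hβ0]
  refine ⟨a, ham, fun z => ?_⟩
  refine fext hJ (f := ψ) (fun k => ?_) z
  rcases lt_or_ge k a with hka | hka
  · rw [hall k hka, u_zero hJ hka]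
  · rw [hone k (by omega) hka, u_one hJ hka]

theorem KM' [StrictConvexSpace ℝ X]
    (hrefl : Function.Surjective (NormedSpace.inclusionInDoubleDual ℝ X))
    (hn : ∀ i, ‖b i‖ = 1) (hJ : IsJamesification b.basis e) {T : E ≃ₗᵢ[ℝ] E}
    (hT : IsPosIso b e T) {s : Bool} {m : ℕ} (hm : s = true → 1 ≤ m)
    (hH : ∀ i, i ≤ m → Rel b e T i (sw s i) ∧ Rel b e T.symm i (sw s i)) :
    Rel b e T (m + 1) (m + 1) ∧ Rel b e T.symm (m + 1) (m + 1) := by
  have hT' := IsPosIso.symm hrefl hn hJ (noTwo hn) hT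
  obtain ⟨a, ha, hRa⟩ := KM hrefl hn hJ hT hm hH
  obtain ⟨a', ha', hTa'⟩ := KM hrefl hn hJ hT' hm (fun i hi => ⟨(hH i hi).2, (hH i hi).1⟩)
  have hTa'' : Rel b e T (m + 1) a' := by simpa using hTa'
  have hTa : Rel b e T a (m + 1) := by simpa using hRa.symm
  by_cases haa : a = m + 1
  · subst haa
    exact ⟨by simpa using hRa.symm, hRa⟩
  exfalso
  have hne' : a' ≠ m + 1 := by
    intro h
    subst h
    exact haa (Rel.inj' hJ hRa hTa''.symm)
  have FT : ∀ i k, i ≤ m → m ≤ k → u b e i (T (e k)) = 1 := fun i k hi hk => by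
    rw [(hH i hi).1, u_one hJ ((sw_le hm hi).trans hk)]
  have h1 : u b e (m + 1) (T (e (m + 1))) = 0 := by rw [hTa'', u_zero hJ (by omega)]
  have h2 : u b e a (T (e (m + 1))) = 1 := by rw [hTa, u_one hJ le_rfl]
  have h3 : u b e a (T (e m)) = 0 := by rw [hTa, u_zero hJ (Nat.lt_succ_self m)]
  have hpair : ∀ j, j < m + 1 → ‖b (m + 1) - b j‖ ≤ 1 := by
    intro j hj
    have h4 := chain2 hJ hj.le (le_refl (m + 1)) ha (T (e (m + 1)))
    rw [FT j (m + 1) (by omega) (by omega), h1, h2] at h4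
    refine le_trans (le_of_eq ?_) (h4.trans (norm_T_e hn hJ T (m + 1)))
    rw [← norm_neg]
    congr 1
    module
  have hdiff : ‖e (m + 1) - e m‖ ≤ 1 := by
    obtain ⟨r, hr, h⟩ := exists_attain hJ (e (m + 1) - e m)
    rw [← h, map_sub, V_basis hJ hr, V_basis hJ hr]
    exact code_pair hn hpair hr
  have h4 : ‖b a + (1 : ℝ) • b 0‖ ≤ 1 := by
    have h5 := chain2i hJ (Nat.zero_le (m + 1)) ha (T (e (m + 1)))
    rw [FT 0 (m + 1) (by omega) (by omega), h1, h2] at h5
    refine le_trans (le_of_eq ?_) (h5.trans (norm_T_e hn hJ T (m + 1)))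
    congr 1
    module
  have h5 : ‖b a - (1 : ℝ) • b 0‖ ≤ 1 := by
    have h6 := chain2i hJ (Nat.zero_le a) (le_refl a) (T (e (m + 1) - e m))
    simp only [map_sub] at h6
    rw [FT 0 (m + 1) (by omega) (by omega), FT 0 m (by omega) le_rfl, h2, h3, ← map_sub,
      T.norm_map] at h6
    refine le_trans (le_of_eq ?_) (h6.trans hdiff)
    congr 1
    module
  have := no_between hn one_pos zero_le_one h5 h4
  exact one_ne_zero this

theorem all_rel [StrictConvexSpace ℝ X]
    (hrefl : Function.Surjective (NormedSpace.inclusionInDoubleDual ℝ X))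
    (hn : ∀ i, ‖b i‖ = 1) (hJ : IsJamesification b.basis e) {T : E ≃ₗᵢ[ℝ] E}
    (hT : IsPosIso b e T) : ∃ s, ∀ i, Rel b e T i (sw s i) ∧ Rel b e T.symm i (sw s i) := by
  rcases first hrefl hn hJ hT with ⟨h1, h2⟩ | ⟨h1, h2, h3, h4⟩
  · refine ⟨false, fun i => ?_⟩
    have key : ∀ m, ∀ i, i ≤ m → Rel b e T i (sw false i) ∧ Rel b e T.symm i (sw false i) := by
      intro m
      induction m with
      | zero =>
        intro i hi
        obtain rfl : i = 0 := by omega
        exact ⟨h1, h2⟩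
      | succ m ih =>
        intro i hi
        rcases Nat.lt_or_eq_of_le hi with h | h
        · exact ih i (by omega)
        · subst h
          exact KM' hrefl hn hJ hT (s := false) (by simp) ih
    exact key i i le_rfl
  · refine ⟨true, fun i => ?_⟩
    have key : ∀ m, 1 ≤ m → ∀ i, i ≤ m →
        Rel b e T i (sw true i) ∧ Rel b e T.symm i (sw true i) := by
      intro m hm
      induction m, hm using Nat.le_induction with
      | base =>
        intro i hi
        rcases (show i = 0 ∨ i = 1 by omega) with rfl | rfl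
        · exact ⟨h1, h3⟩
        · exact ⟨h2, h4⟩
      | succ m hm ih =>
        intro i hi
        rcases Nat.lt_or_eq_of_le hi with h | h
        · exact ih i (by omega)
        · subst h
          have h5 := KM' hrefl hn hJ hT (s := true) (fun _ => hm) ih
          have h6 : sw true (m + 1) = m + 1 := by
            unfold sw
            rw [if_pos rfl, if_neg (by omega), if_neg (by omega)]
          rw [h6]; exact h5
    exact key (i + 1) (by omega) i (by omega)

/-- positive isometries -/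
theorem classify_pos [StrictConvexSpace ℝ X]
    (hrefl : Function.Surjective (NormedSpace.inclusionInDoubleDual ℝ X))
    (hn : ∀ i, ‖b i‖ = 1) (hJ : IsJamesification b.basis e) {T : E ≃ₗᵢ[ℝ] E}
    (hT : IsPosIso b e T) :
    (∀ z, T z = z) ∨
      (‖b 0 - b 1‖ ≤ 1 ∧ T (e 0) = e 1 - e 0 ∧ ∀ k, 1 ≤ k → T (e k) = e k) := by
  obtain ⟨s, hs⟩ := all_rel hrefl hn hJ hT
  cases s with
  | false => left; exact fun z => eq_of_u hJ fun n => (hs n).1 z
  | true =>
    right
    refine ⟨?_, ?_, ?_⟩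
    · have h3 := chain2i hJ (Nat.zero_le 1) (le_refl 1) (T (e 0))
      have e0 : u b e 0 (T (e 0)) = 0 := by
        rw [(hs 0).1]; exact u_zero hJ Nat.zero_lt_one
      have e1 : u b e 1 (T (e 0)) = 1 := by
        rw [(hs 1).1]; exact u_one hJ le_rfl
      rw [e0, e1] at h3
      refine le_trans (le_of_eq ?_) (h3.trans (norm_T_e hn hJ T 0))
      rw [← norm_neg]
      congr 1
      module
    · refine eq_of_u hJ fun n => ?_
      rw [(hs n).1, map_sub, u_basis hJ, u_basis hJ, u_basis hJ]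
      rcases (show n = 0 ∨ n = 1 ∨ 2 ≤ n by omega) with rfl | rfl | h
      · simp [sw]
      · simp [sw]
      · have h6 : sw true n = n := by
          unfold sw
          rw [if_pos rfl, if_neg (by omega), if_neg (by omega)]
        rw [h6, if_neg (show ¬ n ≤ 0 by omega), if_neg (show ¬ n ≤ 1 by omega), sub_zero]
    · intro k hk
      refine eq_of_u hJ fun n => ?_
      rw [(hs n).1, u_basis hJ, u_basis hJ]
      simp only [sw_iff (s := true) (i := n) (k := k) (by simpa [sw] using hk)]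

/-- **classification for strictly convex spaces** -/
theorem classify [StrictConvexSpace ℝ X]
    (hrefl : Function.Surjective (NormedSpace.inclusionInDoubleDual ℝ X))
    (hn : ∀ i, ‖b i‖ = 1) (hJ : IsJamesification b.basis e) (T : E ≃ₗᵢ[ℝ] E) :
    (∀ z, T z = z) ∨ (∀ z, T z = -z) ∨ (‖b 0 - b 1‖ ≤ 1 ∧ ∃ s : ℝ, (s = 1 ∨ s = -1) ∧
      T (e 0) = s • (e 1 - e 0) ∧ ∀ k, 1 ≤ k → T (e k) = s • e k) := by
  rcases pos_or_neg hrefl hn hJ (noTwo hn) T with h | h
  · rcases classify_pos hrefl hn hJ h with h1 | ⟨h1, h2, h3⟩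
    · left; exact h1
    · right; right
      exact ⟨h1, 1, Or.inl rfl, by rw [h2, one_smul], fun k hk => by rw [h3 k hk, one_smul]⟩
  · have hneg : ∀ z, (T.trans (LinearIsometryEquiv.neg ℝ)) z = - T z := fun _ => rfl
    rcases classify_pos hrefl hn hJ h with h1 | ⟨h1, h2, h3⟩
    · right; left
      intro z
      have := h1 z
      rw [hneg] at this
      exact neg_eq_iff_eq_neg.1 this
    · right; right
      refine ⟨h1, -1, Or.inr rfl, ?_, fun k hk => ?_⟩
      · rw [hneg] at h2
        rw [neg_one_smul]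
        exact neg_eq_iff_eq_neg.1 h2
      · have := h3 k hk
        rw [hneg] at this
        rw [neg_one_smul]
        exact neg_eq_iff_eq_neg.1 this

end Pool.Agent.Work.MP_8db9c5_an.H71

end
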