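import Pool.Agent.Work.MP_8db9c5_an.PG.Stmts

/-! Bundle of small proof modules (one section per former module). -/

section

open Topology Filter Set

namespace Pool.Agent.Work.MP_8db9c5_an.PG

namespace CMB

theorem id_of_strictMono {σ : ℕ → ℕ} (h1 : StrictMono σ) (h2 : Function.Surjective σ) (k : ℕ) :
    σ k = k := by
  induction k using Nat.strong_induction_on with
  | _ k ih =>
    obtain ⟨j, hj⟩ := h2 k
    have h3 : j ≤ σ j := h1.id_le j
    rw [hj] at h3
    rcases h3.eq_or_lt with h | h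
    · rw [← h]; rw [← h] at hj; exact hj
    · have := ih j h
      omega

end CMB

theorem pr_CMB : CMB := by
  intro n ν μ π hν hμ hmono hν1 hν0 hνm hμ0 hμ1 hμ2
  have hmono' : StrictMono (Bk n) := Bk_strictMono n
  -- the positions with `1 < ν`
  have hA : ∀ m, 1 < ν m → ∃ k, m = Bk n (k + 1) := by
    intro m hm
    by_cases h1 : m = Bk n (blk n m)
    · rcases Nat.eq_zero_or_pos (blk n m) with h2 | h2
      · rw [h2, Bk_zero] at h1
        rw [h1] at hm
        exact absurd hm (not_lt.2 hν0)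
      · exact ⟨blk n m - 1, by rw [Nat.sub_add_cancel h2]; exact h1⟩
    · exact absurd hm (not_lt.2 (hνm m h1))
  have hνs : ∀ m, ν (π.symm m) = ν m := fun m => by
    have := hν (π.symm m)
    rw [Equiv.apply_symm_apply] at this
    exact this.symm
  have hB : ∀ k, ∃ k', π.symm (Bk n (k + 1)) = Bk n (k' + 1) := fun k =>
    hA _ (by rw [hνs]; exact hν1 k)
  choose σ hσ using hB
  have hσm : StrictMono σ := by
    intro k k' hkk
    have h1 : π.symm (Bk n (k + 1)) < π.symm (Bk n (k' + 1)) :=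
      hmono (by omega : k + 1 < k' + 1)
    rw [hσ, hσ] at h1
    have := hmono'.lt_iff_lt.1 h1
    omega
  have hσs : Function.Surjective σ := by
    intro k'
    obtain ⟨k, hk⟩ := hA (π (Bk n (k' + 1))) (by rw [hν]; exact hν1 k')
    refine ⟨k, ?_⟩
    have h1 : π.symm (Bk n (k + 1)) = Bk n (k' + 1) := by
      rw [← hk, Equiv.symm_apply_apply]
    rw [hσ] at h1
    have := hmono'.injective h1
    omega
  have hfix1 : ∀ k, π (Bk n (k + 1)) = Bk n (k + 1) := by
    intro k
    have h1 := hσ k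
    rw [CMB.id_of_strictMono hσm hσs k] at h1
    have h2 := congrArg π h1
    rw [Equiv.apply_symm_apply] at h2
    exact h2.symm
  have hfix0 : π 0 = 0 := by
    by_cases h1 : π 0 = Bk n (blk n (π 0))
    · rcases Nat.eq_zero_or_pos (blk n (π 0)) with h2 | h2
      · rw [h2, Bk_zero] at h1
        exact h1
      · exfalso
        obtain ⟨j, hj⟩ : ∃ j, blk n (π 0) = j + 1 := ⟨blk n (π 0) - 1, by omega⟩
        rw [hj, ← hfix1 j] at h1
        have h3 := π.injective h1
        have h4 := le_Bk n (j + 1)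
        omega
    · exfalso
      have h2 := hμ0 (blk n (π 0))
      rw [← hμ, hfix1] at h2
      exact absurd h2 (not_lt.2 (hμ2 (π 0) h1 _ (Nat.lt_succ_self _)))
  have hfix : ∀ k, π (Bk n k) = Bk n k := by
    intro k
    rcases Nat.eq_zero_or_pos k with h | h
    · rw [h, Bk_zero]; exact hfix0
    · obtain ⟨j, rfl⟩ : ∃ j, k = j + 1 := ⟨k - 1, by omega⟩
      exact hfix1 j
  refine ⟨hfix, fun m => ?_⟩
  by_cases h1 : m = Bk n (blk n m)
  · have h2 : π m = m := by
      rw [h1]; exact hfix _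
    rw [h2]
  · have h2 : π m ≠ Bk n (blk n (π m)) := by
      intro h3
      rw [← hfix (blk n (π m))] at h3
      have h4 := π.injective h3
      apply h1
      have h5 : blk n m = blk n (π m) := by
        conv_lhs => rw [h4]
        rw [blk_Bk]
      rw [h5]; exact h4
    have h3 : ∀ k, k + 1 ≤ blk n m ↔ k + 1 ≤ blk n (π m) := by
      intro k
      have e : μ (π m) (Bk n (k + 1)) = μ m (Bk n (k + 1)) := by
        have := hμ m (Bk n (k + 1))
        rwa [hfix1] at this
      constructor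
      · intro h
        have h4 := hμ1 m h1 k h
        rw [← e] at h4
        by_contra h5
        exact absurd h4 (not_lt.2 (hμ2 (π m) h2 (k + 1) (by omega)))
      · intro h
        have h4 := hμ1 (π m) h2 k h
        rw [e] at h4
        by_contra h5
        exact absurd h4 (not_lt.2 (hμ2 m h1 (k + 1) (by omega)))
    apply le_antisymm
    · rcases Nat.eq_zero_or_pos (blk n (π m)) with h | h
      · rw [h]; exact Nat.zero_le _
      · have := (h3 (blk n (π m) - 1)).2 (by omega)
        omega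
    · rcases Nat.eq_zero_or_pos (blk n m) with h | h
      · rw [h]; exact Nat.zero_le _
      · have := (h3 (blk n m - 1)).1 (by omega)
        omega

end Pool.Agent.Work.MP_8db9c5_an.PG

end

section

/-!
# Block permutations give isometries
-/

set_option linter.unusedSectionVars false

open Topology Filter Set

universe u v

namespace Pool.Agent.Work.MP_8db9c5_an.PG

namespace EPI

theorem blockPerm_symm {n : ℕ → ℕ} {π : Equiv.Perm ℕ} (h : BlockPerm n π) :
    BlockPerm n π.symm := by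
  refine ⟨fun k => ?_, fun m => ?_⟩
  · rw [Equiv.symm_apply_eq, h.1 k]
  · have := h.2 (π.symm m)
    rw [Equiv.apply_symm_apply] at this
    exact this.symm

theorem exists_clm_perm (hNPL : NPL.{u, v}) {X : Type u} [NormedAddCommGroup X]
    [NormedSpace ℝ X] [CompleteSpace X] {b : UnconditionalSchauderBasis ℕ ℝ X} {n : ℕ → ℕ}
    (hB : BlockNorm b n) {E : Type v} [NormedAddCommGroup E] [NormedSpace ℝ E]
    [CompleteSpace E] {e : ℕ → E} (hJ : IsJamesification b.basis e) (π : Equiv.Perm ℕ)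
    (hπ : BlockPerm n π) :
    ∃ Φ : E →L[ℝ] E, ∀ m z, t b e m (Φ z) = t b e (π.symm m) z := by
  set y : ℕ → E := fun j => - ∑ m ∈ Finset.range (j + 1), dl e (π m) with hy
  have ht : ∀ m j, t b e m (y j) = t b e (π.symm m) (e j) := by
    intro m j
    rw [hy]
    simp only
    rw [map_neg, map_sum, t_basis hJ]
    by_cases h : j < π.symm m
    · rw [if_pos h, Finset.sum_eq_zero, neg_zero]
      intro m' hm'
      have := Finset.mem_range.1 hm'
      rw [t_dl hJ, if_neg]
      intro h2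
      rw [h2, Equiv.symm_apply_apply] at h
      omega
    · rw [if_neg h, Finset.sum_eq_single_of_mem (π.symm m) (Finset.mem_range.2 (by omega)),
        t_dl hJ, Equiv.apply_symm_apply, if_pos rfl]
      intro m' _ hm'
      rw [t_dl hJ, if_neg]
      intro h2
      exact hm' (by rw [h2, Equiv.symm_apply_apply])
  obtain ⟨Φ, h1, _⟩ := exists_clm hJ.dense y 1 fun a => by
    rw [one_mul]
    refine hNPL X b n hB E e hJ π.symm (blockPerm_symm hπ) _ _ fun m => ?_
    rw [Finsupp.sum, Finsupp.sum, map_sum, map_sum]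
    exact Finset.sum_congr rfl fun j _ => by rw [map_smul, map_smul, ht]
  refine ⟨Φ, fun m => ?_⟩
  have h2 : (t b e m).comp Φ = t b e (π.symm m) := clm_ext hJ.dense fun j => by
    rw [ContinuousLinearMap.comp_apply, h1, ht]
  exact fun z => congrArg (fun f => f z) h2

end EPI

open EPI in
theorem pr_EPI (h : NPL.{u, v}) : EPI.{u, v} := by
  intro X _ _ _ b n hB E _ _ _ e hJ π hπ
  have hπ' := blockPerm_symm hπ
  obtain ⟨Φ, hΦ⟩ := exists_clm_perm h hB hJ π hπ
  obtain ⟨Ψ, hΨ⟩ := exists_clm_perm h hB hJ π.symm hπ'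
  simp only [Equiv.symm_symm] at hΨ
  have h1 : ∀ z, Φ (Ψ z) = z := fun z => eq_of_t hJ fun m => by
    rw [hΦ, hΨ, Equiv.apply_symm_apply]
  have h2 : ∀ z, Ψ (Φ z) = z := fun z => eq_of_t hJ fun m => by
    rw [hΨ, hΦ, Equiv.symm_apply_apply]
  have h3 : ∀ z, ‖Φ z‖ = ‖z‖ := fun z => by
    refine le_antisymm (h X b n hB E e hJ π.symm hπ' _ _ fun m => hΦ m z) ?_
    refine h X b n hB E e hJ π hπ _ _ fun m => ?_
    rw [hΦ, Equiv.symm_apply_apply]
  refine ⟨⟨LinearEquiv.ofLinearMap (Φ : E →ₗ[ℝ] E) (Ψ : E →ₗ[ℝ] E) (LinearMap.ext h1)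
    (LinearMap.ext h2), h3⟩, fun m => ?_⟩
  change Φ (dl e m) = dl e (π m)
  refine eq_of_t hJ fun k => ?_
  rw [hΦ, t_dl hJ, t_dl hJ]
  by_cases h5 : k = π m
  · rw [if_pos h5, if_pos (by rw [h5, Equiv.symm_apply_apply])]
  · rw [if_neg h5, if_neg]
    intro h4
    exact h5 (by rw [← h4, Equiv.apply_symm_apply])

end Pool.Agent.Work.MP_8db9c5_an.PG

end

section

/-!
# The structure of the isometries (item EXA)
-/

set_option linter.unusedSectionVars false

open Topology Filter Set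

universe u v

namespace Pool.Agent.Work.MP_8db9c5_an.PG

theorem pr_EXA (h1 : NSM.{u}) (h2 : TLO.{u, v}) (h3 : TUP.{u, v}) (h4 : ORD.{u, v})
    (h5 : CMB) : EXA.{u, v} := by
  intro X _ _ _ b n hrefl hB E _ _ _ e hJ T
  obtain ⟨hn, hS⟩ := h1 X b n hB
  obtain ⟨s, π, hs, hT⟩ := smooth_structure (b := b) hrefl hn hJ hS T
  have hs1 : |s| = 1 := by
    rcases hs with h | h <;> rw [h] <;> norm_num
  have hν : ∀ m, ‖dl e (π m)‖ = ‖dl e m‖ := by
    intro m
    have h := T.norm_map (dl e m)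
    rw [hT, norm_smul, Real.norm_eq_abs, hs1, one_mul] at h
    exact h
  have hμ : ∀ m m', ‖dl e (π m) - dl e (π m')‖ = ‖dl e m - dl e m'‖ := by
    intro m m'
    have h := T.norm_map (dl e m - dl e m')
    rw [map_sub, hT, hT, ← smul_sub, norm_smul, Real.norm_eq_abs, hs1, one_mul] at h
    exact h
  obtain ⟨l1, l2, l3⟩ := h2 X b n hB E e hJ
  obtain ⟨u1, u2, u3⟩ := h3 X b n hB E e hJ
  exact ⟨s, π, hs, h5 n (fun m => ‖dl e m‖) (fun m m' => ‖dl e m - dl e m'‖) π hν hμ
    (h4 X b n hB E e hJ T s π hs hT) l1 u1 u2 l2 l3 u3, hT⟩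

end Pool.Agent.Work.MP_8db9c5_an.PG

end

section

/-!
# Item GBC: a criterion for unconditional bases
-/

set_option autoImplicit false

open Topology Filter Set

namespace Pool.Agent.Work.MP_8db9c5_an.PG

namespace GBC

variable {X : Type} [NormedAddCommGroup X] [NormedSpace ℝ X] {w : ℕ → X}
  {c : ℕ → StrongDual ℝ X}

/-- the expansion of the vectors of the span -/
theorem expand (hc : ∀ i j, c i (w j) = if i = j then 1 else 0) {v : X}
    (hv : v ∈ Submodule.span ℝ (Set.range w)) :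
    ∃ N : ℕ, ∀ M : ℕ, N ≤ M → ∑ m ∈ Finset.range M, c m v • w m = v := by
  induction hv using Submodule.span_induction with
  | mem x hx =>
    obtain ⟨j, rfl⟩ := hx
    refine ⟨j + 1, fun M hM => ?_⟩
    rw [Finset.sum_eq_single j]
    · rw [hc, if_pos rfl, one_smul]
    · intro i _ hij
      rw [hc, if_neg hij, zero_smul]
    · intro h
      exact absurd (Finset.mem_range.2 (by omega)) h
  | zero => exact ⟨0, fun M _ => by simp⟩
  | add x y _ _ hx hy =>
    obtain ⟨N1, h1⟩ := hx
    obtain ⟨N2, h2⟩ := hy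
    refine ⟨max N1 N2, fun M hM => ?_⟩
    simp only [map_add, add_smul, Finset.sum_add_distrib]
    rw [h1 M (le_trans (le_max_left _ _) hM), h2 M (le_trans (le_max_right _ _) hM)]
  | smul a x _ hx =>
    obtain ⟨N1, h1⟩ := hx
    refine ⟨N1, fun M hM => ?_⟩
    have h3 : ∀ m, c m (a • x) • w m = a • (c m x • w m) := by
      intro m
      rw [map_smul, smul_assoc]
    simp only [h3]
    rw [← Finset.smul_sum, h1 M hM]

/-- partial sums over finite sets, for the vectors of the span -/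
theorem bound_span (hc : ∀ i j, c i (w j) = if i = j then 1 else 0)
    (hm : ∀ (a : ℕ → ℝ) (N : ℕ) (F : Finset ℕ),
      ‖∑ m ∈ Finset.range N, (if m ∈ F then a m else 0) • w m‖ ≤
        ‖∑ m ∈ Finset.range N, a m • w m‖) (F : Finset ℕ) {v : X}
    (hv : v ∈ Submodule.span ℝ (Set.range w)) : ‖∑ m ∈ F, c m v • w m‖ ≤ ‖v‖ := by
  obtain ⟨N, hN⟩ := expand hc hv
  have hF : F ⊆ Finset.range (max N (F.sup id + 1)) := by
    intro i hi
    have h1 : i ≤ F.sup id := Finset.le_sup (f := id) hi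
    exact Finset.mem_range.2 (lt_of_lt_of_le (Nat.lt_succ_of_le h1) (le_max_right _ _))
  have h2 := hm (fun m => c m v) (max N (F.sup id + 1)) F
  rw [hN _ (le_max_left _ _)] at h2
  have h3 : ∑ m ∈ Finset.range (max N (F.sup id + 1)), (if m ∈ F then c m v else 0) • w m =
      ∑ m ∈ F, c m v • w m := by
    rw [← Finset.sum_subset hF]
    · exact Finset.sum_congr rfl fun m hm => by rw [if_pos hm]
    · intro m _ hm
      rw [if_neg hm, zero_smul]
  rw [h3] at h2
  exact h2

/-- partial sums over finite sets, for all vectors -/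
theorem bound_all (hc : ∀ i j, c i (w j) = if i = j then 1 else 0)
    (hd : Dense (Submodule.span ℝ (Set.range w) : Set X))
    (hm : ∀ (a : ℕ → ℝ) (N : ℕ) (F : Finset ℕ),
      ‖∑ m ∈ Finset.range N, (if m ∈ F then a m else 0) • w m‖ ≤
        ‖∑ m ∈ Finset.range N, a m • w m‖) (F : Finset ℕ) (x : X) :
    ‖∑ m ∈ F, c m x • w m‖ ≤ ‖x‖ := by
  have hcl : IsClosed {x : X | ‖∑ m ∈ F, c m x • w m‖ ≤ ‖x‖} := by
    refine isClosed_le ?_ continuous_norm
    refine (continuous_finsetSum F fun m _ => ?_).norm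
    exact (c m).continuous.smul continuous_const
  have h1 : closure (Submodule.span ℝ (Set.range w) : Set X) ⊆
      {x : X | ‖∑ m ∈ F, c m x • w m‖ ≤ ‖x‖} :=
    hcl.closure_subset_iff.2 fun v hv => bound_span hc hm F hv
  rw [hd.closure_eq] at h1
  exact h1 (Set.mem_univ x)

end GBC

theorem pr_GBC : GBC := by
  intro X _ _ w c hc hd hm x
  have hb := fun F y => GBC.bound_all hc hd hm F y
  unfold HasSum
  rw [SummationFilter.unconditional_filter, Metric.tendsto_atTop]
  intro ε hε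
  obtain ⟨v, hv, hxv⟩ := Metric.dense_iff.1 hd x (ε / 2) (by positivity)
  rw [Metric.mem_ball, dist_comm, dist_eq_norm] at hv
  obtain ⟨N, hN⟩ := GBC.expand hc hxv
  refine ⟨Finset.range N, fun F hF => ?_⟩
  have hz : ∀ m, N ≤ m → c m v • w m = 0 := by
    intro m hm
    have h1 := hN m hm
    have h2 := hN (m + 1) (by omega)
    rw [Finset.sum_range_succ, h1] at h2
    simpa using h2
  have hFv : ∑ m ∈ F, c m v • w m = v := by
    rw [← Finset.sum_subset (show Finset.range N ⊆ F from hF)]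
    · exact hN N le_rfl
    · intro m _ hm
      exact hz m (by simpa using hm)
  have h3 : ∑ m ∈ F, c m x • w m - x = ∑ m ∈ F, c m (x - v) • w m - (x - v) := by
    simp only [map_sub, sub_smul, Finset.sum_sub_distrib]
    rw [hFv]
    abel
  rw [dist_eq_norm, h3]
  have h4 := norm_sub_le (∑ m ∈ F, c m (x - v) • w m) (x - v)
  have h5 := hb F (x - v)
  linarith

end Pool.Agent.Work.MP_8db9c5_an.PG

end

section

/-!
# Products of symmetric groups: the isometry group
-/

set_option linter.unusedSectionVars false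
set_option autoImplicit false

open Topology Filter Set

universe u v

namespace Pool.Agent.Work.MP_8db9c5_an.PG

theorem pr_GRP (h1 : EPI.{u, v}) (h2 : EXA.{u, v}) (h3 : PPG) : GRP.{u, v} := by
  intro X _ _ _ b n hX hB E _ _ _ e hJ
  obtain ⟨P, hP1, hP2, hP3, hP4⟩ := h3 n
  have hex : ∀ x : ℤˣ × (∀ k, Equiv.Perm (Fin (n k))), ∃ T : E ≃ₗᵢ[ℝ] E,
      ∀ m, T (dl e m) = ((x.1 : ℤ) : ℝ) • dl e (P x.2 m) := by
    rintro ⟨s, π⟩
    obtain ⟨T, hT⟩ := h1 X b n hB E e hJ (P π) (hP1 π)
    rcases Int.units_eq_one_or s with h | h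
    · subst h
      exact ⟨T, fun m => by rw [hT]; simp⟩
    · subst h
      exact ⟨T.trans (LinearIsometryEquiv.neg ℝ), fun m => by
        change - T (dl e m) = _
        rw [hT]; simp⟩
  choose F hF using hex
  have hmul : ∀ x y, F (x * y) = F x * F y := by
    intro x y
    refine iso_ext hJ fun m => ?_
    change F (x * y) (dl e m) = F x (F y (dl e m))
    rw [hF, hF, map_smul, hF, smul_smul]
    have h4 : P (x * y).2 m = P x.2 (P y.2 m) := by
      rw [Prod.snd_mul, map_mul]
      rfl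
    rw [h4]
    congr 1
    simp [mul_comm]
  have hinj : Function.Injective F := by
    rintro ⟨s, π⟩ ⟨s', π'⟩ h
    have hs : ((s : ℤ) : ℝ) ≠ 0 := by
      rcases Int.units_eq_one_or s with h | h <;> simp [h]
    have h4 : ∀ m, ((s : ℤ) : ℝ) • dl e (P π m) = ((s' : ℤ) : ℝ) • dl e (P π' m) := by
      intro m
      rw [← hF (s, π), ← hF (s', π'), h]
    have h5 := fun m => dl_ne hJ hs (h4 m)
    have h6 : s = s' := by
      have := (h5 0).2
      exact Units.ext (by exact_mod_cast this)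
    have h7 : π = π' := hP3 (Equiv.ext fun m => (h5 m).1)
    rw [h6, h7]
  have hsurj : Function.Surjective F := by
    intro T
    obtain ⟨s, ρ, hs, hρ, hT⟩ := h2 X b n hX hB E e hJ T
    obtain ⟨π, hπ⟩ := hP4 ρ hρ
    rcases hs with hs | hs
    · refine ⟨(1, π), iso_ext hJ fun m => ?_⟩
      rw [hF, hT, hπ, hs]
      simp
    · refine ⟨(-1, π), iso_ext hJ fun m => ?_⟩
      rw [hF, hT, hπ, hs]
      simp
  refine ⟨MulEquiv.ofBijective (MonoidHom.mk' F hmul) ⟨hinj, hsurj⟩, fun s π k => ⟨?_, ?_⟩⟩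
  · change F (s, π) (dl e (Bk n k)) = _
    rw [hF, (hP1 π).1 k]
  · intro i
    change F (s, π) (dl e _) = _
    rw [hF, hP2]

end Pool.Agent.Work.MP_8db9c5_an.PG

end

section

/-!
# The variation along intervals which start at the first positions of blocks
-/

set_option linter.unusedSectionVars false

open Topology Filter Set

open scoped ENNReal

universe u v

namespace Pool.Agent.Work.MP_8db9c5_an.PG

namespace LA

open Classical in
/-- the code of a block chain -/
noncomputable def rc (n : ℕ → ℕ) (K : Finset ℕ) (q : ℕ → ℕ) : ℕ → Option ℕ := fun j =>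
  if h : ∃ k ∈ K, Bk n k ≤ j ∧ j < q k then some (Bk n h.choose) else none

theorem rc_eq_some {n : ℕ → ℕ} {K : Finset ℕ} {q : ℕ → ℕ} (hK : BChain n K q) {j p : ℕ} :
    rc n K q j = some p ↔ ∃ k ∈ K, Bk n k = p ∧ Bk n k ≤ j ∧ j < q k := by
  have huniq : ∀ k ∈ K, ∀ k' ∈ K, Bk n k ≤ j → j < q k → Bk n k' ≤ j → j < q k' → k = k' := by
    intro k hk k' hk' h1 h2 h3 h4
    rcases lt_trichotomy k k' with h | h | h
    · have := hK.2 k hk k' hk' h; omega
    · exact h
    · have := hK.2 k' hk' k hk h; omega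
  unfold rc
  constructor
  · intro h
    split_ifs at h with h1
    have h2 := h1.choose_spec
    simp only [Option.some.injEq] at h
    exact ⟨h1.choose, h2.1, h, h2.2.1, h2.2.2⟩
  · rintro ⟨k, hk, rfl, h1, h2⟩
    have h3 : ∃ k ∈ K, Bk n k ≤ j ∧ j < q k := ⟨k, hk, h1, h2⟩
    rw [dif_pos h3]
    have h4 := h3.choose_spec
    rw [huniq _ h4.1 k hk h4.2.1 h4.2.2 h1 h2]

theorem isCode_rc {n : ℕ → ℕ} {K : Finset ℕ} {q : ℕ → ℕ} (hK : BChain n K q) :
    IsCode (rc n K q) := by
  intro j p hj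
  obtain ⟨k, hk, rfl, h1, h2⟩ := (rc_eq_some hK).1 hj
  exact ⟨h1, fun i hi1 hi2 => (rc_eq_some hK).2 ⟨k, hk, rfl, hi1, by omega⟩⟩

end LA

open LA in
theorem pr_LA (h : NLO.{u}) : LA.{u, v} := by
  intro X _ _ _ b n hb E _ _ _ e hJ z K q hK
  set r := rc n K q with hr
  have hrc : IsCode r := isCode_rc hK
  set N := 1 + K.sup (fun k => max (q k) (Bk n k)) with hN
  have hle : ∀ k ∈ K, q k < N ∧ Bk n k < N := by
    intro k hk
    have h1 := Finset.le_sup (f := fun k => max (q k) (Bk n k)) hk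
    have h2 := le_max_left (q k) (Bk n k)
    have h3 := le_max_right (q k) (Bk n k)
    constructor <;> omega
  have hnone : ∀ j, N ≤ j → r j = none := by
    intro j hj
    by_contra hcon
    obtain ⟨p, hp⟩ := Option.ne_none_iff_exists'.1 hcon
    obtain ⟨k, hk, rfl, h1, h2⟩ := (rc_eq_some hK).1 hp
    have := (hle k hk).1
    omega
  have hcoord : ∀ k ∈ K, b.coord (Bk n k) (V b.basis e r z) =
      t b e (q k) z - t b e (Bk n k) z := by
    intro k hk
    have hiff : ∀ j, (r j = some (Bk n k) ↔ Bk n k ≤ j ∧ j < q k) := by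
      intro j
      rw [hr, rc_eq_some hK]
      constructor
      · rintro ⟨k', hk', h1, h2, h3⟩
        have := (Bk_strictMono n).injective h1
        subst this
        exact ⟨h2, h3⟩
      · rintro ⟨h1, h2⟩
        exact ⟨k, hk, rfl, h1, h2⟩
    rcases (hK.1 k hk).eq_or_lt with h1 | h1
    · rw [coord_V_none hJ hrc (fun j hj => by have := (hiff j).1 hj; omega), ← h1, sub_self]
    · rw [coord_V_fin hJ hrc h1 hiff, t_apply, t_apply]
      ring
  have h1 := (h X b n hb (fun p => b.coord p (V b.basis e r z)) N).2 K fun k hk => (hle k hk).2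
  rw [← V_eq_sum hJ hrc hnone z] at h1
  calc ∑ k ∈ K, (t b e (q k) z - t b e (Bk n k) z) ^ 2
      = ∑ k ∈ K, (b.coord (Bk n k) (V b.basis e r z)) ^ 2 :=
        Finset.sum_congr rfl fun k hk => by rw [hcoord k hk]
    _ ≤ ‖V b.basis e r z‖ ^ 2 := h1
    _ ≤ ‖z‖ ^ 2 := by
        have := norm_V_le hJ hrc z
        gcongr

end Pool.Agent.Work.MP_8db9c5_an.PG

end

section

/-!
# LC: intervals which start at the other positions are dominated
-/

set_option linter.unusedSectionVars false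

open Topology Filter Set

namespace Pool.Agent.Work.MP_8db9c5_an.PG

namespace LC

/-- the rank of `k` -/
def rk (K : Finset ℕ) (k : ℕ) : ℕ := (K.filter (· < k)).card

theorem exists_between {K : Finset ℕ} {k k' : ℕ} (hk : k ∈ K) (h : k < k')
    (hp : Even (rk K k) ↔ Even (rk K k')) : ∃ j ∈ K, k < j ∧ j < k' := by
  by_contra hcon
  push Not at hcon
  have h1 : K.filter (· < k') = insert k (K.filter (· < k)) := by
    ext j
    simp only [Finset.mem_filter, Finset.mem_insert]
    constructor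
    · rintro ⟨hj, hj'⟩
      rcases lt_trichotomy j k with h2 | h2 | h2
      · exact Or.inr ⟨hj, h2⟩
      · exact Or.inl h2
      · exact absurd hj' (not_lt.2 (hcon j hj h2))
    · rintro (rfl | ⟨hj, hj'⟩)
      · exact ⟨hk, h⟩
      · exact ⟨hj, hj'.trans h⟩
  have h2 : rk K k' = rk K k + 1 := by
    unfold rk
    rw [h1, Finset.card_insert_of_notMem (by simp)]
  rw [h2, Nat.even_add_one] at hp
  tauto

theorem half (n : ℕ → ℕ) (τ : ℕ → ℝ) (C : ℝ) (hB : BBound n τ C) (K : Finset ℕ) (p q : ℕ → ℕ)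
    (h1 : ∀ k ∈ K, Bk n k ≤ p k ∧ p k < Bk n (k + 1) ∧ p k ≤ q k)
    (h2 : ∀ k ∈ K, ∀ k' ∈ K, k < k' → q k ≤ Bk n k') :
    ∑ k ∈ K, (τ (q k) - τ (p k)) ^ 2 ≤ 4 * C ^ 2 := by
  classical
  set q' : ℕ → ℕ := fun k => if |τ (q k) - τ (Bk n k)| ≤ |τ (p k) - τ (Bk n k)| then p k else q k
    with hq'
  have hch : BChain n K q' := by
    constructor
    · intro k hk
      obtain ⟨h3, _, h5⟩ := h1 k hk
      simp only [hq']
      split_ifs
      · exact h3
      · exact h3.trans h5
    · intro k hk k' hk' hkk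
      have h3 := h2 k hk k' hk' hkk
      simp only [hq']
      split_ifs
      · exact (h1 k hk).2.2.trans h3
      · exact h3
  have h3 := hB K q' hch
  have h4 : ∀ k, (τ (q k) - τ (p k)) ^ 2 ≤ 4 * (τ (q' k) - τ (Bk n k)) ^ 2 := by
    intro k
    have h5 : |τ (q k) - τ (p k)| ≤ 2 * |τ (q' k) - τ (Bk n k)| := by
      have h6 : |τ (q k) - τ (p k)| ≤ |τ (q k) - τ (Bk n k)| + |τ (p k) - τ (Bk n k)| := by
        have := abs_sub_le (τ (q k)) (τ (Bk n k)) (τ (p k))
        rw [abs_sub_comm (τ (Bk n k)) (τ (p k))] at this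
        exact this
      simp only [hq']
      split_ifs with h7
      · linarith
      · push Not at h7
        linarith
    have h6 : (τ (q k) - τ (p k)) ^ 2 = |τ (q k) - τ (p k)| ^ 2 := (sq_abs _).symm
    have h7 : 4 * (τ (q' k) - τ (Bk n k)) ^ 2 = (2 * |τ (q' k) - τ (Bk n k)|) ^ 2 := by
      rw [mul_pow, sq_abs]
      norm_num
    rw [h6, h7]
    exact pow_le_pow_left₀ (abs_nonneg _) h5 2
  calc ∑ k ∈ K, (τ (q k) - τ (p k)) ^ 2 ≤ ∑ k ∈ K, 4 * (τ (q' k) - τ (Bk n k)) ^ 2 :=
        Finset.sum_le_sum fun k _ => h4 k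
    _ = 4 * ∑ k ∈ K, (τ (q' k) - τ (Bk n k)) ^ 2 := by rw [Finset.mul_sum]
    _ ≤ 4 * C ^ 2 := by linarith

end LC

open LC in
theorem pr_LC : LC := by
  intro n τ C hB K p q h1 h2
  classical
  have key : ∀ k ∈ K, ∀ k' ∈ K, k < k' → (Even (rk K k) ↔ Even (rk K k')) → q k ≤ Bk n k' := by
    intro k hk k' hk' h hp
    obtain ⟨j, hj, h3, h4⟩ := exists_between hk h hp
    have h5 := h2 k hk j hj h3
    have h6 := (h1 j hj).2.1
    have h7 := (Bk_strictMono n).monotone (show j + 1 ≤ k' from h4)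
    omega
  rw [← Finset.sum_filter_add_sum_filter_not K (fun k => Even (rk K k))]
  have e1 := half n τ C hB (K.filter fun k => Even (rk K k)) p q
    (fun k hk => h1 k (Finset.mem_filter.1 hk).1) (fun k hk k' hk' h => by
      obtain ⟨a1, a2⟩ := Finset.mem_filter.1 hk
      obtain ⟨b1, b2⟩ := Finset.mem_filter.1 hk'
      exact key k a1 k' b1 h (iff_of_true a2 b2))
  have e2 := half n τ C hB (K.filter fun k => ¬ Even (rk K k)) p q
    (fun k hk => h1 k (Finset.mem_filter.1 hk).1) (fun k hk k' hk' h => by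
      obtain ⟨a1, a2⟩ := Finset.mem_filter.1 hk
      obtain ⟨b1, b2⟩ := Finset.mem_filter.1 hk'
      exact key k a1 k' b1 h (iff_of_false a2 b2))
  linarith

end Pool.Agent.Work.MP_8db9c5_an.PG

end

section

/-!
# Block permutations preserve the bound on the variation
-/

namespace Pool.Agent.Work.MP_8db9c5_an.PG

theorem pr_LI : LI := by
  intro n τ C ρ hρ h K q hq
  have hc : BChain n K (fun k => ρ (q k)) := by
    refine ⟨fun k hk => ?_, fun k hk k' hk' hkk' => ?_⟩
    · have h1 := (Bk_le_iff n).1 (hq.1 k hk)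
      exact (Bk_le_iff n).2 (by rw [hρ.2]; exact h1)
    · rcases (hq.2 k hk k' hk' hkk').eq_or_lt with h1 | h1
      · show ρ (q k) ≤ Bk n k'
        rw [h1, hρ.1]
      · have h2 := (lt_Bk_iff n).1 h1
        have h3 : blk n (ρ (q k)) < k' := by rw [hρ.2]; exact h2
        exact ((lt_Bk_iff n).2 h3).le
  have h1 := h K _ hc
  simpa only [hρ.1] using h1

end Pool.Agent.Work.MP_8db9c5_an.PG

end

section

/-!
# The coefficients of a functional on an `ℓ_2`-sum are square summable
-/

set_option autoImplicit false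

open Topology Filter Set

open scoped ENNReal

namespace Pool.Agent.Work.MP_8db9c5_an.PG

theorem LRA.norm_sq {G : ℕ → Type} [∀ k, NormedAddCommGroup (G k)] (w : ∀ k, G k) (F : Finset ℕ) :
    ‖∑ k ∈ F, (lp.single 2 k (w k) : lp G 2)‖ ^ 2 = ∑ k ∈ F, ‖w k‖ ^ 2 := by
  have h := lp.norm_sum_single (E := G) (p := 2) (by simp) w F
  simp only [ENNReal.toReal_ofNat, Real.rpow_ofNat] at h
  exact h

theorem pr_LRA : LRA := by
  intro G _ _ f
  let g : ∀ k, StrongDual ℝ (G k) := fun k => f.comp (lp.singleContinuousLinearMap ℝ G 2 k)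
  have hg : ∀ k v, g k v = f (lp.single 2 k v) := fun k v => rfl
  refine ⟨fun k => ‖g k‖, fun k => norm_nonneg _, fun k v => ?_, ?_⟩
  · rw [← hg, ← Real.norm_eq_abs]
    exact (g k).le_opNorm v
  · have h1 : ∀ k, ∃ v : G k, ‖v‖ ≤ 1 ∧ ‖g k‖ ≤ 2 * |f (lp.single 2 k v)| := by
      intro k
      rcases (norm_nonneg (g k)).eq_or_lt with h | h
      · refine ⟨0, by simp, ?_⟩
        rw [← h]
        positivity
      · obtain ⟨x, hx, hx2⟩ := (g k).exists_lt_apply_of_lt_opNorm (half_lt_self h)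
        refine ⟨x, hx.le, ?_⟩
        rw [hg, Real.norm_eq_abs] at hx2
        linarith
    choose v hv hv2 using h1
    refine summable_of_sum_le (c := 4 * ‖f‖ ^ 2) (fun k => sq_nonneg _) fun F => ?_
    set S : ℝ := ∑ k ∈ F, (f (lp.single 2 k (v k))) ^ 2 with hS
    let x : lp G 2 := ∑ k ∈ F, lp.single 2 k (f (lp.single 2 k (v k)) • v k)
    have hx : ‖x‖ ^ 2 ≤ S := by
      show ‖∑ k ∈ F, (lp.single 2 k (f (lp.single 2 k (v k)) • v k) : lp G 2)‖ ^ 2 ≤ S
      rw [LRA.norm_sq]
      refine Finset.sum_le_sum fun k _ => ?_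
      rw [norm_smul, Real.norm_eq_abs, mul_pow, sq_abs]
      have : ‖v k‖ ^ 2 ≤ 1 := pow_le_one₀ (norm_nonneg _) (hv k)
      exact mul_le_of_le_one_right (sq_nonneg _) this
    have hfx : f x = S := by
      show f (∑ k ∈ F, (lp.single 2 k (f (lp.single 2 k (v k)) • v k) : lp G 2)) = S
      rw [map_sum]
      refine Finset.sum_congr rfl fun k _ => ?_
      rw [← hg, map_smul, hg, smul_eq_mul, sq]
    have hS0 : 0 ≤ S := Finset.sum_nonneg fun k _ => sq_nonneg _
    have h2 : S ≤ ‖f‖ * ‖x‖ := by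
      have := f.le_opNorm x
      rw [hfx, Real.norm_eq_abs, abs_of_nonneg hS0] at this
      exact this
    have h3 : S ≤ ‖f‖ ^ 2 := by
      have h4 : S ≤ (‖f‖ ^ 2 + ‖x‖ ^ 2) / 2 := by
        have := sq_nonneg (‖f‖ - ‖x‖)
        nlinarith
      linarith
    have h5 : ∑ k ∈ F, ‖g k‖ ^ 2 ≤ 4 * S := by
      rw [hS, Finset.mul_sum]
      refine Finset.sum_le_sum fun k _ => ?_
      have h6 : ‖g k‖ ^ 2 ≤ (2 * |f (lp.single 2 k (v k))|) ^ 2 :=
        pow_le_pow_left₀ (norm_nonneg _) (hv2 k) 2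
      rw [mul_pow, sq_abs] at h6
      linarith
    exact h5.trans (by linarith)

end Pool.Agent.Work.MP_8db9c5_an.PG

end

section

/-!
# Functionals on an `ℓ_2`-sum are approximated by their restrictions to finitely many summands
-/

set_option linter.unusedSectionVars false

open Topology Filter Set

open scoped ENNReal

namespace Pool.Agent.Work.MP_8db9c5_an.PG

theorem pr_LRB (h1 : LRA) : LRB := by
  classical
  intro G _ _ f ε hε
  obtain ⟨c, hc0, hc, hs⟩ := h1 G f
  have hε2 : Iio (ε ^ 2) ∈ 𝓝 (0 : ℝ) := Iio_mem_nhds (by positivity)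
  obtain ⟨F, hF⟩ := hs.vanishing hε2
  refine ⟨F, fun x => ?_⟩
  have hsum : HasSum (fun k => lp.single 2 k (x k)) x := lp.hasSum_single (by norm_num) x
  have hsum2 : HasSum (fun k => f (lp.single 2 k (x k))) (f x) := hsum.mapL f
  have hlim : Tendsto (fun s : Finset ℕ => |∑ k ∈ s, f (lp.single 2 k (x k)) -
      ∑ k ∈ F, f (lp.single 2 k (x k))|) atTop
      (𝓝 |f x - ∑ k ∈ F, f (lp.single 2 k (x k))|) := by
    have h2 : Tendsto (fun s : Finset ℕ => ∑ k ∈ s, f (lp.single 2 k (x k))) atTop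
      (𝓝 (f x)) := hsum2
    exact (h2.sub tendsto_const_nhds).abs
  refine le_of_tendsto hlim ?_
  filter_upwards [eventually_ge_atTop F] with s hs'
  have h3 : ∑ k ∈ s, f (lp.single 2 k (x k)) - ∑ k ∈ F, f (lp.single 2 k (x k)) =
      ∑ k ∈ s \ F, f (lp.single 2 k (x k)) := by
    rw [← Finset.sum_sdiff hs']
    ring
  rw [h3]
  have h4 : ∑ k ∈ s \ F, c k ^ 2 ≤ ε ^ 2 := le_of_lt (hF _ Finset.sdiff_disjoint)
  have h5 : ∑ k ∈ s \ F, ‖x k‖ ^ 2 ≤ ‖x‖ ^ 2 := by
    have h6 := lp.sum_rpow_le_norm_rpow (p := 2) (by norm_num) x (s \ F)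
    have h7 : (2 : ℝ≥0∞).toReal = ((2 : ℕ) : ℝ) := by norm_num
    rw [h7] at h6
    simpa only [Real.rpow_natCast] using h6
  calc |∑ k ∈ s \ F, f (lp.single 2 k (x k))|
      ≤ ∑ k ∈ s \ F, |f (lp.single 2 k (x k))| := Finset.abs_sum_le_sum_abs _ _
    _ ≤ ∑ k ∈ s \ F, c k * ‖x k‖ := Finset.sum_le_sum fun k _ => hc k (x k)
    _ ≤ √(∑ k ∈ s \ F, c k ^ 2) * √(∑ k ∈ s \ F, ‖x k‖ ^ 2) :=
        Real.sum_mul_le_sqrt_mul_sqrt _ _ _
    _ ≤ √(ε ^ 2) * √(‖x‖ ^ 2) :=
        mul_le_mul (Real.sqrt_le_sqrt h4) (Real.sqrt_le_sqrt h5) (Real.sqrt_nonneg _)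
          (Real.sqrt_nonneg _)
    _ = ε * ‖x‖ := by rw [Real.sqrt_sq hε.le, Real.sqrt_sq (norm_nonneg x)]

end Pool.Agent.Work.MP_8db9c5_an.PG

end

section

/-!
# The coordinates of an element of the bidual of an `ℓ_2`-sum of finite-dimensional spaces
-/

set_option autoImplicit false

open Topology Filter Set

open scoped ENNReal

namespace Pool.Agent.Work.MP_8db9c5_an.PG

/-- a functional on the dual of a finite-dimensional space is an evaluation -/
theorem LRC.eval (V : Type) [NormedAddCommGroup V] [NormedSpace ℝ V] [FiniteDimensional ℝ V]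
    (ψ : StrongDual ℝ (StrongDual ℝ V)) : ∃ x : V, ∀ g : StrongDual ℝ V, ψ g = g x := by
  let A : Module.Dual ℝ V ≃ₗ[ℝ] StrongDual ℝ V := LinearMap.toContinuousLinearMap
  let ψ' : Module.Dual ℝ (Module.Dual ℝ V) := ψ.toLinearMap ∘ₗ A.toLinearMap
  refine ⟨(Module.evalEquiv ℝ V).symm ψ', fun g => ?_⟩
  have h1 : (Module.evalEquiv ℝ V) ((Module.evalEquiv ℝ V).symm ψ') = ψ' :=
    LinearEquiv.apply_symm_apply _ _
  have h2 := congrArg (fun F : Module.Dual ℝ (Module.Dual ℝ V) => F g.toLinearMap) h1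
  have h3 : A g.toLinearMap = g := by
    ext x
    rfl
  have h4 : ψ' g.toLinearMap = ψ g := by
    show ψ (A g.toLinearMap) = ψ g
    rw [h3]
  have h5 : (Module.evalEquiv ℝ V) ((Module.evalEquiv ℝ V).symm ψ') g.toLinearMap =
      g ((Module.evalEquiv ℝ V).symm ψ') := rfl
  rw [← h4, ← h5]
  exact h2.symm

theorem LRC.norm_eval {G : ℕ → Type} [∀ k, NormedAddCommGroup (G k)]
    (w : lp G 2) (F : Finset ℕ) : ∑ k ∈ F, ‖w k‖ ^ 2 ≤ ‖w‖ ^ 2 := by
  have h := lp.sum_rpow_le_norm_rpow (E := G) (p := 2) (by simp) w F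
  simp only [ENNReal.toReal_ofNat, Real.rpow_ofNat] at h
  exact h

theorem pr_LRC : LRC := by
  intro G _ _ _ φ
  have h1 : ∀ k, ∃ x : G k, ∀ g : StrongDual ℝ (G k),
      φ (g.comp (lp.evalCLM ℝ G 2 k)) = g x := by
    intro k
    let P : StrongDual ℝ (G k) →L[ℝ] StrongDual ℝ (lp G 2) :=
      (ContinuousLinearMap.compL ℝ (lp G 2) (G k) ℝ).flip (lp.evalCLM ℝ G 2 k)
    obtain ⟨x, hx⟩ := LRC.eval (G k) (φ.comp P)
    exact ⟨x, fun g => hx g⟩
  choose x hx using h1
  have hmem : Memℓp x 2 := by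
    refine memℓp_gen' (C := ‖φ‖ ^ 2) fun F => ?_
    simp only [ENNReal.toReal_ofNat, Real.rpow_ofNat]
    have h2 : ∀ k, ∃ g : StrongDual ℝ (G k), ‖g‖ ≤ 1 ∧ g (x k) = ‖x k‖ := by
      intro k
      obtain ⟨g, hg, hg2⟩ := exists_dual_vector'' ℝ (x k)
      exact ⟨g, hg, by simpa using hg2⟩
    choose g hg hg2 using h2
    set S : ℝ := ∑ k ∈ F, ‖x k‖ ^ 2 with hS
    have hS0 : 0 ≤ S := Finset.sum_nonneg fun k _ => sq_nonneg _
    let f : StrongDual ℝ (lp G 2) := ∑ k ∈ F, ‖x k‖ • (g k).comp (lp.evalCLM ℝ G 2 k)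
    have hφf : φ f = S := by
      show φ (∑ k ∈ F, ‖x k‖ • (g k).comp (lp.evalCLM ℝ G 2 k)) = S
      rw [map_sum]
      refine Finset.sum_congr rfl fun k _ => ?_
      rw [map_smul, hx, hg2, smul_eq_mul, sq]
    have hf : ‖f‖ ≤ √S := by
      refine ContinuousLinearMap.opNorm_le_bound _ (Real.sqrt_nonneg _) fun w => ?_
      have hfw : f w = ∑ k ∈ F, ‖x k‖ * g k (w k) := by
        show (∑ k ∈ F, ‖x k‖ • (g k).comp (lp.evalCLM ℝ G 2 k)) w = _
        rw [_root_.sum_apply]
        rfl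
      rw [hfw, Real.norm_eq_abs]
      have hle : |∑ k ∈ F, ‖x k‖ * g k (w k)| ≤ ∑ k ∈ F, ‖x k‖ * ‖w k‖ := by
        refine (Finset.abs_sum_le_sum_abs _ _).trans (Finset.sum_le_sum fun k _ => ?_)
        rw [abs_mul, abs_of_nonneg (norm_nonneg _)]
        refine mul_le_mul_of_nonneg_left ?_ (norm_nonneg _)
        have := (g k).le_of_opNorm_le (hg k) (w k)
        rw [one_mul, Real.norm_eq_abs] at this
        exact this
      refine hle.trans ?_
      have hcs := Finset.sum_mul_sq_le_sq_mul_sq F (fun k => ‖x k‖) (fun k => ‖w k‖)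
      have hw := LRC.norm_eval w F
      have h3 : (∑ k ∈ F, ‖x k‖ * ‖w k‖) ^ 2 ≤ (√S * ‖w‖) ^ 2 := by
        rw [mul_pow, Real.sq_sqrt hS0]
        exact hcs.trans (mul_le_mul_of_nonneg_left hw hS0)
      exact abs_le_of_sq_le_sq' h3 (by positivity) |>.2
    have h4 : S ≤ ‖φ‖ * √S := by
      have := φ.le_opNorm f
      rw [hφf, Real.norm_eq_abs, abs_of_nonneg hS0] at this
      exact this.trans (mul_le_mul_of_nonneg_left hf (norm_nonneg _))
    have h5 : √S ≤ ‖φ‖ := by
      rcases (Real.sqrt_nonneg S).eq_or_lt with h | h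
      · rw [← h]
        exact norm_nonneg φ
      · have h6 : √S * √S ≤ ‖φ‖ * √S := by
          rw [Real.mul_self_sqrt hS0]
          exact h4
        exact le_of_mul_le_mul_right h6 h
    calc S = √S ^ 2 := (Real.sq_sqrt hS0).symm
      _ ≤ ‖φ‖ ^ 2 := pow_le_pow_left₀ (Real.sqrt_nonneg _) h5 2
  exact ⟨⟨x, hmem⟩, fun k g => hx k g⟩

end Pool.Agent.Work.MP_8db9c5_an.PG

end

section

/-!
# An `ℓ_2`-sum of finite-dimensional spaces is reflexive
-/

open Topology Filter Set

open scoped ENNReal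

namespace Pool.Agent.Work.MP_8db9c5_an.PG

/-- an `ℓ_2`-sum of finite-dimensional spaces is reflexive -/
theorem pr_LRD (h1 : LRB) (h2 : LRC) : LRD := by
  intro G _ _ _ φ
  obtain ⟨x, hx⟩ := h2 G φ
  refine ⟨x, ?_⟩
  refine ContinuousLinearMap.ext fun f => ?_
  rw [NormedSpace.dual_def]
  have key : ∀ ε : ℝ, 0 < ε → |f x - φ f| ≤ ε * (‖x‖ + ‖φ‖) := by
    intro ε hε
    obtain ⟨F, hF⟩ := h1 G f ε hε
    set g : StrongDual ℝ (lp G 2) := ∑ k ∈ F,
      (f.comp (lp.singleContinuousLinearMap ℝ G 2 k)).comp (lp.evalCLM ℝ G 2 k) with hg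
    have hgx : ∀ y : lp G 2, g y = ∑ k ∈ F, f (lp.single 2 k (y k)) := by
      intro y
      rw [hg, _root_.sum_apply]
      rfl
    have hfg : ‖f - g‖ ≤ ε := by
      refine ContinuousLinearMap.opNorm_le_bound _ hε.le fun y => ?_
      rw [_root_.sub_apply, hgx, Real.norm_eq_abs]
      exact hF y
    have hφg : φ g = ∑ k ∈ F, f (lp.single 2 k (x k)) := by
      rw [hg, map_sum]
      refine Finset.sum_congr rfl fun k _ => ?_
      rw [hx k]
      rfl
    have h3 : |f x - φ g| ≤ ε * ‖x‖ := by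
      rw [hφg]
      exact hF x
    have h4 : |φ f - φ g| ≤ ε * ‖φ‖ := by
      rw [← map_sub, ← Real.norm_eq_abs]
      calc ‖φ (f - g)‖ ≤ ‖φ‖ * ‖f - g‖ := φ.le_opNorm _
        _ ≤ ‖φ‖ * ε := by gcongr
        _ = ε * ‖φ‖ := mul_comm _ _
    calc |f x - φ f| = |(f x - φ g) - (φ f - φ g)| := by congr 1; ring
      _ ≤ |f x - φ g| + |φ f - φ g| := abs_sub _ _
      _ ≤ ε * ‖x‖ + ε * ‖φ‖ := add_le_add h3 h4
      _ = ε * (‖x‖ + ‖φ‖) := by ring
  have h0 : |f x - φ f| ≤ 0 := by
    by_contra hcon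
    push Not at hcon
    have hM : 0 < ‖x‖ + ‖φ‖ + 1 := by positivity
    have h5 := key (|f x - φ f| / (2 * (‖x‖ + ‖φ‖ + 1))) (by positivity)
    have h6 : |f x - φ f| / (2 * (‖x‖ + ‖φ‖ + 1)) * (‖x‖ + ‖φ‖) ≤ |f x - φ f| / 2 := by
      rw [div_mul_eq_mul_div, div_le_div_iff₀ (by positivity) (by norm_num)]
      nlinarith
    linarith
  exact sub_eq_zero.1 (abs_eq_zero.1 (le_antisymm h0 (abs_nonneg _)))

end Pool.Agent.Work.MP_8db9c5_an.PG

end

section

/-!
# The upper bound for the norm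
-/

universe u v

namespace Pool.Agent.Work.MP_8db9c5_an.PG

open Pool.Agent.Work.MP_8db9c5_an

namespace LU

theorem abs_le_mx (n : ℕ → ℕ) (a : ℕ → ℝ) {C : ℝ} (hC : 0 ≤ C) (h : ∀ m, |a m| ≤ C) (k : ℕ) :
    mx n a k ≤ C :=
  (pi_norm_le_iff_of_nonneg hC).2 fun _ => h _

theorem mx_nonneg (n : ℕ → ℕ) (a : ℕ → ℝ) (k : ℕ) : 0 ≤ mx n a k := norm_nonneg _

theorem exists_pos (n : ℕ → ℕ) (a : ℕ → ℝ) (k : ℕ) :
    ∃ p, Bk n k ≤ p ∧ p < Bk n (k + 1) ∧ (mx n a k ≠ 0 → |a p| = mx n a k) := by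
  by_cases h : mx n a k = 0
  · exact ⟨Bk n k, le_rfl, Bk_strictMono n (Nat.lt_succ_self k), fun h' => absurd h h'⟩
  · have hk : 1 ≤ n k := by
      by_contra hcon
      have h0 : n k = 0 := by omega
      apply h
      have : IsEmpty (Fin (n k)) := by rw [h0]; infer_instance
      unfold mx
      rw [Subsingleton.elim (fun i : Fin (n k) => a (Bk n k + 1 + i)) 0, norm_zero]
    obtain ⟨i, hi⟩ := exists_norm_eq hk (fun i : Fin (n k) => a (Bk n k + 1 + i))
    refine ⟨Bk n k + 1 + i, by omega, ?_, fun _ => hi.symm⟩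
    rw [Bk_succ]
    have := i.2
    omega

/-- the combinatorial part -/
theorem key (hLC : LC) (n : ℕ → ℕ) (τ : ℕ → ℝ) (C : ℝ) (hC : 0 ≤ C) (hB : BBound n τ C)
    (hosc : ∀ p q, p < q → |τ q - τ p| ≤ C) (a : ℕ → ℝ) (q : ℕ → ℕ) (hq1 : ∀ p, p ≤ q p)
    (hq2 : ∀ p, a p = τ (q p) - τ p) (hq3 : ∀ p p', p < p' → p' < q p' → q p ≤ p') (N : ℕ) :
    max (√(∑ k ∈ Finset.range N, a (Bk n k) ^ 2))
      (max ‖fun k : Fin N => mx n a k‖ (√(∑ k ∈ Finset.range N, mx n a k ^ 2) / 4)) ≤ C := by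
  have hne : ∀ p, a p ≠ 0 → p < q p := by
    intro p hp
    rcases (hq1 p).eq_or_lt with h | h
    · exfalso
      apply hp
      rw [hq2, ← h, sub_self]
    · exact h
  have habs : ∀ p, |a p| ≤ C := by
    intro p
    by_cases h : a p = 0
    · rw [h, abs_zero]; exact hC
    · rw [hq2]; exact hosc _ _ (hne p h)
  refine max_le ?_ (max_le ?_ ?_)
  · rw [Real.sqrt_le_iff]
    refine ⟨hC, ?_⟩
    have h1 : ∑ k ∈ Finset.range N, a (Bk n k) ^ 2 =
        ∑ k ∈ (Finset.range N).filter (fun k => a (Bk n k) ≠ 0), a (Bk n k) ^ 2 := by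
      symm
      apply Finset.sum_filter_of_ne
      intro k _ hk h0
      exact hk (by rw [h0]; norm_num)
    rw [h1]
    have h2 := hB ((Finset.range N).filter (fun k => a (Bk n k) ≠ 0)) (fun k => q (Bk n k)) ?_
    · refine le_trans (le_of_eq (Finset.sum_congr rfl fun k _ => ?_)) h2
      rw [hq2]
    · refine ⟨fun k _ => hq1 _, fun k _ k' hk' hkk' => ?_⟩
      exact hq3 _ _ (Bk_strictMono n hkk') (hne _ (Finset.mem_filter.1 hk').2)
  · refine (pi_norm_le_iff_of_nonneg hC).2 fun k => ?_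
    rw [Real.norm_eq_abs, abs_of_nonneg (mx_nonneg n a k)]
    exact abs_le_mx n a hC habs k
  · have h4 : ∑ k ∈ Finset.range N, mx n a k ^ 2 ≤ (4 * C) ^ 2 := by
      choose p hp1 hp2 hp3 using exists_pos n a
      have h1 : ∑ k ∈ Finset.range N, mx n a k ^ 2 =
          ∑ k ∈ (Finset.range N).filter (fun k => mx n a k ≠ 0), mx n a k ^ 2 := by
        symm
        apply Finset.sum_filter_of_ne
        intro k _ hk h0
        exact hk (by rw [h0]; norm_num)
      rw [h1]
      have h2 := hLC n τ C hB ((Finset.range N).filter (fun k => mx n a k ≠ 0)) p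
        (fun k => q (p k)) (fun k _ => ⟨hp1 k, hp2 k, hq1 _⟩) ?_
      · have h3 : ∑ k ∈ (Finset.range N).filter (fun k => mx n a k ≠ 0), mx n a k ^ 2 =
            ∑ k ∈ (Finset.range N).filter (fun k => mx n a k ≠ 0),
              (τ (q (p k)) - τ (p k)) ^ 2 := by
          refine Finset.sum_congr rfl fun k hk => ?_
          rw [← hp3 k (Finset.mem_filter.1 hk).2, sq_abs, hq2]
        rw [h3]
        nlinarith [sq_nonneg C]
      · intro k hk k' hk' hkk'
        have h5 : p k < p k' :=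
          (hp2 k).trans_le (((Bk_strictMono n).monotone (by omega : k + 1 ≤ k')).trans (hp1 k'))
        refine hq3 _ _ h5 (hne _ ?_)
        intro h0
        have h6 := hp3 k' (Finset.mem_filter.1 hk').2
        rw [h0, abs_zero] at h6
        exact (Finset.mem_filter.1 hk').2 h6.symm
    have h5 : √(∑ k ∈ Finset.range N, mx n a k ^ 2) ≤ 4 * C := by
      rw [Real.sqrt_le_iff]
      exact ⟨by positivity, h4⟩
    linarith

end LU

theorem pr_LU (h : LC) : LU.{u, v} := by
  intro X _ _ _ b n hBN E _ _ _ e hJ z C hC hB hosc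
  refine le_of_forall_pos_le_add fun ε hε => ?_
  obtain ⟨r, hr, ⟨N0, hN0⟩, hlt⟩ := exists_near_code hJ z hε
  suffices hs : ‖V b.basis e r z‖ ≤ C by linarith
  have hN : ∀ j, Bk n N0 ≤ j → r j = none := fun j hj => hN0 j ((le_Bk n N0).trans hj)
  set a : ℕ → ℝ := fun m => b.coord m (V b.basis e r z) with ha
  have hcase : ∀ p, ∃ q, p ≤ q ∧ a p = t b e q z - t b e p z ∧
      ∀ j, p ≤ j → j < q → r j = some p := by
    intro p
    rcases code_cases hr p with h1 | ⟨q, hpq, h1⟩ | h1
    · refine ⟨p, le_rfl, ?_, fun j h2 h3 => by omega⟩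
      rw [sub_self]
      exact coord_V_none hJ hr h1 z
    · refine ⟨q, hpq.le, ?_, fun j h2 h3 => (h1 j).2 ⟨h2, h3⟩⟩
      have h2 := coord_V_fin hJ hr hpq h1 z
      rw [t_apply, t_apply]
      simp only [ha]
      rw [h2]
      ring
    · exfalso
      have h2 := (h1 (max (Bk n N0) p)).2 (le_max_right _ _)
      rw [hN _ (le_max_left _ _)] at h2
      simp at h2
  choose q hq1 hq2 hq3 using hcase
  rw [V_eq_sum hJ hr hN z]
  have h3 := hBN a N0
  rw [h3]
  refine LU.key h n (fun m => t b e m z) C hC hB hosc a q hq1 hq2 ?_ N0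
  intro p p' hpp' h4
  by_contra hcon
  have h5 := hq3 p p' hpp'.le (by omega)
  have h6 := hq3 p' p' le_rfl h4
  rw [h5] at h6
  simp only [Option.some.injEq] at h6
  omega

end Pool.Agent.Work.MP_8db9c5_an.PG

end

section

/-!
# NLO: lower estimates
-/

set_option linter.unusedSectionVars false

open Topology Filter Set

universe u v

namespace Pool.Agent.Work.MP_8db9c5_an.PG

namespace NLO

theorem sum_ext {X : Type u} [NormedAddCommGroup X] [NormedSpace ℝ X] (w : ℕ → X)
    (a : ℕ → ℝ) {N M : ℕ} (h : N ≤ M) :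
    ∑ m ∈ Finset.range M, (if m < N then a m else 0) • w m = ∑ m ∈ Finset.range N, a m • w m := by
  rw [← Finset.sum_subset (Finset.range_mono h)]
  · refine Finset.sum_congr rfl fun m hm => ?_
    rw [if_pos (Finset.mem_range.1 hm)]
  · intro m _ hm
    rw [Finset.mem_range] at hm
    rw [if_neg hm, zero_smul]

end NLO

open NLO in
theorem pr_NLO : NLO := by
  intro X _ _ b n hB a N
  have hN := le_Bk n N
  set a' : ℕ → ℝ := fun m => if m < N then a m else 0 with ha'
  have hnorm := hB a' N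
  have hsum : ∑ m ∈ Finset.range (Bk n N), a' m • b m = ∑ m ∈ Finset.range N, a m • b m :=
    sum_ext _ a hN
  rw [hsum] at hnorm
  have ha : ∀ m, m < N → a' m = a m := fun m hm => by rw [ha']; simp [hm]
  have h1 : √(∑ k ∈ Finset.range N, a' (Bk n k) ^ 2) ≤ ‖∑ m ∈ Finset.range N, a m • b m‖ := by
    rw [hnorm]; exact le_max_left _ _
  have h2 : ‖fun k : Fin N => mx n a' k‖ ≤ ‖∑ m ∈ Finset.range N, a m • b m‖ := by
    rw [hnorm]; exact le_trans (le_max_left _ _) (le_max_right _ _)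
  constructor
  · intro m hm
    rcases blk_cases n m with h | ⟨i, h⟩
    · refine le_trans ?_ h1
      have hk : blk n m < N := lt_of_le_of_lt (le_Bk n _) (by rw [← h]; exact hm)
      have h3 : |a m| = √(a' (Bk n (blk n m)) ^ 2) := by
        rw [← h, ha m hm, Real.sqrt_sq_eq_abs]
      rw [h3]
      apply Real.sqrt_le_sqrt
      exact Finset.single_le_sum (f := fun k => a' (Bk n k) ^ 2) (fun k _ => sq_nonneg _)
        (Finset.mem_range.2 hk)
    · refine le_trans ?_ h2
      have hk : blk n m < N :=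
        lt_of_le_of_lt (le_Bk n _) (lt_of_le_of_lt (Bk_blk_le n m) hm)
      have h3 : |a m| ≤ mx n a' (blk n m) := by
        have h4 := norm_le_pi_norm (fun i : Fin (n (blk n m)) => a' (Bk n (blk n m) + 1 + i)) i
        rw [← h, ha m hm, Real.norm_eq_abs] at h4
        exact h4
      have h5 := norm_le_pi_norm (fun k : Fin N => mx n a' k) ⟨blk n m, hk⟩
      exact h3.trans ((le_abs_self _).trans h5)
  · intro K hK
    have hKN : K ⊆ Finset.range N := fun k hk =>
      Finset.mem_range.2 (lt_of_le_of_lt (le_Bk n k) (hK k hk))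
    calc ∑ k ∈ K, a (Bk n k) ^ 2 = ∑ k ∈ K, a' (Bk n k) ^ 2 :=
          Finset.sum_congr rfl fun k hk => by rw [ha _ (hK k hk)]
      _ ≤ ∑ k ∈ Finset.range N, a' (Bk n k) ^ 2 :=
          Finset.sum_le_sum_of_subset_of_nonneg hKN fun k _ _ => sq_nonneg _
      _ = √(∑ k ∈ Finset.range N, a' (Bk n k) ^ 2) ^ 2 := by
          rw [Real.sq_sqrt (Finset.sum_nonneg fun k _ => sq_nonneg _)]
      _ ≤ _ := by
          have := Real.sqrt_nonneg (∑ k ∈ Finset.range N, a' (Bk n k) ^ 2)
          exact pow_le_pow_left₀ this h1 2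

end Pool.Agent.Work.MP_8db9c5_an.PG

end

section

/-!
# Products of symmetric groups: block permutations do not increase the norm
-/

set_option autoImplicit false

universe u v

namespace Pool.Agent.Work.MP_8db9c5_an.PG

theorem pr_NPL (h1 : LA.{u, v}) (h2 : LU.{u, v}) (h3 : LI) (h4 : NSM.{u}) : NPL.{u, v} := by
  intro X _ _ _ b n hb E _ _ _ e hJ ρ hρ w z hwz
  have hn := (h4 X b n hb).1
  refine h2 X b n hb E e hJ w ‖z‖ (norm_nonneg z) ?_ ?_
  · have h := h3 n (fun m => t b e m z) ‖z‖ ρ hρ (h1 X b n hb E e hJ z)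
    have e1 : (fun m => t b e m w) = fun m => t b e (ρ m) z := funext hwz
    rw [e1]
    exact h
  · intro p q _
    rw [hwz, hwz, t_apply, t_apply, sub_sub_sub_cancel_right]
    rcases le_total (ρ p) (ρ q) with h | h
    · exact abs_S_sub_le hn hJ h z
    · rw [abs_sub_comm]
      exact abs_S_sub_le hn hJ h z

end Pool.Agent.Work.MP_8db9c5_an.PG

end

section

/-!
# Products of symmetric groups: the basis is normalised and smooth (item NSM)
-/

open Topology Filter Set

universe u v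

namespace Pool.Agent.Work.MP_8db9c5_an.PG

namespace NSM

variable {X : Type u} [NormedAddCommGroup X] [NormedSpace ℝ X]

lemma sum_two (b : UnconditionalSchauderBasis ℕ ℝ X) {p i : ℕ} (hip : i < p) (M s : ℝ) :
    ∑ m ∈ Finset.range (p + 1), ((if m = p then M else 0) + (if m = i then s else 0)) • b m =
      M • b p + s • b i := by
  have h1 : p ∈ Finset.range (p + 1) := Finset.mem_range.2 (by omega)
  have h2 : i ∈ Finset.range (p + 1) := Finset.mem_range.2 (by omega)
  simp only [add_smul, ite_smul, zero_smul]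
  rw [Finset.sum_add_distrib, Finset.sum_ite_eq', Finset.sum_ite_eq', if_pos h1, if_pos h2]

lemma sum_sq {p i : ℕ} (hip : i < p) (M s : ℝ) :
    ∑ m ∈ Finset.range (p + 1), ((if m = p then M else 0) + (if m = i then s else 0)) ^ 2 =
      M ^ 2 + s ^ 2 := by
  have h1 : p ∈ Finset.range (p + 1) := Finset.mem_range.2 (by omega)
  have h2 : i ∈ Finset.range (p + 1) := Finset.mem_range.2 (by omega)
  have h3 : ∀ m ∈ Finset.range (p + 1),
      ((if m = p then M else 0) + (if m = i then s else 0)) ^ 2 =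
      (if m = p then M ^ 2 else 0) + (if m = i then s ^ 2 else 0) := by
    intro m _
    by_cases hm : m = p
    · have : m ≠ i := by omega
      simp [hm, show p ≠ i by omega]
    · by_cases hi : m = i
      · simp [hi, show i ≠ p by omega]
      · simp [hm, hi]
  rw [Finset.sum_congr rfl h3, Finset.sum_add_distrib, Finset.sum_ite_eq', Finset.sum_ite_eq',
    if_pos h1, if_pos h2]

end NSM

theorem pr_NSM (h1 : NUP.{u}) (h2 : NLO.{u}) : NSM.{u} := by
  intro X _ _ b n hb
  refine ⟨fun i => ?_, ?_⟩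
  · have hs : ∑ m ∈ Finset.range (i + 1), (if m = i then (1 : ℝ) else 0) • b m = b i := by
      simp only [ite_smul, zero_smul, one_smul]
      rw [Finset.sum_ite_eq', if_pos (Finset.mem_range.2 (Nat.lt_succ_self i))]
    have hq : ∑ m ∈ Finset.range (i + 1), (if m = i then (1 : ℝ) else 0) ^ 2 = 1 := by
      simp only [ite_pow, one_pow]
      rw [Finset.sum_congr rfl (g := fun m => if m = i then (1 : ℝ) else 0)
        (fun m _ => by split_ifs <;> simp)]
      rw [Finset.sum_ite_eq', if_pos (Finset.mem_range.2 (Nat.lt_succ_self i))]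
    have hu := h1 X b n hb (fun m => if m = i then (1 : ℝ) else 0) (i + 1)
    have hl := (h2 X b n hb (fun m => if m = i then (1 : ℝ) else 0) (i + 1)).1 i
      (Nat.lt_succ_self i)
    simp only [] at hu hl
    rw [hs, hq] at hu
    rw [hs] at hl
    simp only [if_true, abs_one] at hl
    have h3 := norm_nonneg (b i)
    nlinarith
  · intro p i hip s hs
    have hs2 : s ^ 2 = 1 := by rcases hs with h | h <;> rw [h] <;> norm_num
    have key : ∀ M : ℝ, 0 < M → M ≤ ‖M • b p + s • b i‖ ∧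
        ‖M • b p + s • b i‖ ^ 2 ≤ M ^ 2 + 1 := by
      intro M hM
      have hu := h1 X b n hb
        (fun m => (if m = p then M else 0) + (if m = i then s else 0)) (p + 1)
      have hl := (h2 X b n hb
        (fun m => (if m = p then M else 0) + (if m = i then s else 0)) (p + 1)).1 p
        (Nat.lt_succ_self p)
      simp only [] at hu hl
      rw [NSM.sum_two b hip, NSM.sum_sq hip, hs2] at hu
      rw [NSM.sum_two b hip, if_pos trivial, if_neg (by omega), add_zero] at hl
      exact ⟨(le_abs_self M).trans hl, hu⟩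
    have hlim : Tendsto (fun M : ℝ => 1 / M) atTop (𝓝 0) := by
      simpa using tendsto_inv_atTop_zero (𝕜 := ℝ)
    refine tendsto_of_tendsto_of_tendsto_of_le_of_le' tendsto_const_nhds hlim ?_ ?_
    · filter_upwards [eventually_gt_atTop (0 : ℝ)] with M hM
      have := (key M hM).1
      linarith
    · filter_upwards [eventually_gt_atTop (0 : ℝ)] with M hM
      obtain ⟨h3, h4⟩ := key M hM
      have h5 : 0 < 1 / M := by positivity
      have h6 : M * (1 / M) = 1 := by field_simp
      by_contra hcon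
      push Not at hcon
      have h7 : M + 1 / M < ‖M • b p + s • b i‖ := by linarith
      nlinarith

end Pool.Agent.Work.MP_8db9c5_an.PG

end

section

/-!
# Products of symmetric groups: the upper `ℓ_2` estimate
-/

set_option autoImplicit false

universe u v

namespace Pool.Agent.Work.MP_8db9c5_an.PG

namespace NUP

/-- a sum over the first `N` blocks -/
theorem sbk (n : ℕ → ℕ) (f : ℕ → ℝ) (N : ℕ) :
    ∑ m ∈ Finset.range (Bk n N), f m =
      ∑ k ∈ Finset.range N, (f (Bk n k) + ∑ i : Fin (n k), f (Bk n k + 1 + i)) := by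
  induction N with
  | zero => simp
  | succ N ih =>
    rw [Finset.sum_range_succ (fun k => f (Bk n k) + ∑ i : Fin (n k), f (Bk n k + 1 + i)), ← ih,
      Bk_succ, show Bk n N + n N + 1 = (Bk n N + 1) + n N by ring, Finset.sum_range_add,
      Finset.sum_range_succ, Finset.sum_range (fun i => f (Bk n N + 1 + i)), add_assoc]

theorem mx_sq_le (n : ℕ → ℕ) (a : ℕ → ℝ) (k : ℕ) :
    mx n a k ^ 2 ≤ ∑ i : Fin (n k), a (Bk n k + 1 + i) ^ 2 := by
  have h0 : 0 ≤ ∑ i : Fin (n k), a (Bk n k + 1 + i) ^ 2 :=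
    Finset.sum_nonneg fun i _ => sq_nonneg _
  have h1 : mx n a k ≤ √(∑ i : Fin (n k), a (Bk n k + 1 + i) ^ 2) := by
    unfold mx
    rw [pi_norm_le_iff_of_nonneg (Real.sqrt_nonneg _)]
    intro i
    rw [Real.norm_eq_abs]
    refine Real.abs_le_sqrt ?_
    exact Finset.single_le_sum (f := fun i : Fin (n k) => a (Bk n k + 1 + i) ^ 2)
      (fun i _ => sq_nonneg _) (Finset.mem_univ i)
  calc mx n a k ^ 2 ≤ √(∑ i : Fin (n k), a (Bk n k + 1 + i) ^ 2) ^ 2 :=
        pow_le_pow_left₀ (norm_nonneg _) h1 2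
    _ = _ := Real.sq_sqrt h0

end NUP

open NUP in
theorem pr_NUP : NUP.{u} := by
  intro X _ _ b n hb a N
  obtain ⟨a', ha'⟩ : ∃ a' : ℕ → ℝ, a' = fun m => if m < N then a m else 0 := ⟨_, rfl⟩
  have hsub : Finset.range N ⊆ Finset.range (Bk n N) :=
    Finset.range_subset_range.2 (le_Bk n N)
  have e1 : ∑ m ∈ Finset.range N, a m • b m = ∑ m ∈ Finset.range (Bk n N), a' m • b m := by
    have h1 : ∑ m ∈ Finset.range N, a m • b m = ∑ m ∈ Finset.range N, a' m • b m := by
      refine Finset.sum_congr rfl fun m hm => ?_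
      rw [ha']
      simp only [if_pos (Finset.mem_range.1 hm)]
    rw [h1]
    refine Finset.sum_subset hsub fun m _ hm => ?_
    have h2 : a' m = 0 := by
      rw [ha']
      simp only [if_neg fun h => hm (Finset.mem_range.2 h)]
    rw [h2, zero_smul]
  have e2 : ∑ m ∈ Finset.range N, a m ^ 2 = ∑ m ∈ Finset.range (Bk n N), a' m ^ 2 := by
    have h1 : ∑ m ∈ Finset.range N, a m ^ 2 = ∑ m ∈ Finset.range N, a' m ^ 2 := by
      refine Finset.sum_congr rfl fun m hm => ?_
      rw [ha']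
      simp only [if_pos (Finset.mem_range.1 hm)]
    rw [h1]
    refine Finset.sum_subset hsub fun m _ hm => ?_
    have h2 : a' m = 0 := by
      rw [ha']
      simp only [if_neg fun h => hm (Finset.mem_range.2 h)]
    rw [h2]
    ring
  rw [e1, e2, hb a' N]
  obtain ⟨s, hs⟩ : ∃ s : ℝ, s = ∑ m ∈ Finset.range (Bk n N), a' m ^ 2 := ⟨_, rfl⟩
  have hs0 : 0 ≤ s := by
    rw [hs]
    exact Finset.sum_nonneg fun m _ => sq_nonneg _
  have hs1 := hs
  rw [sbk n (fun m => a' m ^ 2) N, Finset.sum_add_distrib] at hs1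
  have hT : ∑ k ∈ Finset.range N, mx n a' k ^ 2 ≤
      ∑ k ∈ Finset.range N, ∑ i : Fin (n k), a' (Bk n k + 1 + i) ^ 2 :=
    Finset.sum_le_sum fun k _ => mx_sq_le n a' k
  have hA : 0 ≤ ∑ k ∈ Finset.range N, a' (Bk n k) ^ 2 := Finset.sum_nonneg fun k _ => sq_nonneg _
  have hM : 0 ≤ ∑ k ∈ Finset.range N, mx n a' k ^ 2 := Finset.sum_nonneg fun k _ => sq_nonneg _
  have hle1 : ∑ k ∈ Finset.range N, a' (Bk n k) ^ 2 ≤ s := by linarith
  have hle2 : ∑ k ∈ Finset.range N, mx n a' k ^ 2 ≤ s := by linarith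
  rw [← hs]
  have key : max (√(∑ k ∈ Finset.range N, a' (Bk n k) ^ 2))
      (max ‖fun k : Fin N => mx n a' k‖ (√(∑ k ∈ Finset.range N, mx n a' k ^ 2) / 4)) ≤ √s := by
    refine max_le (Real.sqrt_le_sqrt hle1) (max_le ?_ ?_)
    · rw [pi_norm_le_iff_of_nonneg (Real.sqrt_nonneg _)]
      intro k
      rw [Real.norm_eq_abs]
      refine Real.abs_le_sqrt (le_trans ?_ hle2)
      exact Finset.single_le_sum (f := fun k => mx n a' k ^ 2)
        (fun i _ => sq_nonneg _) (Finset.mem_range.2 k.2)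
    · have h1 := Real.sqrt_le_sqrt hle2
      have h2 := Real.sqrt_nonneg (∑ k ∈ Finset.range N, mx n a' k ^ 2)
      linarith
  calc _ ≤ √s ^ 2 := pow_le_pow_left₀ (le_max_of_le_left (Real.sqrt_nonneg _)) key 2
    _ = s := Real.sq_sqrt hs0

end Pool.Agent.Work.MP_8db9c5_an.PG

end

section

/-!
# The order of the first positions of the blocks is preserved
-/

universe u v

namespace Pool.Agent.Work.MP_8db9c5_an.PG

open Pool.Agent.Work.MP_8db9c5_an

namespace ORD

theorem e_sum {E : Type v} [NormedAddCommGroup E] (e : ℕ → E) (m : ℕ) :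
    e m = - ∑ i ∈ Finset.range (m + 1), dl e i := by
  induction m with
  | zero => simp [dl]
  | succ m ih =>
    rw [Finset.sum_range_succ, neg_add, ← ih]
    simp [dl]

end ORD

theorem pr_ORD (h1 : LA.{u, v}) (h2 : NSM.{u}) : ORD.{u, v} := by
  intro X _ _ _ b n hB E _ _ _ e hJ T s π hs hT k l hkl
  have hn := (h2 X b n hB).1
  show π.symm (Bk n k) < π.symm (Bk n l)
  by_contra hcon
  have hBkl : Bk n k < Bk n l := Bk_strictMono n hkl
  have hne : π.symm (Bk n l) ≠ π.symm (Bk n k) := fun h => by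
    have := π.symm.injective h
    omega
  have hlt : π.symm (Bk n l) < π.symm (Bk n k) := by omega
  set j := π.symm (Bk n l) with hj
  set z := T (e j) with hz
  have ht : ∀ p, t b e p z = if π.symm p ≤ j then -s else 0 := by
    intro p
    rw [hz, ORD.e_sum e j, map_neg, map_sum, map_neg, map_sum]
    have h3 : ∀ m ∈ Finset.range (j + 1), t b e p (T (dl e m)) =
        if m = π.symm p then s else 0 := by
      intro m _
      rw [hT, map_smul, t_dl hJ, smul_eq_mul]
      by_cases h : m = π.symm p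
      · rw [if_pos h, if_pos (by rw [h, Equiv.apply_symm_apply]), mul_one]
      · rw [if_neg h, if_neg, mul_zero]
        intro h4
        exact h (by rw [h4, Equiv.symm_apply_apply])
    rw [Finset.sum_congr rfl h3, Finset.sum_ite_eq' ]
    by_cases h : π.symm p ≤ j
    · rw [if_pos (Finset.mem_range.2 (by omega)), if_pos h]
    · rw [if_neg (by rw [Finset.mem_range]; omega), if_neg h, neg_zero]
  set M := (Finset.range (j + 1)).sup π + Bk n l + 1 with hM
  have hMj : ¬ π.symm M ≤ j := by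
    intro h
    have h3 : π (π.symm M) ≤ (Finset.range (j + 1)).sup π :=
      Finset.le_sup (f := π) (Finset.mem_range.2 (by omega))
    rw [Equiv.apply_symm_apply] at h3
    omega
  have hkl' : l ≠ k := by omega
  have h4 := h1 X b n hB E e hJ z {k, l} (fun i => if i = k then Bk n l else M) ?_
  · rw [Finset.sum_pair (by omega)] at h4
    simp only [if_true, if_neg hkl', ht] at h4
    rw [if_pos le_rfl, if_neg (by omega), if_neg hMj, hz, T.norm_map, norm_e hn hJ] at h4
    rcases hs with h | h <;> rw [h] at h4 <;> norm_num at h4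
  · constructor
    · intro i hi
      rcases Finset.mem_insert.1 hi with h | h
      · subst h; simp only [if_true]; exact hBkl.le
      · rw [Finset.mem_singleton.1 h]; simp only [if_neg hkl']; omega
    · intro i hi i' hi' hii'
      rcases Finset.mem_insert.1 hi with h | h
      · subst h
        rcases Finset.mem_insert.1 hi' with h' | h'
        · omega
        · rw [Finset.mem_singleton.1 h']; simp
      · rcases Finset.mem_insert.1 hi' with h' | h'
        · rw [Finset.mem_singleton.1 h, h'] at hii'; omega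
        · rw [Finset.mem_singleton.1 h, Finset.mem_singleton.1 h'] at hii'; omega

end Pool.Agent.Work.MP_8db9c5_an.PG

end

section

/-!
# Item PRR: the product of two reflexive spaces is reflexive
-/

set_option autoImplicit false

namespace Pool.Agent.Work.MP_8db9c5_an.PG

namespace PRR

/-- restriction of a functional on the bidual along a map -/
theorem pull {X Y : Type} [NormedAddCommGroup X] [NormedSpace ℝ X] [NormedAddCommGroup Y]
    [NormedSpace ℝ Y] (L : X →L[ℝ] Y)
    (hY : Function.Surjective (NormedSpace.inclusionInDoubleDual ℝ Y))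
    (φ : StrongDual ℝ (StrongDual ℝ X)) :
    ∃ y : Y, ∀ f : StrongDual ℝ Y, φ (f.comp L) = f y := by
  obtain ⟨y, hy⟩ := hY (φ.comp ((ContinuousLinearMap.compL ℝ X Y ℝ).flip L))
  refine ⟨y, fun f => ?_⟩
  have h := congrArg (fun ψ => ψ f) hy
  simp only [NormedSpace.dual_def] at h
  rw [h]
  rfl

end PRR

open PRR in
theorem pr_PRR : PRR := by
  intro A B _ _ _ _ hA hB φ
  obtain ⟨a, ha⟩ := pull (ContinuousLinearMap.fst ℝ A B) hA φ
  obtain ⟨b, hb⟩ := pull (ContinuousLinearMap.snd ℝ A B) hB φ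
  refine ⟨(a, b), ?_⟩
  ext h
  rw [NormedSpace.dual_def]
  have h1 := ha (h.comp (ContinuousLinearMap.inl ℝ A B))
  have h2 := hb (h.comp (ContinuousLinearMap.inr ℝ A B))
  have h3 : h = (h.comp (ContinuousLinearMap.inl ℝ A B)).comp (ContinuousLinearMap.fst ℝ A B) +
      (h.comp (ContinuousLinearMap.inr ℝ A B)).comp (ContinuousLinearMap.snd ℝ A B) := by
    have h0 : h ((0 : A), (0 : B)) = 0 := map_zero h
    ext x
    · simp [h0]
    · simp [h0]
  have h4 : φ h = h (a, 0) + h (0, b) := by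
    conv_lhs => rw [h3]
    rw [map_add, h1, h2]
    rfl
  rw [h4, ← map_add]
  simp

end Pool.Agent.Work.MP_8db9c5_an.PG

end

section

namespace Pool.Agent.Work.MP_8db9c5_an.PG

theorem pr_SBK : SBK := by
  intro n M _ f N
  induction N with
  | zero => simp
  | succ N ih =>
    have e : Bk n (N + 1) = Bk n N + (n N + 1) := by rw [Bk_succ]; ring
    rw [e, Finset.sum_range_add, ih, Finset.sum_range_succ (fun k => _) N]
    congr 1
    rw [Finset.sum_range_succ', add_comm, Finset.sum_range]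
    congr 1
    refine Finset.sum_congr rfl fun i _ => ?_
    congr 1
    ring

end Pool.Agent.Work.MP_8db9c5_an.PG

end

section

/-!
# Products of symmetric groups: lower bounds for the test vectors
-/

set_option linter.unusedSectionVars false
set_option autoImplicit false

open Topology Filter Set

universe u v

namespace Pool.Agent.Work.MP_8db9c5_an.PG

theorem TLO.two {n : ℕ → ℕ} {τ : ℕ → ℝ} {C : ℝ} (h : BBound n τ C) {k0 k1 x y : ℕ}
    (hk : k0 < k1) (h1 : Bk n k0 ≤ x) (h2 : x ≤ Bk n k1) (h3 : Bk n k1 ≤ y) :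
    (τ x - τ (Bk n k0)) ^ 2 + (τ y - τ (Bk n k1)) ^ 2 ≤ C ^ 2 := by
  have h4 := h {k0, k1} (fun k => if k = k0 then x else y) ⟨?_, ?_⟩
  · rw [Finset.sum_pair hk.ne, if_pos rfl, if_neg hk.ne'] at h4
    exact h4
  · intro k hk'
    simp only [Finset.mem_insert, Finset.mem_singleton] at hk'
    beta_reduce
    rcases hk' with rfl | rfl
    · rw [if_pos rfl]; exact h1
    · rw [if_neg hk.ne']; exact h3
  · intro k hk' k' hk'' hlt
    simp only [Finset.mem_insert, Finset.mem_singleton] at hk' hk''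
    beta_reduce
    rcases hk' with rfl | rfl <;> rcases hk'' with rfl | rfl
    · omega
    · rw [if_pos rfl]; exact h2
    · omega
    · omega

theorem pr_TLO (h : LA.{u, v}) : TLO.{u, v} := by
  intro X _ _ _ b n hB E _ _ _ e hJ
  have hlt : ∀ k, Bk n k < Bk n (k + 1) := fun k => Bk_strictMono n (Nat.lt_succ_self k)
  refine ⟨fun k => ?_, fun k => ?_, fun m hm k hk => ?_⟩
  · have h1 := TLO.two (h X b n hB E e hJ (dl e (Bk n (k + 1)))) (Nat.lt_succ_self k)
      (hlt k).le le_rfl (Nat.le_succ (Bk n (k + 1)))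
    simp only [t_dl hJ, if_true, if_neg (hlt k).ne, if_neg (Nat.succ_ne_self _)] at h1
    by_contra hcon
    have h2 := norm_nonneg (dl e (Bk n (k + 1)))
    nlinarith
  · have h1 := TLO.two (h X b n hB E e hJ (dl e 0 - dl e (Bk n (k + 1)))) (Nat.succ_pos k)
      (x := Bk n (k + 1)) (by rw [Bk_zero]; exact Nat.zero_le _) le_rfl
      (Nat.le_succ (Bk n (k + 1)))
    have h0 : Bk n (k + 1) ≠ 0 := by have := hlt k; omega
    simp only [map_sub, t_dl hJ, Bk_zero, if_true, if_neg h0, if_neg h0.symm,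
      if_neg (Nat.succ_ne_zero _), if_neg (Nat.succ_ne_self _)] at h1
    by_contra hcon
    have h2 := norm_nonneg (dl e 0 - dl e (Bk n (k + 1)))
    nlinarith
  · have hne : ∀ j, Bk n j ≠ m := by
      intro j hj
      apply hm
      rw [← hj, blk_Bk]
    have h1 := TLO.two (h X b n hB E e hJ (dl e m - dl e (Bk n (k + 1)))) (Nat.lt_succ_self k)
      (hlt k).le le_rfl ((Bk_le_iff n).2 hk)
    simp only [map_sub, t_dl hJ, if_true, if_neg (hne _), if_neg (hlt k).ne,
      if_neg (hne _).symm] at h1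
    by_contra hcon
    have h2 := norm_nonneg (dl e m - dl e (Bk n (k + 1)))
    nlinarith

end Pool.Agent.Work.MP_8db9c5_an.PG

end

section

/-!
# Upper bounds for the norms of the test vectors
-/

set_option linter.unusedSectionVars false

open Topology Filter Set

universe u v

namespace Pool.Agent.Work.MP_8db9c5_an.PG

namespace TUP

theorem card_le (K : Finset ℕ) (P : ℕ → Prop) [DecidablePred P]
    (h : ∀ j ∈ K, ∀ j' ∈ K, P j → P j' → j < j' → False) :
    ∑ j ∈ K, (if P j then (1 : ℝ) else 0) ≤ 1 := by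
  rw [← Finset.sum_filter, Finset.sum_const, nsmul_eq_mul, mul_one]
  have h1 : (K.filter P).card ≤ 1 := by
    rw [Finset.card_le_one]
    intro a ha c hc
    rw [Finset.mem_filter] at ha hc
    rcases lt_trichotomy a c with h2 | h2 | h2
    · exact (h a ha.1 c hc.1 ha.2 hc.2 h2).elim
    · exact h2
    · exact (h c hc.1 a ha.1 hc.2 ha.2 h2).elim
  exact_mod_cast h1

theorem ne_first {n : ℕ → ℕ} {m : ℕ} (hm : m ≠ Bk n (blk n m)) (k : ℕ) : Bk n k ≠ m := by
  rintro rfl
  exact hm (by rw [blk_Bk])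

theorem bound_one {n : ℕ → ℕ} {m : ℕ} (hm : m ≠ Bk n (blk n m)) :
    BBound n (fun j => if j = m then 1 else 0) 1 := by
  intro K q hK
  have h1 := card_le K (fun j => q j = m) fun j hj j' hj' h2 h3 h4 => by
    have h5 := hK.2 j hj j' hj' h4
    have h6 := hK.1 j' hj'
    exact ne_first hm j' (by omega)
  rw [one_pow]
  refine le_trans (le_of_eq (Finset.sum_congr rfl fun j hj => ?_)) h1
  simp only [if_neg (ne_first hm j)]
  split_ifs <;> norm_num

theorem bound_two {n : ℕ → ℕ} {m : ℕ} (hm : m ≠ Bk n (blk n m)) {k : ℕ} (hk : blk n m < k) :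
    BBound n (fun j => (if j = m then 1 else 0) - (if j = Bk n k then 1 else 0)) 2 := by
  intro K q hK
  have hmk : m < Bk n k := (lt_Bk_iff n).2 hk
  have h1 := card_le K (fun j => q j = m) fun j hj j' hj' h2 h3 h4 => by
    have h5 := hK.2 j hj j' hj' h4
    have h6 := hK.1 j' hj'
    exact ne_first hm j' (by omega)
  have h2 := card_le K (fun j => q j = Bk n k ∧ j ≠ k) fun j hj j' hj' h2 h3 h4 => by
    have h5 := hK.2 j hj j' hj' h4
    have h6 := hK.1 j' hj'
    exact h3.2 ((Bk_strictMono n).injective (by have := h2.1; have := h3.1; omega))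
  have h3 := card_le K (fun j => j = k) fun j hj j' hj' h2 h3 h4 => by omega
  have h4 : ∑ j ∈ K, ((if q j = m then (1 : ℝ) else 0) +
      (if q j = Bk n k ∧ j ≠ k then 1 else 0) + (if j = k then 1 else 0)) ≤ 3 := by
    rw [Finset.sum_add_distrib, Finset.sum_add_distrib]
    linarith
  refine le_trans (Finset.sum_le_sum fun j hj => ?_) (h4.trans (by norm_num))
  have h5 : (Bk n j = Bk n k) ↔ j = k := (Bk_strictMono n).injective.eq_iff
  simp only [h5, if_neg (ne_first hm j)]
  by_cases hjk : j = k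
  · subst hjk
    have h6 := hK.1 j hj
    have h7 : q j ≠ m := by omega
    simp only [if_neg h7]
    by_cases h8 : q j = Bk n j <;> simp [h8]
  · by_cases h7 : q j = m
    · have h8 : q j ≠ Bk n k := by omega
      simp [h7, hjk, hmk.ne]
    · by_cases h8 : q j = Bk n k <;> simp [h7, h8, hjk, hmk.ne']

end TUP

theorem pr_TUP (h1 : LU.{u, v}) (h2 : NSM.{u}) : TUP.{u, v} := by
  intro X _ _ _ b n hb E _ _ _ e hJ
  have hn := (h2 X b n hb).1
  refine ⟨?_, fun m hm => ?_, fun m hm k hk => ?_⟩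
  · change ‖- e 0‖ ≤ 1
    rw [norm_neg, norm_e hn hJ]
  · refine h1 X b n hb E e hJ (dl e m) 1 zero_le_one ?_ fun p q hpq => ?_
    · have h3 : (fun j => t b e j (dl e m)) = fun j => if j = m then (1 : ℝ) else 0 :=
        funext fun j => t_dl hJ j m
      rw [h3]
      exact TUP.bound_one hm
    · rw [t_dl hJ, t_dl hJ]
      split_ifs <;> norm_num
  · refine h1 X b n hb E e hJ _ 2 zero_le_two ?_ fun p q hpq => ?_
    · have h3 : (fun j => t b e j (dl e m - dl e (Bk n k))) =
          fun j => (if j = m then (1 : ℝ) else 0) - (if j = Bk n k then 1 else 0) :=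
        funext fun j => by rw [map_sub, t_dl hJ, t_dl hJ]
      rw [h3]
      exact TUP.bound_two hm hk
    · rw [map_sub, map_sub, t_dl hJ, t_dl hJ, t_dl hJ, t_dl hJ]
      split_ifs <;> norm_num

end Pool.Agent.Work.MP_8db9c5_an.PG

end

section

set_option linter.unusedSectionVars false

open Topology Filter Set

open scoped ENNReal

namespace Pool.Agent.Work.MP_8db9c5_an.PG

namespace UPD

section generic

variable {A B W : Type} [NormedAddCommGroup A] [NormedSpace ℝ A] [NormedAddCommGroup B]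
  [NormedSpace ℝ B] [NormedAddCommGroup W] [NormedSpace ℝ W]

theorem gen (u : ℕ → A × B)
    (ha : ∀ y : A, ∃ (c : ℕ → ℝ) (f : ℕ → A) (m : ℕ → ℕ), HasSum (fun k => c k • f k) y ∧
      ∀ k, u (m k) = (f k, 0))
    (hb : ∀ p : B, ∃ g : ℕ → B, HasSum g p ∧ ∀ k, ∃ (d : ℕ) (c : Fin d → ℝ) (f : Fin d → B)
      (m : Fin d → ℕ), g k = ∑ i, c i • f i ∧ ∀ i, u (m i) = (0, f i)) :
    Dense (Submodule.span ℝ (Set.range u) : Set (A × B)) := by
  have hu : ∀ m, u m ∈ (Submodule.span ℝ (Set.range u)).topologicalClosure := fun m =>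
    Submodule.le_topologicalClosure _ (Submodule.subset_span ⟨m, rfl⟩)
  refine (Submodule.dense_iff_topologicalClosure_eq_top).2 ((Submodule.eq_top_iff').2 fun x => ?_)
  have h1 : x = (x.1, 0) + (0, x.2) := by
    rw [Prod.mk_add_mk, add_zero, zero_add]
  rw [h1]
  refine Submodule.add_mem _ ?_ ?_
  · obtain ⟨c, f, m, hs, hm⟩ := ha x.1
    have h2 := (ContinuousLinearMap.inl ℝ A B).hasSum hs
    refine (Submodule.isClosed_topologicalClosure _).mem_of_tendsto h2
      (Filter.Eventually.of_forall fun F => Submodule.sum_mem _ fun k _ => ?_)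
    have h3 : (ContinuousLinearMap.inl ℝ A B) (c k • f k) = c k • u (m k) := by
      rw [map_smul, hm, ContinuousLinearMap.inl_apply]
    rw [h3]
    exact Submodule.smul_mem _ _ (hu _)
  · obtain ⟨g, hs, hg⟩ := hb x.2
    have h2 := (ContinuousLinearMap.inr ℝ A B).hasSum hs
    refine (Submodule.isClosed_topologicalClosure _).mem_of_tendsto h2
      (Filter.Eventually.of_forall fun F => Submodule.sum_mem _ fun k _ => ?_)
    obtain ⟨d, c, f, m, h4, h5⟩ := hg k
    have h3 : (ContinuousLinearMap.inr ℝ A B) (g k) = ∑ i, c i • u (m i) := by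
      rw [h4, map_sum]
      refine Finset.sum_congr rfl fun i _ => ?_
      rw [map_smul, h5, ContinuousLinearMap.inr_apply]
    rw [h3]
    exact Submodule.sum_mem _ fun i _ => Submodule.smul_mem _ _ (hu _)

theorem gen2 (J : W →L[ℝ] B) {g : ℕ → W} {w : W} {p : B} (h : HasSum g w) (hp : J w = p) :
    HasSum (fun k => J (g k)) p := hp ▸ J.hasSum h

theorem gen3 {M : Type} [AddCommMonoid M] [Module ℝ M] {d : ℕ} (F : (Fin d → ℝ) →ₗ[ℝ] M)
    (v : Fin d → ℝ) : F v = ∑ i, v i • F (Pi.single i 1) := by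
  conv_lhs => rw [pi_eq_sum_univ v]
  rw [map_sum]
  refine Finset.sum_congr rfl fun i _ => ?_
  rw [map_smul]
  refine congrArg (fun x => v i • F x) ?_
  funext j
  by_cases h : i = j
  · subst h
    rw [if_pos rfl, Pi.single_eq_same]
  · rw [if_neg h, Pi.single_eq_of_ne (Ne.symm h)]

theorem gen4 (l : L2) : HasSum (fun k => l k • (lp.single 2 k 1 : L2)) l := by
  have h1 : HasSum (fun k => (lp.single 2 k (l k) : L2)) l := lp.hasSum_single (by norm_num) l
  have h2 : (fun k => l k • (lp.single 2 k 1 : L2)) = fun k => (lp.single 2 k (l k) : L2) := by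
    funext k
    rw [← lp.single_smul, smul_eq_mul, mul_one]
  rw [h2]
  exact h1

end generic

variable {n : ℕ → ℕ}

theorem mem_top (w : WP n) : Memℓp (fun k => (4 : ℝ) • w k) ∞ := by
  refine memℓp_infty ⟨4 * ‖w‖, ?_⟩
  rintro _ ⟨k, rfl⟩
  change ‖(4 : ℝ) • w k‖ ≤ 4 * ‖w‖
  rw [norm_smul, Real.norm_of_nonneg (by norm_num : (0 : ℝ) ≤ 4)]
  exact mul_le_mul_of_nonneg_left (lp.norm_apply_le_norm (by norm_num) w k) (by norm_num)

/-- four times the vector, in the `ℓ_∞`-sum -/
def zl (w : WP n) : ZP n := ⟨fun k => (4 : ℝ) • w k, mem_top w⟩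

theorem zl_apply (w : WP n) (k : ℕ) : zl w k = (4 : ℝ) • w k := rfl

theorem norm_zl (w : WP n) : ‖zl w‖ ≤ 4 * ‖w‖ := by
  refine lp.norm_le_of_forall_le (by positivity) fun k => ?_
  rw [zl_apply, norm_smul, Real.norm_of_nonneg (by norm_num : (0 : ℝ) ≤ 4)]
  exact mul_le_mul_of_nonneg_left (lp.norm_apply_le_norm (by norm_num) w k) (by norm_num)

/-- the map from `WP n` to `YP n` -/
def jf (w : WP n) : YP n := ⟨(zl w, w), fun k => by
  change w k = (4 : ℝ)⁻¹ • zl w k
  rw [zl_apply, smul_smul, inv_mul_cancel₀ (by norm_num), one_smul]⟩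

theorem jf_eq {w : WP n} {p : YP n} (h : ∀ k, (4 : ℝ) • w k = p.1.1 k) (h' : w = p.1.2) :
    jf w = p := Subtype.ext (Prod.ext (lp.ext (funext h)) h')

/-- the map from `WP n` to `YP n` as a linear map -/
def jl (n : ℕ → ℕ) : WP n →ₗ[ℝ] YP n where
  toFun := jf
  map_add' v w := jf_eq (fun k => smul_add (4 : ℝ) (v k) (w k)) rfl
  map_smul' c w := jf_eq (fun k => smul_comm (4 : ℝ) c (w k)) rfl

/-- the map from `WP n` to `YP n` -/
noncomputable def jc (n : ℕ → ℕ) : WP n →L[ℝ] YP n :=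
  (jl n).mkContinuous 4 fun w => by
    change max ‖zl w‖ ‖w‖ ≤ 4 * ‖w‖
    refine max_le (norm_zl w) ?_
    have := norm_nonneg w
    linarith

theorem jc_snd (p : YP n) : jc n p.1.2 = p := by
  refine jf_eq (fun k => ?_) rfl
  rw [p.2 k, smul_smul, mul_inv_cancel₀ (by norm_num), one_smul]

theorem jc_single (k : ℕ) (v : Fin (n k) → ℝ) :
    jf (lp.single 2 k ((4 : ℝ)⁻¹ • v)) = yP n k v := by
  refine jf_eq (fun j => ?_) rfl
  change (4 : ℝ) • (lp.single 2 k ((4 : ℝ)⁻¹ • v) : WP n) j = (lp.single ∞ k v : ZP n) j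
  by_cases h : j = k
  · subst h
    rw [lp.single_apply_self, lp.single_apply_self, smul_smul, mul_inv_cancel₀ (by norm_num),
      one_smul]
  · rw [lp.single_apply_ne _ _ _ h, lp.single_apply_ne _ _ _ h, smul_zero]

/-- the linear map `yP n k` -/
noncomputable def yl (n : ℕ → ℕ) (k : ℕ) : (Fin (n k) → ℝ) →ₗ[ℝ] YP n :=
  (jl n).comp ((lp.lsingle (𝕜 := ℝ) (E := fun k => Fin (n k) → ℝ) 2 k).comp
    ((4 : ℝ)⁻¹ • LinearMap.id))

theorem yl_apply (k : ℕ) (v : Fin (n k) → ℝ) : yl n k v = yP n k v := jc_single k v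

theorem blk_sum (p : YP n) (k : ℕ) : jc n (lp.single 2 k (p.1.2 k)) =
    ∑ i : Fin (n k), p.1.1 k i • yP n k (Pi.single i 1) := by
  have h1 := gen3 (yl n k) (p.1.1 k)
  simp only [yl_apply] at h1
  rw [← h1, p.2 k]
  exact jc_single k _

end UPD

theorem pr_UPD (_h : YPW) : UPD := by
  intro n
  refine UPD.gen (uP n) (fun y => ⟨fun k => y k, fun k => lp.single 2 k 1, Bk n, UPD.gen4 y,
    fun k => uP_Bk n k⟩) fun p => ⟨_, UPD.gen2 (UPD.jc n) (lp.hasSum_single (by norm_num) p.1.2)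
      (UPD.jc_snd p), fun k => ⟨n k, p.1.1 k, fun i => yP n k (Pi.single i 1),
        fun i => Bk n k + 1 + i, UPD.blk_sum p k, fun i => uP_add n k i⟩⟩

end Pool.Agent.Work.MP_8db9c5_an.PG

end

section

/-!
# Restricting the coefficients does not increase the norm in `XP n`
-/

set_option autoImplicit false

open Topology Filter Set

open scoped ENNReal

namespace Pool.Agent.Work.MP_8db9c5_an.PG

namespace UPM

theorem mx_mono (n : ℕ → ℕ) {a a' : ℕ → ℝ} (h : ∀ m, |a m| ≤ |a' m|) (k : ℕ) :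
    mx n a k ≤ mx n a' k := by
  unfold mx
  refine (pi_norm_le_iff_of_nonneg (norm_nonneg _)).2 fun i => ?_
  refine le_trans ?_ (norm_le_pi_norm (fun i : Fin (n k) => a' (Bk n k + 1 + i)) i)
  rw [Real.norm_eq_abs, Real.norm_eq_abs]
  exact h _

theorem mx_nonneg (n : ℕ → ℕ) (a : ℕ → ℝ) (k : ℕ) : 0 ≤ mx n a k := norm_nonneg _

theorem sum_ext_range (n : ℕ → ℕ) (a : ℕ → ℝ) (N : ℕ) :
    ∑ m ∈ Finset.range N, a m • uP n m =
      ∑ m ∈ Finset.range (Bk n N), (if m < N then a m else 0) • uP n m := by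
  have h1 : Finset.range N ⊆ Finset.range (Bk n N) :=
    Finset.range_subset_range.2 (le_Bk n N)
  rw [← Finset.sum_subset h1]
  · refine Finset.sum_congr rfl fun m hm => ?_
    rw [if_pos (Finset.mem_range.1 hm)]
  · intro m _ hm
    rw [if_neg (fun h => hm (Finset.mem_range.2 h)), zero_smul]

end UPM

open UPM in
theorem pr_UPM (h : UPN) : UPM := by
  intro n a N F
  rw [sum_ext_range n a N, sum_ext_range n (fun m => if m ∈ F then a m else 0) N, h, h]
  have h1 : ∀ m, |if m < N then (if m ∈ F then a m else 0) else 0| ≤ |if m < N then a m else 0| := by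
    intro m
    split_ifs
    · exact le_rfl
    · rw [abs_zero]
      exact abs_nonneg _
    · exact le_rfl
  have hmx := mx_mono n h1
  refine max_le_max ?_ (max_le_max ?_ ?_)
  · exact Real.sqrt_le_sqrt (Finset.sum_le_sum fun k _ => sq_le_sq.2 (h1 _))
  · refine (pi_norm_le_iff_of_nonneg (norm_nonneg _)).2 fun k => ?_
    refine le_trans ?_ (norm_le_pi_norm _ k)
    rw [Real.norm_of_nonneg (mx_nonneg n _ _), Real.norm_of_nonneg (mx_nonneg n _ _)]
    exact hmx k
  · refine div_le_div_of_nonneg_right (Real.sqrt_le_sqrt (Finset.sum_le_sum fun k _ => ?_))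
      (by norm_num)
    exact pow_le_pow_left₀ (mx_nonneg n _ _) (hmx k) 2

end Pool.Agent.Work.MP_8db9c5_an.PG

end

section

/-!
# Biorthogonality of the unit vectors and the coordinate functionals of `XP n`
-/

set_option autoImplicit false

open Topology Filter Set

open scoped ENNReal

namespace Pool.Agent.Work.MP_8db9c5_an.PG

namespace UPO

theorem cases' (n : ℕ → ℕ) (m : ℕ) :
    (∃ k, m = Bk n k) ∨ ∃ (k : ℕ) (i : Fin (n k)), m = Bk n k + 1 + i := by
  rcases blk_cases n m with h | ⟨i, h⟩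
  · exact Or.inl ⟨_, h⟩
  · exact Or.inr ⟨_, i, h⟩

theorem Bk_inj (n : ℕ → ℕ) {k l : ℕ} : Bk n k = Bk n l ↔ k = l :=
  (Bk_strictMono n).injective.eq_iff

theorem Bk_ne (n : ℕ → ℕ) (k l : ℕ) (i : Fin (n l)) : Bk n k ≠ Bk n l + 1 + i := by
  intro h
  have h1 : k = l := by
    rw [← blk_Bk n k, h, blk_add n i.2]
  subst h1
  omega

end UPO

open UPO in
theorem pr_UPO : UPO := by
  intro n i j
  rcases cases' n i with ⟨k, rfl⟩ | ⟨k, p, rfl⟩
  · rcases cases' n j with ⟨l, rfl⟩ | ⟨l, q, rfl⟩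
    · rw [cP_Bk, uP_Bk]
      by_cases h : k = l
      · subst h
        rw [if_pos rfl]
        exact lp.single_apply_self _ _ _
      · rw [if_neg (fun h' => h ((Bk_inj n).1 h'))]
        exact lp.single_apply_ne _ _ _ h
    · rw [cP_Bk, uP_add, if_neg (Bk_ne n k l q)]
      rfl
  · rcases cases' n j with ⟨l, rfl⟩ | ⟨l, q, rfl⟩
    · rw [cP_add, uP_Bk, if_neg (Bk_ne n l k p).symm]
      rfl
    · rw [cP_add, uP_add]
      change (yP n l (Pi.single q 1)).1.1 k p = _
      rw [yP_fst]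
      by_cases h : k = l
      · subst h
        rw [lp.single_apply_self]
        by_cases hpq : p = q
        · subst hpq
          rw [if_pos rfl, Pi.single_eq_same]
        · rw [if_neg (fun h' => hpq (Fin.ext (by omega))), Pi.single_eq_of_ne hpq]
      · rw [lp.single_apply_ne _ _ _ h, if_neg]
        · rfl
        · intro h'
          apply h
          rw [← blk_add n p.2, h', blk_add n q.2]

end Pool.Agent.Work.MP_8db9c5_an.PG

end

section

/-!
# Existence of the space
-/

open Topology Filter Set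

namespace Pool.Agent.Work.MP_8db9c5_an.PG

theorem pr_XEX (h1 : XPR) (h2 : UPO) (h3 : UPN) (h4 : UPD) (h5 : GBC) (h6 : UPM) : XEX := by
  intro n
  have hexp := h5 (XP n) (uP n) (cP n) (h2 n) (h4 n) (h6 n)
  let b : UnconditionalSchauderBasis ℕ ℝ (XP n) :=
    { basis := uP n
      coord := cP n
      ortho := fun i j => by
        rw [h2 n i j]
        by_cases hij : i = j
        · subst hij; simp
        · rw [if_neg hij]
          simp [Pi.single, Function.update, hij]
      expansion := hexp }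
  exact ⟨XP n, inferInstance, inferInstance, (h1 n).1, b, (h1 n).2, h3 n⟩

end Pool.Agent.Work.MP_8db9c5_an.PG

end

section

/-!
# `XP n` is complete and reflexive
-/

set_option linter.unusedSectionVars false

open Topology Filter Set

open scoped ENNReal

namespace Pool.Agent.Work.MP_8db9c5_an.PG

theorem pr_XPR (h1 : YPW) (h2 : LRD) (h3 : PRR) : XPR := by
  intro n
  obtain ⟨hc, ⟨L⟩⟩ := h1 n
  have hY : Function.Surjective (NormedSpace.inclusionInDoubleDual ℝ (YP n)) :=
    refl_of_equiv L (h2 fun k => Fin (n k) → ℝ)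
  refine ⟨inferInstance, ?_⟩
  exact h3 L2 (YP n) refl_hilbert hY

end Pool.Agent.Work.MP_8db9c5_an.PG

end

section

/-!
# `YP n` is complete and linearly homeomorphic to `WP n`
-/

set_option autoImplicit false

open Topology Filter Set

open scoped ENNReal

namespace Pool.Agent.Work.MP_8db9c5_an.PG

namespace YPW

lemma closed (n : ℕ → ℕ) : IsClosed (YP n : Set (ZP n × WP n)) := by
  have h : (YP n : Set (ZP n × WP n)) =
      ⋂ k : ℕ, {p : ZP n × WP n | p.2 k = (4 : ℝ)⁻¹ • p.1 k} := by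
    ext p
    rw [mem_iInter]
    exact Iff.rfl
  rw [h]
  refine isClosed_iInter fun k => ?_
  have h2 : Continuous fun p : ZP n × WP n => p.2 k :=
    (lp.lipschitzWith_one_eval (E := fun k => Fin (n k) → ℝ) 2 k).continuous.comp continuous_snd
  have h1 : Continuous fun p : ZP n × WP n => p.1 k :=
    (lp.lipschitzWith_one_eval (E := fun k => Fin (n k) → ℝ) ∞ k).continuous.comp continuous_fst
  exact isClosed_eq h2 (h1.const_smul (4 : ℝ)⁻¹)

lemma compl (n : ℕ → ℕ) : CompleteSpace (YP n) := (closed n).completeSpace_coe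

/-- the second coordinate -/
noncomputable def pr (n : ℕ → ℕ) : YP n →L[ℝ] WP n :=
  (ContinuousLinearMap.snd ℝ (ZP n) (WP n)).comp (YP n).subtypeL

/-- the inverse -/
noncomputable def inv (n : ℕ → ℕ) (w : WP n) : YP n :=
  ⟨(⟨fun k => (4 : ℝ) • w k, ((lp.memℓp w).of_exponent_ge le_top).const_smul (4 : ℝ)⟩, w), by
    intro k
    show w k = (4 : ℝ)⁻¹ • ((4 : ℝ) • w k)
    rw [smul_smul]
    norm_num⟩

lemma pr_inv (n : ℕ → ℕ) (w : WP n) : pr n (inv n w) = w := rfl

lemma pr_inj (n : ℕ → ℕ) : Function.Injective (pr n) := by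
  rw [injective_iff_map_eq_zero]
  intro p hp
  have h2 : p.1.2 = 0 := hp
  have h1 : p.1.1 = 0 := by
    ext k : 2
    have h := p.2 k
    have h3 : p.1.2 k = 0 := by rw [h2]; rfl
    have h4 : (4 : ℝ)⁻¹ • p.1.1 k = 0 := h.symm.trans h3
    have h5 : p.1.1 k = 0 := (smul_eq_zero_iff_right (by norm_num)).1 h4
    rw [h5]; rfl
  exact Subtype.ext (Prod.ext h1 h2)

end YPW

theorem pr_YPW : YPW := by
  intro n
  have h := YPW.compl n
  exact ⟨h, ⟨ContinuousLinearEquiv.ofBijective (YPW.pr n)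
    (LinearMap.ker_eq_bot.2 (YPW.pr_inj n))
    (LinearMap.range_eq_top.2 fun w => ⟨YPW.inv n w, YPW.pr_inv n w⟩)⟩⟩

end Pool.Agent.Work.MP_8db9c5_an.PG

end
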