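import Pool.Agent.Work.MP_8db9c5_an.FG.Stmts

/-! Bundle of small proof modules (one section per former module). -/

section

/-!
# Summation by parts
-/

namespace Pool.Agent.Work.MP_8db9c5_an.FG

theorem pr_ABL : ABL := by
  intro L w x
  induction L with
  | zero => simp
  | succ L ih =>
    rw [Finset.sum_range_succ, ih, Finset.sum_range_succ (fun i => w i * (x (L + 1) - x i))]
    have h1 : ∑ i ∈ Finset.range L, w i * (x (L + 1) - x i) =
        ∑ i ∈ Finset.range L, w i * (x L - x i) +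
          (∑ i ∈ Finset.range L, w i) * (x (L + 1) - x L) := by
      rw [Finset.sum_mul, ← Finset.sum_add_distrib]
      exact Finset.sum_congr rfl fun i _ => by ring
    rw [h1]
    unfold ps
    rw [Finset.sum_range_succ]
    ring

end Pool.Agent.Work.MP_8db9c5_an.FG

end

section

/-!
# Simple consequences of alternating weights
-/

namespace Pool.Agent.Work.MP_8db9c5_an.FG

namespace XALT

theorem pair {L : ℕ} {w : ℕ → ℝ} (h : Alt L w) {i j : ℕ} (hi : i < L) (hj : j < L)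
    (hij : i ≠ j) : |ps w i| + |ps w j| ≤ 1 := by
  obtain ⟨k, hk, hki, hkj⟩ : ∃ k < L, i ≠ k ∧ j ≠ k := by
    have h3 := h.three
    by_cases h0 : i ≠ 0 ∧ j ≠ 0
    · exact ⟨0, by omega, h0.1, h0.2⟩
    · by_cases h1 : i ≠ 1 ∧ j ≠ 1
      · exact ⟨1, by omega, h1.1, h1.2⟩
      · exact ⟨2, by omega, by omega, by omega⟩
  refine le_trans ?_ (h.small k hk)
  rw [← Finset.sum_pair (f := fun i => |ps w i|) hij]
  refine Finset.sum_le_sum_of_subset_of_nonneg ?_ fun _ _ _ => abs_nonneg _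
  intro x hx
  rw [Finset.mem_insert, Finset.mem_singleton] at hx
  rcases hx with rfl | rfl
  · exact Finset.mem_erase.2 ⟨hki, Finset.mem_range.2 hi⟩
  · exact Finset.mem_erase.2 ⟨hkj, Finset.mem_range.2 hj⟩

theorem le_one {L : ℕ} {w : ℕ → ℝ} (h : Alt L w) {i : ℕ} (hi : i < L) : |ps w i| ≤ 1 := by
  have h3 := h.three
  by_cases h0 : i = 0
  · have h1 := pair h hi (show 1 < L by omega) (by omega)
    linarith [abs_nonneg (ps w 1)]
  · have h1 := pair h hi (show 0 < L by omega) h0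
    linarith [abs_nonneg (ps w 0)]

theorem ps_zero (w : ℕ → ℝ) : ps w 0 = w 0 := by simp [ps]

theorem ps_succ (w : ℕ → ℝ) (i : ℕ) : ps w (i + 1) = ps w i + w (i + 1) := by
  unfold ps
  rw [Finset.sum_range_succ]

end XALT

open XALT in
theorem pr_ALT : ALT := by
  intro L w h
  have h3 := h.three
  have hmem : 0 ∈ Finset.range L := Finset.mem_range.2 (by omega)
  refine ⟨fun i hi => le_one h hi, ?_, ?_, ?_, ?_⟩
  · rw [← Finset.add_sum_erase _ _ hmem]
    linarith [le_one h (show 0 < L by omega), h.small 0 (by omega)]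
  · rw [← Finset.add_sum_erase _ _ hmem]
    have h1 : ∑ i ∈ (Finset.range L).erase 0, ps w i ^ 2 ≤
        ∑ i ∈ (Finset.range L).erase 0, (1 - |ps w 0|) * |ps w i| := by
      refine Finset.sum_le_sum fun i hi => ?_
      rw [Finset.mem_erase, Finset.mem_range] at hi
      have h2 := pair h hi.2 (show 0 < L by omega) hi.1
      rw [← sq_abs, sq]
      exact mul_le_mul_of_nonneg_right (by linarith) (abs_nonneg _)
    rw [← Finset.mul_sum] at h1
    have h4 := le_one h (show 0 < L by omega)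
    have h5 : (1 - |ps w 0|) * ∑ i ∈ (Finset.range L).erase 0, |ps w i| ≤ (1 - |ps w 0|) * 1 :=
      mul_le_mul_of_nonneg_left (h.small 0 (by omega)) (by linarith)
    have h6 : ps w 0 ^ 2 ≤ |ps w 0| := by
      rw [← sq_abs, sq]
      nlinarith [abs_nonneg (ps w 0)]
    linarith
  · intro i hi
    rcases i with _ | i
    · rw [← ps_zero w]
      exact le_one h hi
    · have h1 : w (i + 1) = ps w (i + 1) - ps w i := by rw [ps_succ]; ring
      rw [h1]
      refine (abs_sub _ _).trans ?_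
      exact pair h hi (by omega) (by omega)
  · have h1 : ∑ i ∈ Finset.range L, w i = ps w (L - 1) := by
      unfold ps
      rw [show L - 1 + 1 = L by omega]
    rw [h1]
    exact le_one h (by omega)

end Pool.Agent.Work.MP_8db9c5_an.FG

end

section

/-!
# Blocks of bounded length: the norm is equivalent to the `ℓ_2` norm
-/

set_option autoImplicit false

universe u v

namespace Pool.Agent.Work.MP_8db9c5_an.FG

theorem pr_EQV (X : Type u) [NormedAddCommGroup X] [NormedSpace ℝ X]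
    (b : UnconditionalSchauderBasis ℕ ℝ X) (n : ℕ → ℕ) (F : ℕ → Set (ℕ → ℝ)) (hb : FNorm b n F)
    (K : ℕ) (hK : ∀ k, n k ≤ K) (a : ℕ → ℝ) (N : ℕ) :
    ∑ m ∈ Finset.range N, a m ^ 2 ≤ (1 + 16 * K) * ‖∑ m ∈ Finset.range N, a m • b m‖ ^ 2 := by
  obtain ⟨a', ha'⟩ : ∃ a' : ℕ → ℝ, a' = fun m => if m < N then a m else 0 := ⟨_, rfl⟩
  have e1 : ∑ m ∈ Finset.range (Bk n N), a' m • b m = ∑ m ∈ Finset.range N, a m • b m := by
    rw [ha']
    exact PG.NLO.sum_ext _ a (le_Bk n N)
  have e2 : ∑ m ∈ Finset.range (Bk n N), a' m ^ 2 = ∑ m ∈ Finset.range N, a m ^ 2 := by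
    have hsub : Finset.range N ⊆ Finset.range (Bk n N) :=
      Finset.range_subset_range.2 (le_Bk n N)
    rw [← Finset.sum_subset hsub]
    · refine Finset.sum_congr rfl fun m hm => ?_
      rw [ha']
      simp only [if_pos (Finset.mem_range.1 hm)]
    · intro m _ hm
      rw [ha']
      simp only [if_neg fun h => hm (Finset.mem_range.2 h)]
      norm_num
  have h1 := ((hb a' N _).1 le_rfl).1
  rw [e1] at h1
  rw [← e2, PG.NUP.sbk n (fun m => a' m ^ 2) N, Finset.sum_add_distrib]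
  set R := ‖∑ m ∈ Finset.range N, a m • b m‖ with hR
  have hR0 : 0 ≤ R := norm_nonneg _
  have h2 : √(∑ k ∈ Finset.range N, a' (Bk n k) ^ 2) ≤ R := (le_max_left _ _).trans h1
  have h3 : √(∑ k ∈ Finset.range N, mx n a' k ^ 2) / 4 ≤ R :=
    (le_max_right _ _).trans ((le_max_right _ _).trans h1)
  have h4 : ∑ k ∈ Finset.range N, a' (Bk n k) ^ 2 ≤ R ^ 2 := (Real.sqrt_le_left hR0).1 h2
  have h5 : ∑ k ∈ Finset.range N, mx n a' k ^ 2 ≤ (4 * R) ^ 2 :=
    (Real.sqrt_le_left (by positivity)).1 (by linarith)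
  have h6 : ∑ k ∈ Finset.range N, ∑ i : Fin (n k), a' (Bk n k + 1 + i) ^ 2 ≤
      ∑ k ∈ Finset.range N, K * mx n a' k ^ 2 := by
    refine Finset.sum_le_sum fun k _ => ?_
    have h7 : ∑ i : Fin (n k), a' (Bk n k + 1 + i) ^ 2 ≤ ∑ _i : Fin (n k), mx n a' k ^ 2 := by
      refine Finset.sum_le_sum fun i _ => ?_
      have h8 := norm_le_pi_norm (fun i : Fin (n k) => a' (Bk n k + 1 + i)) i
      rw [Real.norm_eq_abs] at h8
      have h9 : |a' (Bk n k + 1 + i)| ≤ mx n a' k := h8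
      rw [← sq_abs]
      gcongr
    rw [Finset.sum_const, Finset.card_univ, Fintype.card_fin, nsmul_eq_mul] at h7
    have h10 : (n k : ℝ) ≤ K := by exact_mod_cast hK k
    nlinarith [sq_nonneg (mx n a' k)]
  rw [← Finset.mul_sum] at h6
  have hK0 : (0 : ℝ) ≤ K := Nat.cast_nonneg K
  nlinarith [mul_le_mul_of_nonneg_left h5 hK0]

end Pool.Agent.Work.MP_8db9c5_an.FG

end

section

/-!
# Block permutations give isometries
-/

set_option linter.unusedSectionVars false

open Topology Filter Set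

universe u v

namespace Pool.Agent.Work.MP_8db9c5_an.FG

namespace XFEP

theorem exists_clm_perm (hNPL : FNP.{u, v}) {X : Type u} [NormedAddCommGroup X]
    [NormedSpace ℝ X] [CompleteSpace X] {b : UnconditionalSchauderBasis ℕ ℝ X} {n : ℕ → ℕ}
    {F : ℕ → Set (ℕ → ℝ)} (hF : AltF n F) (hB : FNorm b n F) {E : Type v} [NormedAddCommGroup E] [NormedSpace ℝ E]
    [CompleteSpace E] {e : ℕ → E} (hJ : IsJamesification b.basis e) (π : Equiv.Perm ℕ)
    (hπ : FPerm n F π.symm) :
    ∃ Φ : E →L[ℝ] E, ∀ m z, t b e m (Φ z) = t b e (π.symm m) z := by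
  set y : ℕ → E := fun j => - ∑ m ∈ Finset.range (j + 1), dl e (π m) with hy
  have ht : ∀ m j, t b e m (y j) = t b e (π.symm m) (e j) := by
    intro m j
    rw [hy]
    simp only
    rw [map_neg, map_sum, t_basis hJ]
    by_cases h : j < π.symm m
    · rw [if_pos h, Finset.sum_eq_zero, neg_zero]
      intro m' hm'
      have := Finset.mem_range.1 hm'
      rw [t_dl hJ, if_neg]
      intro h2
      rw [h2, Equiv.symm_apply_apply] at h
      omega
    · rw [if_neg h, Finset.sum_eq_single_of_mem (π.symm m) (Finset.mem_range.2 (by omega)),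
        t_dl hJ, Equiv.apply_symm_apply, if_pos rfl]
      intro m' _ hm'
      rw [t_dl hJ, if_neg]
      intro h2
      exact hm' (by rw [h2, Equiv.symm_apply_apply])
  obtain ⟨Φ, h1, _⟩ := exists_clm hJ.dense y 1 fun a => by
    rw [one_mul]
    refine hNPL X b n F hF hB E e hJ π.symm hπ _ _ fun m => ?_
    rw [Finsupp.sum, Finsupp.sum, map_sum, map_sum]
    exact Finset.sum_congr rfl fun j _ => by rw [map_smul, map_smul, ht]
  refine ⟨Φ, fun m => ?_⟩
  have h2 : (t b e m).comp Φ = t b e (π.symm m) := clm_ext hJ.dense fun j => by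
    rw [ContinuousLinearMap.comp_apply, h1, ht]
  exact fun z => congrArg (fun f => f z) h2

end XFEP

open XFEP in
theorem pr_FEP (h : FNP.{u, v}) : FEP.{u, v} := by
  intro X _ _ _ b n F hF hB E _ _ _ e hJ π hπ hπ'
  obtain ⟨Φ, hΦ⟩ := exists_clm_perm h hF hB hJ π hπ'
  obtain ⟨Ψ, hΨ⟩ := exists_clm_perm h hF hB hJ π.symm (by rw [Equiv.symm_symm]; exact hπ)
  simp only [Equiv.symm_symm] at hΨ
  have h1 : ∀ z, Φ (Ψ z) = z := fun z => eq_of_t hJ fun m => by
    rw [hΦ, hΨ, Equiv.apply_symm_apply]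
  have h2 : ∀ z, Ψ (Φ z) = z := fun z => eq_of_t hJ fun m => by
    rw [hΨ, hΦ, Equiv.symm_apply_apply]
  have h3 : ∀ z, ‖Φ z‖ = ‖z‖ := fun z => by
    refine le_antisymm (h X b n F hF hB E e hJ π.symm hπ' _ _ fun m => hΦ m z) ?_
    refine h X b n F hF hB E e hJ π hπ _ _ fun m => ?_
    rw [hΦ, Equiv.symm_apply_apply]
  refine ⟨⟨LinearEquiv.ofLinearMap (Φ : E →ₗ[ℝ] E) (Ψ : E →ₗ[ℝ] E) (LinearMap.ext h1)
    (LinearMap.ext h2), h3⟩, fun m => ?_⟩
  change Φ (dl e m) = dl e (π m)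
  refine eq_of_t hJ fun k => ?_
  rw [hΦ, t_dl hJ, t_dl hJ]
  by_cases h5 : k = π m
  · rw [if_pos h5, if_pos (by rw [h5, Equiv.symm_apply_apply])]
  · rw [if_neg h5, if_neg]
    intro h4
    exact h5 (by rw [← h4, Equiv.apply_symm_apply])

end Pool.Agent.Work.MP_8db9c5_an.FG

end

section

/-!
# The structure of the isometries (item EXA)
-/

set_option linter.unusedSectionVars false

open Topology Filter Set

universe u v

namespace Pool.Agent.Work.MP_8db9c5_an.FG

theorem pr_FEX (h1 : FSM.{u}) (h2 : FTL.{u, v}) (h3 : FTU.{u, v}) (h4 : FOR.{u, v}) :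
    FEX.{u, v} := by
  intro X _ _ _ b n F hrefl hF hB E _ _ _ e hJ T
  obtain ⟨hn, hS⟩ := h1 X b n F hF hB
  obtain ⟨s, π, hs, hT⟩ := smooth_structure (b := b) hrefl hn hJ hS T
  have hs1 : |s| = 1 := by
    rcases hs with h | h <;> rw [h] <;> norm_num
  have hν : ∀ m, ‖dl e (π m)‖ = ‖dl e m‖ := by
    intro m
    have h := T.norm_map (dl e m)
    rw [hT, norm_smul, Real.norm_eq_abs, hs1, one_mul] at h
    exact h
  have hμ : ∀ m m', ‖dl e (π m) - dl e (π m')‖ = ‖dl e m - dl e m'‖ := by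
    intro m m'
    have h := T.norm_map (dl e m - dl e m')
    rw [map_sub, hT, hT, ← smul_sub, norm_smul, Real.norm_eq_abs, hs1, one_mul] at h
    exact h
  obtain ⟨l1, l2, l3⟩ := h2 X b n F hB E e hJ
  obtain ⟨u1, u2, u3⟩ := h3 X b n F hF hB E e hJ
  exact ⟨s, π, hs, PG.pr_CMB n (fun m => ‖dl e m‖) (fun m m' => ‖dl e m - dl e m'‖) π hν hμ
    (h4 X b n F hF hB E e hJ T s π hs hT) l1 u1 u2 l2 l3 u3, hT⟩

end Pool.Agent.Work.MP_8db9c5_an.FG

end

section

/-!
# The isometry group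
-/

set_option linter.unusedSectionVars false
set_option autoImplicit false

open Topology Filter Set

universe u v

namespace Pool.Agent.Work.MP_8db9c5_an.FG

namespace XFGR

theorem altF (h : WTA) (m : ℕ → ℕ) (H : ∀ k, Subgroup (Equiv.Perm (Fin (m k)))) :
    AltF (nn m) (FF m H) := by
  rintro k w ⟨h1, ρ, _, rfl⟩
  exact h (m k) ρ h1

end XFGR

open XFGR in
theorem pr_FGR (h0 : WTA) (h1 : FEP.{u, v}) (h2 : FEX.{u, v}) (h3 : TST.{u, v}) (h4 : PPH) :
    FGR.{u, v} := by
  intro m H X _ _ _ b hX hB E _ _ _ e hJ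
  have hF := altF h0 m H
  obtain ⟨P, hP1, hP2, hP3, hP4, hP5⟩ := h4 m H
  have hex : ∀ x : ℤˣ × (∀ k, H k), ∃ T : E ≃ₗᵢ[ℝ] E,
      ∀ p, T (dl e p) = ((x.1 : ℤ) : ℝ) • dl e (P x.2 p) := by
    rintro ⟨s, π⟩
    have hinv : FPerm (nn m) (FF m H) (P π).symm := by
      have := hP2 π⁻¹
      rwa [map_inv] at this
    obtain ⟨T, hT⟩ := h1 X b (nn m) (FF m H) hF hB E e hJ (P π) (hP2 π) hinv
    rcases Int.units_eq_one_or s with h | h
    · subst h
      exact ⟨T, fun p => by rw [hT]; simp⟩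
    · subst h
      exact ⟨T.trans (LinearIsometryEquiv.neg ℝ), fun p => by
        change - T (dl e p) = _
        rw [hT]; simp⟩
  choose Φ hΦ using hex
  have hmul : ∀ x y, Φ (x * y) = Φ x * Φ y := by
    intro x y
    refine iso_ext hJ fun p => ?_
    change Φ (x * y) (dl e p) = Φ x (Φ y (dl e p))
    rw [hΦ, hΦ, map_smul, hΦ, smul_smul]
    have h5 : P (x * y).2 p = P x.2 (P y.2 p) := by
      rw [Prod.snd_mul, map_mul]
      rfl
    rw [h5]
    congr 1
    simp [mul_comm]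
  have hinj : Function.Injective Φ := by
    rintro ⟨s, π⟩ ⟨s', π'⟩ h
    have hs : ((s : ℤ) : ℝ) ≠ 0 := by
      rcases Int.units_eq_one_or s with h | h <;> simp [h]
    have h5 : ∀ p, ((s : ℤ) : ℝ) • dl e (P π p) = ((s' : ℤ) : ℝ) • dl e (P π' p) := by
      intro p
      rw [← hΦ (s, π), ← hΦ (s', π'), h]
    have h6 := fun p => dl_ne hJ hs (h5 p)
    have h7 : s = s' := by
      have := (h6 0).2
      exact Units.ext (by exact_mod_cast this)
    have h8 : π = π' := hP1 (Equiv.ext fun p => (h6 p).1)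
    rw [h7, h8]
  have hsurj : Function.Surjective Φ := by
    intro T
    obtain ⟨s, ρ, hs, hρ, hT⟩ := h2 X b (nn m) (FF m H) hX hF hB E e hJ T
    obtain ⟨π, hπ⟩ := hP5 ρ hρ (h3 m H X b hB E e hJ T s ρ hs hρ hT)
    rcases hs with hs | hs
    · refine ⟨(1, π), iso_ext hJ fun p => ?_⟩
      rw [hΦ, hT, hπ, hs]
      simp
    · refine ⟨(-1, π), iso_ext hJ fun p => ?_⟩
      rw [hΦ, hT, hπ, hs]
      simp
  refine ⟨MulEquiv.ofBijective (MonoidHom.mk' Φ hmul) ⟨hinj, hsurj⟩, fun s π => ⟨?_, ?_⟩⟩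
  · intro k i
    change Φ (s, π) (dl e _) = _
    rw [hΦ, hP3]
  · intro p hp
    change Φ (s, π) (dl e p) = _
    rw [hΦ, hP4 π p hp]

end Pool.Agent.Work.MP_8db9c5_an.FG

end

section

/-!
# The functionals with the weights in `F` are bounded by the norm
-/

set_option linter.unusedSectionVars false

open Topology Filter Set

universe u v

namespace Pool.Agent.Work.MP_8db9c5_an.FG

namespace XFLB

/-- the code with the intervals `[s + i, s + i + 1)`, `i + 1 < L`, and `[s + L - 1, r)` -/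
def cc (s L r : ℕ) : ℕ → Option ℕ := fun j =>
  if s ≤ j ∧ j < r then some (min j (s + L - 1)) else none

theorem cc_eq_some {s L r j p : ℕ} :
    cc s L r j = some p ↔ (s ≤ j ∧ j < r) ∧ min j (s + L - 1) = p := by
  unfold cc
  split_ifs with h
  · simp [h]
  · simp [h]

theorem isCode_cc {s L r : ℕ} (hL : 0 < L) : IsCode (cc s L r) := by
  intro j p hj
  obtain ⟨⟨h1, h2⟩, h3⟩ := cc_eq_some.1 hj
  refine ⟨h3 ▸ min_le_left _ _, fun i hi1 hi2 => cc_eq_some.2 ⟨⟨?_, by omega⟩, ?_⟩⟩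
  · rcases le_total j (s + L - 1) with h | h
    · rw [min_eq_left h] at h3; omega
    · rw [min_eq_right h] at h3; omega
  · rcases le_total j (s + L - 1) with h | h
    · rw [min_eq_left h] at h3
      have : i = j := by omega
      rw [this, min_eq_left h, h3]
    · rw [min_eq_right h] at h3
      rw [min_eq_right (by omega), h3]

end XFLB

open XFLB in
theorem pr_FLB (h1 : FLO.{u}) (h2 : ABL) : FLB.{u, v} := by
  intro X _ _ _ b n F hb E _ _ _ e hJ z k w hw r hr
  rcases Nat.eq_zero_or_pos (n k) with hL | hL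
  · simp [wv, hL]
  set s := Bk n k + 1 with hs
  have hr' : s + n k ≤ r := by rw [Bk_succ] at hr; omega
  set c := cc s (n k) r with hc
  have hcode : IsCode c := isCode_cc hL
  have hnone : ∀ j, r ≤ j → c j = none := by
    intro j hj
    by_contra hcon
    obtain ⟨p, hp⟩ := Option.ne_none_iff_exists'.1 hcon
    have := (cc_eq_some.1 hp).1.2
    omega
  set x : ℕ → ℝ := fun i => if i < n k then t b e (s + i) z else t b e r z with hx
  have hcoord : ∀ i < n k, b.coord (s + i) (V b.basis e c z) = x (i + 1) - x i := by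
    intro i hi
    by_cases hi1 : i + 1 < n k
    · have hiff : ∀ j, (c j = some (s + i) ↔ s + i ≤ j ∧ j < s + i + 1) := by
        intro j
        rw [hc, cc_eq_some]
        constructor
        · rintro ⟨⟨h3, h4⟩, h5⟩
          rcases le_total j (s + n k - 1) with h | h
          · rw [min_eq_left h] at h5; omega
          · rw [min_eq_right h] at h5; omega
        · rintro ⟨h3, h4⟩
          refine ⟨⟨by omega, by omega⟩, ?_⟩
          rw [min_eq_left (by omega)]; omega
      rw [coord_V_fin hJ hcode (by omega) hiff, hx]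
      simp only [hi, hi1, if_true]
      rw [t_apply, t_apply, ← add_assoc]
      ring
    · have hiff : ∀ j, (c j = some (s + i) ↔ s + i ≤ j ∧ j < r) := by
        intro j
        rw [hc, cc_eq_some]
        constructor
        · rintro ⟨⟨h3, h4⟩, h5⟩
          rcases le_total j (s + n k - 1) with h | h
          · rw [min_eq_left h] at h5; omega
          · rw [min_eq_right h] at h5; omega
        · rintro ⟨h3, h4⟩
          refine ⟨⟨by omega, by omega⟩, ?_⟩
          rw [min_eq_right (by omega)]; omega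
      rw [coord_V_fin hJ hcode (by omega) hiff, hx]
      simp only [hi, hi1, if_true, if_false]
      rw [t_apply, t_apply]
      ring
  have h3 := (h1 X b n F hb (fun p => b.coord p (V b.basis e c z)) r).2.2 k hr w hw
  rw [← V_eq_sum hJ hcode hnone z] at h3
  have h4 : wv n k w (fun m => t b e m z) r =
      ∑ i ∈ Finset.range (n k), ps w i * (x (i + 1) - x i) := by
    rw [h2, wv]
    refine Finset.sum_congr rfl fun i hi => ?_
    have hi' := Finset.mem_range.1 hi
    simp only [hx, hi', if_true, lt_irrefl, if_false, hs]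
  rw [h4]
  calc |∑ i ∈ Finset.range (n k), ps w i * (x (i + 1) - x i)|
      ≤ ∑ i ∈ Finset.range (n k), |ps w i * (x (i + 1) - x i)| :=
        Finset.abs_sum_le_sum_abs _ _
    _ = ∑ i ∈ Finset.range (n k), |ps w i| * |b.coord (Bk n k + 1 + i) (V b.basis e c z)| := by
        refine Finset.sum_congr rfl fun i hi => ?_
        rw [abs_mul, ← hs, hcoord i (Finset.mem_range.1 hi)]
    _ ≤ ‖V b.basis e c z‖ := h3
    _ ≤ ‖z‖ := norm_V_le hJ hcode z

end Pool.Agent.Work.MP_8db9c5_an.FG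

end

section

/-!
# FLO: lower estimates
-/

set_option linter.unusedSectionVars false

open Topology Filter Set

universe u v

namespace Pool.Agent.Work.MP_8db9c5_an.FG

namespace XFLO

theorem sum_ext {X : Type u} [NormedAddCommGroup X] [NormedSpace ℝ X] (w : ℕ → X)
    (a : ℕ → ℝ) {N M : ℕ} (h : N ≤ M) :
    ∑ m ∈ Finset.range M, (if m < N then a m else 0) • w m = ∑ m ∈ Finset.range N, a m • w m := by
  rw [← Finset.sum_subset (Finset.range_mono h)]
  · refine Finset.sum_congr rfl fun m hm => ?_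
    rw [if_pos (Finset.mem_range.1 hm)]
  · intro m _ hm
    rw [Finset.mem_range] at hm
    rw [if_neg hm, zero_smul]

end XFLO

open XFLO in
theorem pr_FLO : FLO := by
  intro X _ _ b n F hB a N
  have hN := le_Bk n N
  set a' : ℕ → ℝ := fun m => if m < N then a m else 0 with ha'
  have hnorm := hB a' N ‖∑ m ∈ Finset.range N, a m • b m‖
  have hsum : ∑ m ∈ Finset.range (Bk n N), a' m • b m = ∑ m ∈ Finset.range N, a m • b m :=
    sum_ext _ a hN
  rw [hsum] at hnorm
  obtain ⟨hmax, hw⟩ := hnorm.1 le_rfl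
  have ha : ∀ m, m < N → a' m = a m := fun m hm => by rw [ha']; simp [hm]
  have h1 : √(∑ k ∈ Finset.range N, a' (Bk n k) ^ 2) ≤ ‖∑ m ∈ Finset.range N, a m • b m‖ :=
    le_trans (le_max_left _ _) hmax
  have h2 : ‖fun k : Fin N => mx n a' k‖ ≤ ‖∑ m ∈ Finset.range N, a m • b m‖ :=
    le_trans (le_trans (le_max_left _ _) (le_max_right _ _)) hmax
  refine ⟨?_, ?_, ?_⟩
  · intro m hm
    rcases blk_cases n m with h | ⟨i, h⟩
    · refine le_trans ?_ h1
      have hk : blk n m < N := lt_of_le_of_lt (le_Bk n _) (by rw [← h]; exact hm)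
      have h3 : |a m| = √(a' (Bk n (blk n m)) ^ 2) := by
        rw [← h, ha m hm, Real.sqrt_sq_eq_abs]
      rw [h3]
      apply Real.sqrt_le_sqrt
      exact Finset.single_le_sum (f := fun k => a' (Bk n k) ^ 2) (fun k _ => sq_nonneg _)
        (Finset.mem_range.2 hk)
    · refine le_trans ?_ h2
      have hk : blk n m < N :=
        lt_of_le_of_lt (le_Bk n _) (lt_of_le_of_lt (Bk_blk_le n m) hm)
      have h3 : |a m| ≤ mx n a' (blk n m) := by
        have h4 := norm_le_pi_norm (fun i : Fin (n (blk n m)) => a' (Bk n (blk n m) + 1 + i)) i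
        rw [← h, ha m hm, Real.norm_eq_abs] at h4
        exact h4
      have h5 := norm_le_pi_norm (fun k : Fin N => mx n a' k) ⟨blk n m, hk⟩
      exact h3.trans ((le_abs_self _).trans h5)
  · intro K hK
    have hKN : K ⊆ Finset.range N := fun k hk =>
      Finset.mem_range.2 (lt_of_le_of_lt (le_Bk n k) (hK k hk))
    calc ∑ k ∈ K, a (Bk n k) ^ 2 = ∑ k ∈ K, a' (Bk n k) ^ 2 :=
          Finset.sum_congr rfl fun k hk => by rw [ha _ (hK k hk)]
      _ ≤ ∑ k ∈ Finset.range N, a' (Bk n k) ^ 2 :=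
          Finset.sum_le_sum_of_subset_of_nonneg hKN fun k _ _ => sq_nonneg _
      _ = √(∑ k ∈ Finset.range N, a' (Bk n k) ^ 2) ^ 2 := by
          rw [Real.sq_sqrt (Finset.sum_nonneg fun k _ => sq_nonneg _)]
      _ ≤ _ := by
          have := Real.sqrt_nonneg (∑ k ∈ Finset.range N, a' (Bk n k) ^ 2)
          exact pow_le_pow_left₀ this h1 2
  · intro k hk w hwF
    have hkN : k < N := lt_of_lt_of_le (Nat.lt_succ_self k) ((le_Bk n (k + 1)).trans hk)
    refine le_trans (le_of_eq ?_) (hw k hkN w hwF)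
    refine Finset.sum_congr rfl fun i hi => ?_
    rw [Finset.mem_range] at hi
    have h3 : Bk n k + 1 + i < N := by
      have := Bk_succ n k
      omega
    rw [ha _ h3]

end Pool.Agent.Work.MP_8db9c5_an.FG

end

section

/-!
# The upper bound for the norm (alternating weights)
-/

universe u v

namespace Pool.Agent.Work.MP_8db9c5_an.FG

open Pool.Agent.Work.MP_8db9c5_an

namespace XFLU

theorem blk_bound (h1 : KEY) (h2 : ABL) (n : ℕ → ℕ) (F : ℕ → Set (ℕ → ℝ)) (hA : AltF n F)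
    (τ : ℕ → ℝ) (C : ℝ) (hC : 0 ≤ C) (hosc : ∀ p q, p < q → |τ q - τ p| ≤ C)
    (hW : WBound n F τ C) (a : ℕ → ℝ) (q : ℕ → ℕ) (hq1 : ∀ p, p ≤ q p)
    (hq2 : ∀ p, a p = τ (q p) - τ p) (hq3 : ∀ p p', p < p' → p' < q p' → q p ≤ p')
    (k : ℕ) (w : ℕ → ℝ) (hw : w ∈ F k) :
    ∑ i ∈ Finset.range (n k), |ps w i| * |a (Bk n k + 1 + i)| ≤ C := by
  have hne : ∀ p, a p ≠ 0 → p < q p := by
    intro p hp
    rcases (hq1 p).eq_or_lt with h | h
    · exfalso
      apply hp
      rw [hq2, ← h, sub_self]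
    · exact h
  have habs : ∀ p, |a p| ≤ C := by
    intro p
    by_cases h : a p = 0
    · rw [h, abs_zero]; exact hC
    · rw [hq2]; exact hosc _ _ (hne p h)
  refine h1 (n k) w (fun i => a (Bk n k + 1 + i)) C (hA k w hw) hC (fun i _ => habs _) ?_
  intro hne0
  have hlt : ∀ i, i < n k → Bk n k + 1 + i < q (Bk n k + 1 + i) := fun i hi => hne _ (hne0 i hi)
  have heq : ∀ i, i + 1 < n k → q (Bk n k + 1 + i) = Bk n k + 1 + (i + 1) := by
    intro i hi
    have h3 := hlt i (by omega)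
    have h4 := hq3 (Bk n k + 1 + i) (Bk n k + 1 + (i + 1)) (by omega) (hlt (i + 1) hi)
    omega
  refine ⟨fun i hi => ?_, ?_⟩
  · have h3 := hlt (i + 1) hi
    show |a (Bk n k + 1 + i) + a (Bk n k + 1 + (i + 1))| ≤ C
    rw [hq2 (Bk n k + 1 + i), hq2 (Bk n k + 1 + (i + 1)), heq i hi]
    have h4 : τ (Bk n k + 1 + (i + 1)) - τ (Bk n k + 1 + i) +
        (τ (q (Bk n k + 1 + (i + 1))) - τ (Bk n k + 1 + (i + 1))) =
          τ (q (Bk n k + 1 + (i + 1))) - τ (Bk n k + 1 + i) := by ring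
    rw [h4]
    exact hosc _ _ (by omega)
  · have hL : 3 ≤ n k := (hA k w hw).three
    set L := n k with hLdef
    set r := q (Bk n k + 1 + (L - 1)) with hr
    have hr' : Bk n (k + 1) ≤ r := by
      have h3 := hlt (L - 1) (by omega)
      rw [Bk_succ]
      omega
    set x : ℕ → ℝ := fun i => if i < L then τ (Bk n k + 1 + i) else τ r with hx
    have h3 : ∀ i ∈ Finset.range L, ps w i * a (Bk n k + 1 + i) = ps w i * (x (i + 1) - x i) := by
      intro i hi
      rw [Finset.mem_range] at hi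
      congr 1
      rw [hq2]
      by_cases h5 : i + 1 < L
      · simp only [hx, if_pos hi, if_pos h5]
        rw [heq i h5]
      · have h6 : i = L - 1 := by omega
        simp only [hx, if_pos hi, if_neg h5]
        rw [hr, ← h6]
    rw [Finset.sum_congr rfl h3, h2 L w x]
    have h4 : ∑ i ∈ Finset.range L, w i * (x L - x i) = wv n k w τ r := by
      unfold wv
      refine Finset.sum_congr rfl fun i hi => ?_
      rw [Finset.mem_range, ← hLdef] at hi
      simp only [hx, lt_irrefl, if_false, if_pos hi]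
    rw [h4]
    exact hW k w hw r hr'

end XFLU

theorem pr_FLU (h1 : KEY) (h2 : ABL) : FLU.{u, v} := by
  intro X _ _ _ b n F hA hBN E _ _ _ e hJ z C hC hB hosc hW
  refine le_of_forall_pos_le_add fun ε hε => ?_
  obtain ⟨r, hr, ⟨N0, hN0⟩, hlt⟩ := exists_near_code hJ z hε
  suffices hs : ‖V b.basis e r z‖ ≤ C by linarith
  have hN : ∀ j, Bk n N0 ≤ j → r j = none := fun j hj => hN0 j ((le_Bk n N0).trans hj)
  set a : ℕ → ℝ := fun m => b.coord m (V b.basis e r z) with ha
  have hcase : ∀ p, ∃ q, p ≤ q ∧ a p = t b e q z - t b e p z ∧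
      ∀ j, p ≤ j → j < q → r j = some p := by
    intro p
    rcases code_cases hr p with h1 | ⟨q, hpq, h1⟩ | h1
    · refine ⟨p, le_rfl, ?_, fun j h2 h3 => by omega⟩
      rw [sub_self]
      exact coord_V_none hJ hr h1 z
    · refine ⟨q, hpq.le, ?_, fun j h2 h3 => (h1 j).2 ⟨h2, h3⟩⟩
      have h2 := coord_V_fin hJ hr hpq h1 z
      rw [t_apply, t_apply]
      simp only [ha]
      rw [h2]
      ring
    · exfalso
      have h2 := (h1 (max (Bk n N0) p)).2 (le_max_right _ _)
      rw [hN _ (le_max_left _ _)] at h2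
      simp at h2
  choose q hq1 hq2 hq3 using hcase
  have hq4 : ∀ p p', p < p' → p' < q p' → q p ≤ p' := by
    intro p p' hpp' h4
    by_contra hcon
    have h5 := hq3 p p' hpp'.le (by omega)
    have h6 := hq3 p' p' le_rfl h4
    rw [h5] at h6
    simp only [Option.some.injEq] at h6
    omega
  rw [V_eq_sum hJ hr hN z]
  refine (hBN a N0 C).2 ⟨?_, fun k _ w hw => ?_⟩
  · exact PG.LU.key PG.pr_LC n (fun m => t b e m z) C hC hB hosc a q hq1 hq2 hq4 N0
  · exact XFLU.blk_bound h1 h2 n F hA (fun m => t b e m z) C hC hosc hW a q hq1 hq2 hq4 k w hw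

end Pool.Agent.Work.MP_8db9c5_an.FG

end

section

/-!
# Products of symmetric groups: block permutations do not increase the norm
-/

set_option autoImplicit false

universe u v

namespace Pool.Agent.Work.MP_8db9c5_an.FG

theorem pr_FNP (h1 : FLA.{u, v}) (h2 : FLU.{u, v}) (h4 : FSM.{u}) (h5 : FLB.{u, v}) (h6 : WIN) :
    FNP.{u, v} := by
  intro X _ _ _ b n F hF hb E _ _ _ e hJ ρ hρ w z hwz
  have hn := (h4 X b n F hF hb).1
  refine h2 X b n F hF hb E e hJ w ‖z‖ (norm_nonneg z) ?_ ?_ ?_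
  · have h := PG.pr_LI n (fun m => t b e m z) ‖z‖ ρ hρ.1 (h1 X b n F hb E e hJ z)
    have e1 : (fun m => t b e m w) = fun m => t b e (ρ m) z := funext hwz
    rw [e1]
    exact h
  · intro p q _
    rw [hwz, hwz, t_apply, t_apply, sub_sub_sub_cancel_right]
    rcases le_total (ρ p) (ρ q) with h | h
    · exact abs_S_sub_le hn hJ h z
    · rw [abs_sub_comm]
      exact abs_S_sub_le hn hJ h z
  · have h := h6 n F (fun m => t b e m z) ‖z‖ ρ hρ (h5 X b n F hb E e hJ z)
    have e1 : (fun m => t b e m w) = fun m => t b e (ρ m) z := funext hwz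
    rw [e1]
    exact h

end Pool.Agent.Work.MP_8db9c5_an.FG

end

section

/-!
# Upper bounds for the norms of the test vectors
-/

set_option linter.unusedSectionVars false

open Topology Filter Set

universe u v

namespace Pool.Agent.Work.MP_8db9c5_an.FG

namespace XFTU

theorem wv_eq (n : ℕ → ℕ) (k : ℕ) (w τ : ℕ → ℝ) (r : ℕ) :
    wv n k w τ r = τ r * ∑ i ∈ Finset.range (n k), w i -
      ∑ i ∈ Finset.range (n k), w i * τ (Bk n k + 1 + i) := by
  unfold wv
  rw [Finset.mul_sum, ← Finset.sum_sub_distrib]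
  exact Finset.sum_congr rfl fun i _ => by ring

/-- the functional at a unit vector -/
theorem wv_unit (h3 : ALT) {n : ℕ → ℕ} {F : ℕ → Set (ℕ → ℝ)} (hF : AltF n F) {k : ℕ} {w : ℕ → ℝ}
    (hw : w ∈ F k) {r : ℕ} (hr : Bk n (k + 1) ≤ r) (m : ℕ) :
    |wv n k w (fun j => if j = m then 1 else 0) r| ≤ 1 := by
  obtain ⟨_, _, _, h4, h5⟩ := h3 _ _ (hF k w hw)
  rw [wv_eq]
  have hs := Bk_succ n k
  by_cases hm : r = m
  · subst hm
    rw [if_pos rfl, one_mul, Finset.sum_eq_zero (s := Finset.range (n k))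
      (f := fun i => w i * (if Bk n k + 1 + i = r then (1 : ℝ) else 0)), sub_zero]
    · exact h5
    · intro i hi
      have := Finset.mem_range.1 hi
      rw [if_neg (by omega), mul_zero]
  · rw [if_neg hm, zero_mul, zero_sub, abs_neg]
    by_cases h : ∃ i < n k, Bk n k + 1 + i = m
    · obtain ⟨i, hi, rfl⟩ := h
      rw [Finset.sum_eq_single_of_mem i (Finset.mem_range.2 hi), if_pos rfl, mul_one]
      · exact h4 i hi
      · intro j _ hj
        rw [if_neg (by omega), mul_zero]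
    · rw [Finset.sum_eq_zero, abs_zero]
      · exact zero_le_one
      · intro i hi
        rw [if_neg fun h' => h ⟨i, Finset.mem_range.1 hi, h'⟩, mul_zero]

theorem wv_sub (n : ℕ → ℕ) (k : ℕ) (w τ τ' : ℕ → ℝ) (r : ℕ) :
    wv n k w (fun j => τ j - τ' j) r = wv n k w τ r - wv n k w τ' r := by
  unfold wv
  rw [← Finset.sum_sub_distrib]
  exact Finset.sum_congr rfl fun i _ => by ring

end XFTU

open XFTU in
theorem pr_FTU (h1 : FLU.{u, v}) (h2 : FSM.{u}) (h3 : ALT) : FTU.{u, v} := by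
  intro X _ _ _ b n F hF hb E _ _ _ e hJ
  have hn := (h2 X b n F hF hb).1
  refine ⟨?_, fun m hm => ?_, fun m hm k hk => ?_⟩
  · change ‖- e 0‖ ≤ 1
    rw [norm_neg, norm_e hn hJ]
  · have h4 : (fun j => t b e j (dl e m)) = fun j => if j = m then (1 : ℝ) else 0 :=
      funext fun j => t_dl hJ j m
    refine h1 X b n F hF hb E e hJ (dl e m) 1 zero_le_one ?_ (fun p q hpq => ?_) ?_
    · rw [h4]
      exact PG.TUP.bound_one hm
    · rw [t_dl hJ, t_dl hJ]
      split_ifs <;> norm_num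
    · rw [h4]
      exact fun k w hw r hr => wv_unit h3 hF hw hr m
  · have h4 : (fun j => t b e j (dl e m - dl e (Bk n k))) =
        fun j => (if j = m then (1 : ℝ) else 0) - (if j = Bk n k then 1 else 0) :=
      funext fun j => by rw [map_sub, t_dl hJ, t_dl hJ]
    refine h1 X b n F hF hb E e hJ _ 2 zero_le_two ?_ (fun p q hpq => ?_) ?_
    · rw [h4]
      exact PG.TUP.bound_two hm hk
    · rw [map_sub, map_sub, t_dl hJ, t_dl hJ, t_dl hJ, t_dl hJ]
      split_ifs <;> norm_num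
    · rw [h4]
      intro k' w hw r hr
      rw [wv_sub n k' w (fun j => if j = m then (1 : ℝ) else 0)
        (fun j => if j = Bk n k then (1 : ℝ) else 0) r]
      refine (abs_sub _ _).trans ?_
      have h5 := wv_unit h3 hF hw hr m
      have h6 := wv_unit h3 hF hw hr (Bk n k)
      linarith

end Pool.Agent.Work.MP_8db9c5_an.FG

end

section

/-!
# Products of permutation groups: the norm is a lattice norm
-/

set_option autoImplicit false

universe u v

namespace Pool.Agent.Work.MP_8db9c5_an.FG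

namespace XLAT

/-- extension by zero -/
theorem ext_zero {X : Type u} [NormedAddCommGroup X] [NormedSpace ℝ X] (b : ℕ → X) (n : ℕ → ℕ)
    (a : ℕ → ℝ) (N : ℕ) : ∑ m ∈ Finset.range N, a m • b m =
      ∑ m ∈ Finset.range (Bk n N), (if m < N then a m else 0) • b m := by
  have hsub : Finset.range N ⊆ Finset.range (Bk n N) :=
    Finset.range_subset_range.2 (le_Bk n N)
  have h1 : ∑ m ∈ Finset.range N, a m • b m =
      ∑ m ∈ Finset.range N, (if m < N then a m else 0) • b m := by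
    refine Finset.sum_congr rfl fun m hm => ?_
    rw [if_pos (Finset.mem_range.1 hm)]
  rw [h1]
  refine Finset.sum_subset hsub fun m _ hm => ?_
  rw [if_neg fun h => hm (Finset.mem_range.2 h), zero_smul]

theorem mx_mono (n : ℕ → ℕ) {a a' : ℕ → ℝ} (h : ∀ m, |a m| ≤ |a' m|) (k : ℕ) :
    mx n a k ≤ mx n a' k := by
  unfold mx
  refine (pi_norm_le_iff_of_nonneg (norm_nonneg _)).2 fun i => ?_
  exact (h _).trans (norm_le_pi_norm (fun i : Fin (n k) => a' (Bk n k + 1 + i)) i)

theorem mx_nonneg (n : ℕ → ℕ) (a : ℕ → ℝ) (k : ℕ) : 0 ≤ mx n a k := norm_nonneg _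

theorem bmax_mono (n : ℕ → ℕ) {a a' : ℕ → ℝ} (h : ∀ m, |a m| ≤ |a' m|) (N : ℕ) :
    bmax n a N ≤ bmax n a' N := by
  unfold bmax
  refine max_le_max (Real.sqrt_le_sqrt (Finset.sum_le_sum fun k _ => sq_le_sq.2 (h _)))
    (max_le_max ?_ ?_)
  · refine (pi_norm_le_iff_of_nonneg (norm_nonneg _)).2 fun k => ?_
    have h1 := norm_le_pi_norm (fun k : Fin N => mx n a' k) k
    rw [Real.norm_eq_abs, abs_of_nonneg (mx_nonneg n a k)]
    refine (mx_mono n h k).trans ((le_abs_self _).trans ?_)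
    rwa [Real.norm_eq_abs] at h1
  · refine div_le_div_of_nonneg_right (Real.sqrt_le_sqrt (Finset.sum_le_sum fun k _ => ?_))
      (by norm_num)
    exact pow_le_pow_left₀ (mx_nonneg n a k) (mx_mono n h k) 2

end XLAT

open XLAT in
theorem pr_LAT : LAT.{u} := by
  intro X _ _ b n F hF a a' N h
  rw [ext_zero b n a N, ext_zero b n a' N]
  obtain ⟨c, hc⟩ : ∃ c : ℕ → ℝ, c = fun m => if m < N then a m else 0 := ⟨_, rfl⟩
  obtain ⟨c', hc'⟩ : ∃ c' : ℕ → ℝ, c' = fun m => if m < N then a' m else 0 := ⟨_, rfl⟩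
  have hcc : ∀ m, |c m| ≤ |c' m| := by
    intro m
    rw [hc, hc']
    dsimp only
    split_ifs with hm
    · exact h m hm
    · exact le_rfl
  have e1 : ∑ m ∈ Finset.range (Bk n N), (if m < N then a m else 0) • b m =
      ∑ m ∈ Finset.range (Bk n N), c m • b m := by rw [hc]
  have e2 : ∑ m ∈ Finset.range (Bk n N), (if m < N then a' m else 0) • b m =
      ∑ m ∈ Finset.range (Bk n N), c' m • b m := by rw [hc']
  rw [e1, e2]
  obtain ⟨h1, h2⟩ := (hF c' N ‖∑ m ∈ Finset.range (Bk n N), c' m • b m‖).1 le_rfl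
  refine (hF c N _).2 ⟨(bmax_mono n hcc N).trans h1, fun k hk w hw => ?_⟩
  exact (Finset.sum_le_sum fun i _ =>
    mul_le_mul_of_nonneg_left (hcc _) (abs_nonneg _)).trans (h2 k hk w hw)

end Pool.Agent.Work.MP_8db9c5_an.FG

end

section

/-!
# The pairing of the weights with the test coefficients (item PAIR, helper10)
-/

namespace Pool.Agent.Work.MP_8db9c5_an.FG

namespace XPAIR

theorem sum_split (f : ℕ → ℝ) (m : ℕ) : ∑ i ∈ Finset.range (2 * m + 1), f i =
    ∑ t ∈ Finset.range (m + 1), f (2 * t) + ∑ t ∈ Finset.range m, f (2 * t + 1) := by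
  induction m with
  | zero => simp
  | succ m ih =>
    have e : 2 * (m + 1) + 1 = 2 * m + 1 + 1 + 1 := by ring
    rw [e, Finset.sum_range_succ, Finset.sum_range_succ, ih, Finset.sum_range_succ _ (m + 1),
      Finset.sum_range_succ (fun t => f (2 * t + 1)) m]
    have e2 : 2 * (m + 1) = 2 * m + 1 + 1 := by ring
    rw [e2]
    ring

theorem wt_even (m : ℕ) (σ : Equiv.Perm (Fin m)) (t : ℕ) : wt m σ (2 * t) = AA m - 1 - 2 * t := by
  have h : (2 * t) % 2 = 0 := by omega
  rw [wt, if_pos h]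
  push_cast
  ring

theorem wt_odd (m : ℕ) (σ : Equiv.Perm (Fin m)) (t : Fin m) :
    wt m σ (2 * (t : ℕ) + 1) = -(AA m + 2 * ((σ t : Fin m) : ℕ) + 1) := by
  have h : ¬ (2 * (t : ℕ) + 1) % 2 = 0 := by omega
  have h2 : (2 * (t : ℕ) + 1) / 2 = t := by omega
  have h3 : (2 * (t : ℕ) + 1) / 2 < m := by rw [h2]; exact t.2
  rw [wt, if_neg h, dif_pos h3]
  have h4 : (⟨(2 * (t : ℕ) + 1) / 2, h3⟩ : Fin m) = t := Fin.ext h2
  rw [h4]

theorem sum_wt (m : ℕ) (σ : Equiv.Perm (Fin m)) (φ : ℝ → ℝ) :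
    ∑ i ∈ Finset.range (2 * m + 1), φ (wt m σ i) =
      ∑ t ∈ Finset.range (m + 1), φ (AA m - 1 - 2 * (t : ℕ)) +
        ∑ t ∈ Finset.range m, φ (-(AA m + 2 * (t : ℕ) + 1)) := by
  rw [sum_split]
  congr 1
  · exact Finset.sum_congr rfl fun t _ => by rw [wt_even]
  · rw [Finset.sum_range, Finset.sum_range]
    have h : ∀ t : Fin m, φ (wt m σ (2 * (t : ℕ) + 1)) =
        (fun u : Fin m => φ (-(AA m + 2 * ((u : Fin m) : ℕ) + 1))) (σ t) := by
      intro t
      rw [wt_odd]
    rw [Finset.sum_congr rfl fun t _ => h t]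
    exact Equiv.sum_comp σ (fun u : Fin m => φ (-(AA m + 2 * ((u : Fin m) : ℕ) + 1)))

theorem sum_wtp (m : ℕ) (σ : Equiv.Perm (Fin m)) (p : ℕ → ℕ)
    (hp : Set.BijOn p (Set.Iio (2 * m + 1)) (Set.Iio (2 * m + 1))) (φ : ℝ → ℝ) :
    ∑ i ∈ Finset.range (2 * m + 1), φ (wt m σ (p i)) =
      ∑ t ∈ Finset.range (m + 1), φ (AA m - 1 - 2 * (t : ℕ)) +
        ∑ t ∈ Finset.range m, φ (-(AA m + 2 * (t : ℕ) + 1)) := by
  rw [← sum_wt m σ φ]
  have hc : ((Finset.range (2 * m + 1) : Finset ℕ) : Set ℕ) = Set.Iio (2 * m + 1) := by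
    ext x; simp
  refine Finset.sum_nbij p ?_ ?_ ?_ ?_
  · intro a ha
    have := hp.mapsTo (show a ∈ Set.Iio (2 * m + 1) from by simpa using ha)
    simpa using this
  · rw [hc]; exact hp.injOn
  · rw [hc]; exact hp.surjOn
  · intro a _
    rfl

theorem wt_int (m : ℕ) (σ : Equiv.Perm (Fin m)) (i : ℕ) : ∃ z : ℤ, wt m σ i = z := by
  unfold wt AA
  split_ifs with h h2
  · exact ⟨(2 * m + 2) ^ 2 - 1 - i, by push_cast; ring⟩
  · exact ⟨-((2 * m + 2) ^ 2 + 2 * ((σ ⟨i / 2, h2⟩ : Fin m) : ℕ) + 1), by push_cast; ring⟩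
  · exact ⟨0, by simp⟩

theorem AA_big (m : ℕ) (t : ℕ) (ht : t < m + 1) : (0 : ℝ) ≤ AA m - 1 - 2 * (t : ℕ) := by
  have h1 : (t : ℝ) ≤ m := by exact_mod_cast Nat.lt_succ_iff.mp ht
  have h2 : (0 : ℝ) ≤ m := by positivity
  unfold AA
  nlinarith [sq_nonneg (m : ℝ)]

theorem AA_neg (m : ℕ) (t : ℕ) : -(AA m + 2 * (t : ℕ) + 1) ≤ (0 : ℝ) := by
  have h1 : (0 : ℝ) ≤ t := by positivity
  unfold AA
  nlinarith [sq_nonneg (2 * (m : ℝ) + 2)]

theorem sum_lin (m : ℕ) : ∑ t ∈ Finset.range m, (AA m + 2 * (t : ℕ) + 1) = m * AA m + m ^ 2 := by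
  have h : ∀ (A : ℝ) (k : ℕ), ∑ t ∈ Finset.range k, (A + 2 * (t : ℕ) + 1) = k * A + k ^ 2 := by
    intro A k
    induction k with
    | zero => simp
    | succ k ih =>
      rw [Finset.sum_range_succ, ih]
      push_cast
      ring
  exact h (AA m) m

theorem WW_eq (m : ℕ) : WW m = (m + 1) * AA m - (m + 1) ^ 2 := by
  have h : ∀ (A : ℝ) (k : ℕ), ∑ t ∈ Finset.range k, (A - 1 - 2 * (t : ℕ)) = k * A - k ^ 2 := by
    intro A k
    induction k with
    | zero => simp
    | succ k ih =>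
      rw [Finset.sum_range_succ, ih]
      push_cast
      ring
  have h2 := h (AA m) (m + 1)
  unfold WW
  rw [h2]
  push_cast
  ring

end XPAIR

open XPAIR in
theorem pr_PAIR : PAIR := by
  intro m σ p ε hm hε hε1 hp
  by_cases hall : ∀ i < 2 * m + 1, wt m σ (p i) = wt m 1 i
  · exact Or.inl hall
  right
  push Not at hall
  obtain ⟨i₀, hi₀, hne⟩ := hall
  have hQ : ∑ i ∈ Finset.range (2 * m + 1), wt m σ (p i) ^ 2 =
      ∑ i ∈ Finset.range (2 * m + 1), wt m 1 i ^ 2 := by
    rw [sum_wtp m σ p hp (fun x => x ^ 2), sum_wt m 1 (fun x => x ^ 2)]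
  set Q := ∑ i ∈ Finset.range (2 * m + 1), wt m 1 i ^ 2 with hQdef
  -- the difference
  have hd : (1 : ℝ) ≤ ∑ i ∈ Finset.range (2 * m + 1), (wt m σ (p i) - wt m 1 i) ^ 2 := by
    have h1 : (wt m σ (p i₀) - wt m 1 i₀) ^ 2 ≤
        ∑ i ∈ Finset.range (2 * m + 1), (wt m σ (p i) - wt m 1 i) ^ 2 :=
      Finset.single_le_sum (f := fun i => (wt m σ (p i) - wt m 1 i) ^ 2)
        (fun i _ => sq_nonneg _) (Finset.mem_range.2 hi₀)
    obtain ⟨z, hz⟩ := wt_int m σ (p i₀)
    obtain ⟨z', hz'⟩ := wt_int m 1 i₀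
    rw [hz, hz'] at h1 hne
    have h2 : z - z' ≠ 0 := by
      intro h
      apply hne
      have : z = z' := by omega
      rw [this]
    have h3 : (1 : ℤ) ≤ (z - z') ^ 2 := by
      have := Int.one_le_abs h2
      rw [← sq_abs]
      nlinarith
    have h4 : (1 : ℝ) ≤ ((z : ℝ) - z') ^ 2 := by exact_mod_cast h3
    linarith
  have hexp : ∑ i ∈ Finset.range (2 * m + 1), (wt m σ (p i) - wt m 1 i) ^ 2 =
      2 * Q - 2 * ∑ i ∈ Finset.range (2 * m + 1), wt m σ (p i) * wt m 1 i := by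
    have : ∀ i ∈ Finset.range (2 * m + 1), (wt m σ (p i) - wt m 1 i) ^ 2 =
        wt m σ (p i) ^ 2 + wt m 1 i ^ 2 - 2 * (wt m σ (p i) * wt m 1 i) := fun i _ => by ring
    rw [Finset.sum_congr rfl this, Finset.sum_sub_distrib, Finset.sum_add_distrib, hQ,
      ← Finset.mul_sum]
    ring
  have hexp2 : (0 : ℝ) ≤ 2 * Q + 2 * ∑ i ∈ Finset.range (2 * m + 1), wt m σ (p i) * wt m 1 i := by
    have h0 : (0 : ℝ) ≤ ∑ i ∈ Finset.range (2 * m + 1), (wt m σ (p i) + wt m 1 i) ^ 2 :=
      Finset.sum_nonneg fun i _ => sq_nonneg _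
    have : ∀ i ∈ Finset.range (2 * m + 1), (wt m σ (p i) + wt m 1 i) ^ 2 =
        wt m σ (p i) ^ 2 + wt m 1 i ^ 2 + 2 * (wt m σ (p i) * wt m 1 i) := fun i _ => by ring
    rw [Finset.sum_congr rfl this, Finset.sum_add_distrib, Finset.sum_add_distrib, hQ,
      ← Finset.mul_sum] at h0
    linarith
  -- the even offsets
  have hup : ∑ i ∈ Finset.range (2 * m + 1), wt m σ (p i) * (if i % 2 = 0 then 1 else 0) ≤
      WW m := by
    have h1 : ∑ i ∈ Finset.range (2 * m + 1), wt m σ (p i) * (if i % 2 = 0 then 1 else 0) ≤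
        ∑ i ∈ Finset.range (2 * m + 1), max (wt m σ (p i)) 0 := by
      refine Finset.sum_le_sum fun i _ => ?_
      split_ifs
      · rw [mul_one]; exact le_max_left _ _
      · rw [mul_zero]; exact le_max_right _ _
    rw [sum_wtp m σ p hp (fun x => max x 0)] at h1
    have h2 : ∑ t ∈ Finset.range (m + 1), max (AA m - 1 - 2 * (t : ℕ)) 0 = WW m := by
      unfold WW
      refine Finset.sum_congr rfl fun t ht => ?_
      exact max_eq_left (AA_big m t (Finset.mem_range.1 ht))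
    have h3 : ∑ t ∈ Finset.range m, max (-(AA m + 2 * (t : ℕ) + 1)) (0 : ℝ) = 0 := by
      refine Finset.sum_eq_zero fun t _ => ?_
      exact max_eq_right (AA_neg m t)
    rw [h2, h3] at h1
    linarith
  have hlo : -∑ i ∈ Finset.range (2 * m + 1), wt m σ (p i) * (if i % 2 = 0 then 1 else 0) ≤
      WW m - 1 := by
    have h1 : ∑ i ∈ Finset.range (2 * m + 1), -(wt m σ (p i) * (if i % 2 = 0 then 1 else 0)) ≤
        ∑ i ∈ Finset.range (2 * m + 1), max (-wt m σ (p i)) 0 := by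
      refine Finset.sum_le_sum fun i _ => ?_
      split_ifs
      · rw [mul_one]; exact le_max_left _ _
      · rw [mul_zero, neg_zero]; exact le_max_right _ _
    rw [Finset.sum_neg_distrib, sum_wtp m σ p hp (fun x => max (-x) 0)] at h1
    have h2 : ∑ t ∈ Finset.range (m + 1), max (-(AA m - 1 - 2 * (t : ℕ))) (0 : ℝ) = 0 := by
      refine Finset.sum_eq_zero fun t ht => ?_
      exact max_eq_right (neg_nonpos.2 (AA_big m t (Finset.mem_range.1 ht)))
    have h3 : ∑ t ∈ Finset.range m, max (- -(AA m + 2 * (t : ℕ) + 1)) (0 : ℝ) =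
        m * AA m + m ^ 2 := by
      rw [← sum_lin]
      refine Finset.sum_congr rfl fun t _ => ?_
      rw [neg_neg]
      have := AA_neg m t
      exact max_eq_left (by linarith)
    rw [h2, h3] at h1
    have h4 : (1 : ℝ) ≤ AA m - (m + 1) ^ 2 - m ^ 2 := by
      unfold AA
      have : (0 : ℝ) ≤ m := by positivity
      nlinarith [sq_nonneg (m : ℝ)]
    rw [WW_eq]
    linarith
  have hsum : ∑ i ∈ Finset.range (2 * m + 1), wt m σ (p i) * ((if i % 2 = 0 then 1 else 0) +
      ε * wt m 1 i) =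
      ∑ i ∈ Finset.range (2 * m + 1), wt m σ (p i) * (if i % 2 = 0 then 1 else 0) +
        ε * ∑ i ∈ Finset.range (2 * m + 1), wt m σ (p i) * wt m 1 i := by
    rw [Finset.mul_sum, ← Finset.sum_add_distrib]
    exact Finset.sum_congr rfl fun i _ => by ring
  rw [hsum, abs_le]
  set S1 := ∑ i ∈ Finset.range (2 * m + 1), wt m σ (p i) * (if i % 2 = 0 then 1 else 0)
  set S2 := ∑ i ∈ Finset.range (2 * m + 1), wt m σ (p i) * wt m 1 i
  have h5 : S2 ≤ Q - 1 / 2 := by linarith
  have h6 : -Q ≤ S2 := by linarith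
  constructor
  · nlinarith [mul_le_mul_of_nonneg_left h6 hε.le]
  · nlinarith [mul_le_mul_of_nonneg_left h5 hε.le]

end Pool.Agent.Work.MP_8db9c5_an.FG

end

section

/-!
# Renorming by a seminorm
-/

set_option linter.unusedSectionVars false

open Topology Filter Set

namespace Pool.Agent.Work.MP_8db9c5_an.FG

namespace XRN

variable {X0 : Type} [NormedAddCommGroup X0] [NormedSpace ℝ X0]

/-- the space `X0` with the norm `max ‖x‖ (q x)` -/
def Ren (_ : Seminorm ℝ X0) : Type := X0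

variable (q : Seminorm ℝ X0)

noncomputable instance : AddCommGroup (Ren q) := inferInstanceAs (AddCommGroup X0)

noncomputable instance : Module ℝ (Ren q) := inferInstanceAs (Module ℝ X0)

/-- the identity -/
noncomputable def idl : X0 ≃ₗ[ℝ] Ren q := LinearEquiv.refl ℝ X0

noncomputable instance : Norm (Ren q) :=
  ⟨fun x => max ‖(idl q).symm x‖ (q ((idl q).symm x))⟩

theorem nrm (x : Ren q) : ‖x‖ = max ‖(idl q).symm x‖ (q ((idl q).symm x)) := rfl

theorem core : NormedSpace.Core ℝ (Ren q) where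
  norm_nonneg x := by
    rw [nrm]
    exact le_max_of_le_left (norm_nonneg _)
  norm_smul c x := by
    rw [nrm, nrm, map_smul, norm_smul, map_smul_eq_mul, mul_max_of_nonneg _ _ (norm_nonneg c)]
  norm_triangle x y := by
    rw [nrm, nrm, nrm, map_add]
    refine max_le ?_ ?_
    · exact (norm_add_le _ _).trans (add_le_add (le_max_left _ _) (le_max_left _ _))
    · exact (map_add_le_add q _ _).trans (add_le_add (le_max_right _ _) (le_max_right _ _))
  norm_eq_zero_iff x := by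
    rw [nrm]
    constructor
    · intro h
      have h1 : ‖(idl q).symm x‖ ≤ 0 := h ▸ le_max_left _ _
      have h2 : (idl q).symm x = 0 := norm_le_zero_iff.1 h1
      simpa using h2
    · rintro rfl
      simp

noncomputable instance : NormedAddCommGroup (Ren q) := NormedAddCommGroup.ofCore (core q)

noncomputable instance : NormedSpace ℝ (Ren q) := NormedSpace.ofCore (core q)

theorem nrm_le (h : ∀ x, q x ≤ 2 * ‖x‖) (x : X0) : ‖idl q x‖ ≤ 2 * ‖x‖ := by
  rw [nrm, LinearEquiv.symm_apply_apply]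
  refine max_le ?_ (h x)
  have := norm_nonneg x
  linarith

theorem le_nrm (x : Ren q) : ‖(idl q).symm x‖ ≤ 1 * ‖x‖ := by
  rw [nrm, one_mul]
  exact le_max_left _ _

/-- the identity is a linear homeomorphism -/
noncomputable def idL (h : ∀ x, q x ≤ 2 * ‖x‖) : X0 ≃L[ℝ] Ren q :=
  (idl q).toContinuousLinearEquivOfBounds 2 1 (nrm_le q h) (le_nrm q)

theorem idL_apply (h : ∀ x, q x ≤ 2 * ‖x‖) (x : X0) : idL q h x = idl q x := rfl

theorem complete [CompleteSpace X0] (h : ∀ x, q x ≤ 2 * ‖x‖) : CompleteSpace (Ren q) := by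
  have h1 : IsUniformEmbedding (idL q h).toEquiv := (idL q h).isUniformEmbedding
  exact (completeSpace_congr h1).1 inferInstance

/-- the basis of the renormed space -/
noncomputable def bas (h : ∀ x, q x ≤ 2 * ‖x‖) (b0 : UnconditionalSchauderBasis ℕ ℝ X0) :
    UnconditionalSchauderBasis ℕ ℝ (Ren q) where
  basis i := idL q h (b0 i)
  coord i := (b0.coord i).comp ((idL q h).symm : Ren q →L[ℝ] X0)
  ortho i j := by
    have h1 : (idL q h).symm (idL q h (b0 j)) = b0 j := (idL q h).symm_apply_apply _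
    change b0.coord i ((idL q h).symm (idL q h (b0 j))) = _
    rw [h1]
    exact b0.ortho i j
  expansion x := by
    have h1 := (b0.expansion ((idL q h).symm x)).mapL (idL q h : X0 →L[ℝ] Ren q)
    have h2 : (idL q h : X0 →L[ℝ] Ren q) ((idL q h).symm x) = x :=
      (idL q h).apply_symm_apply x
    rw [h2] at h1
    refine h1.congr_fun ?_
    intro i
    simp

end XRN

theorem pr_RN : RN := by
  intro X0 _ _ _ b0 q hq hr
  refine ⟨XRN.Ren q, inferInstance, inferInstance, XRN.complete q hq, XRN.bas q hq b0, ?_, ?_⟩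
  · exact refl_of_equiv (XRN.idL q hq).symm hr
  · intro a N
    have h1 : ∑ m ∈ Finset.range N, a m • (XRN.bas q hq b0) m =
        XRN.idl q (∑ m ∈ Finset.range N, a m • b0 m) := by
      rw [map_sum]
      refine Finset.sum_congr rfl fun m _ => ?_
      rw [map_smul]
      rfl
    rw [h1, XRN.nrm, LinearEquiv.symm_apply_apply]

end Pool.Agent.Work.MP_8db9c5_an.FG

end

section

/-!
# Existence of the space
-/

open Topology Filter Set

namespace Pool.Agent.Work.MP_8db9c5_an.FG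

theorem pr_SPX (h1 : RN) (h2 : SPQ) : SPX := by
  intro n F hF
  obtain ⟨X0, i1, i2, i3, b0, hX0, hb0⟩ := PG.all_XEX n
  obtain ⟨q, hq1, hq2⟩ := h2 X0 b0 n F hb0 hF
  obtain ⟨X, j1, j2, j3, b, hX, hb⟩ := h1 X0 b0 q hq1 hX0
  refine ⟨X, j1, j2, j3, b, hX, fun a N C => ?_⟩
  rw [hb, max_le_iff, hb0 a N]
  constructor
  · rintro ⟨h3, h4⟩
    have hC : 0 ≤ C := (apply_nonneg q _).trans h4
    exact ⟨h3, (hq2 a N C hC).1 h4⟩
  · rintro ⟨h3, h4⟩
    have hC : 0 ≤ C := le_trans (le_max_of_le_left (Real.sqrt_nonneg _)) h3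
    exact ⟨h3, (hq2 a N C hC).2 h4⟩

end Pool.Agent.Work.MP_8db9c5_an.FG

end

section

/-!
# The concrete weights are alternating
-/

set_option linter.unusedSectionVars false

open Topology Filter Set

namespace Pool.Agent.Work.MP_8db9c5_an.FG

namespace XWTA

/-- the values of the permutation -/
noncomputable def rr (m : ℕ) (ρ : Equiv.Perm (Fin m)) (j : ℕ) : ℝ :=
  if h : j < m then (((ρ ⟨j, h⟩ : Fin m) : ℕ) : ℝ) else 0

/-- the partial sums -/
noncomputable def RR (m : ℕ) (ρ : Equiv.Perm (Fin m)) (t : ℕ) : ℝ :=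
  ∑ j ∈ Finset.range t, (2 * rr m ρ j + 1)

lemma ps_zero (w : ℕ → ℝ) : ps w 0 = w 0 := by simp [ps]

lemma ps_succ (w : ℕ → ℝ) (i : ℕ) : ps w (i + 1) = ps w i + w (i + 1) := by
  simp only [ps]
  rw [Finset.sum_range_succ]

lemma wt_even (m : ℕ) (ρ : Equiv.Perm (Fin m)) (t : ℕ) :
    wt m ρ (2 * t) = AA m - 1 - 2 * t := by
  unfold wt
  rw [if_pos (by omega)]
  push_cast
  ring

lemma wt_odd (m : ℕ) (ρ : Equiv.Perm (Fin m)) (t : ℕ) (h : t < m) :
    wt m ρ (2 * t + 1) = -(AA m + 2 * rr m ρ t + 1) := by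
  unfold wt rr
  rw [if_neg (by omega)]
  have h2 : (2 * t + 1) / 2 = t := by omega
  simp only [h2, h, dif_pos]

lemma rr_nonneg (m : ℕ) (ρ : Equiv.Perm (Fin m)) (j : ℕ) : 0 ≤ rr m ρ j := by
  unfold rr
  split_ifs
  · positivity
  · exact le_refl _

lemma RR_succ (m : ℕ) (ρ : Equiv.Perm (Fin m)) (t : ℕ) :
    RR m ρ (t + 1) = RR m ρ t + (2 * rr m ρ t + 1) := by
  unfold RR
  rw [Finset.sum_range_succ]

lemma RR_mono (m : ℕ) (ρ : Equiv.Perm (Fin m)) : Monotone (RR m ρ) := by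
  apply monotone_nat_of_le_succ
  intro t
  rw [RR_succ]
  have := rr_nonneg m ρ t
  linarith

lemma RR_zero (m : ℕ) (ρ : Equiv.Perm (Fin m)) : RR m ρ 0 = 0 := by simp [RR]

lemma RR_one (m : ℕ) (ρ : Equiv.Perm (Fin m)) (t : ℕ) : 1 ≤ RR m ρ (t + 1) := by
  have h1 := RR_mono m ρ (show 1 ≤ t + 1 by omega)
  have h2 := RR_succ m ρ 0
  rw [RR_zero] at h2
  have h3 := rr_nonneg m ρ 0
  simp only [zero_add] at h2
  linarith

lemma sum_odd (m : ℕ) : ∑ j ∈ Finset.range m, (2 * (j : ℝ) + 1) = (m : ℝ) ^ 2 := by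
  induction m with
  | zero => simp
  | succ n ih => rw [Finset.sum_range_succ, ih]; push_cast; ring

lemma RR_m (m : ℕ) (ρ : Equiv.Perm (Fin m)) : RR m ρ m = (m : ℝ) ^ 2 := by
  rw [← sum_odd m]
  unfold RR
  rw [Finset.sum_range, Finset.sum_range]
  have h1 : ∀ i : Fin m, 2 * rr m ρ i + 1 = (fun j : Fin m => 2 * ((j : ℕ) : ℝ) + 1) (ρ i) := by
    intro i
    unfold rr
    simp only [i.isLt, dif_pos, Fin.eta]
  rw [Finset.sum_congr rfl (fun i _ => h1 i)]
  exact Equiv.sum_comp ρ (fun j : Fin m => 2 * ((j : ℕ) : ℝ) + 1)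

lemma ps_both (m : ℕ) (ρ : Equiv.Perm (Fin m)) (t : ℕ) :
    (t ≤ m → ps (wt m ρ) (2 * t) = AA m - (t + 1) ^ 2 - RR m ρ t) ∧
    (t < m → ps (wt m ρ) (2 * t + 1) = -(t + 1) ^ 2 - RR m ρ (t + 1)) := by
  induction t with
  | zero =>
    constructor
    · intro _
      have := wt_even m ρ 0
      simp only [mul_zero, Nat.cast_zero] at this ⊢
      rw [ps_zero, this, RR_zero]
      ring
    · intro h
      have h0 := wt_even m ρ 0
      have h1 := wt_odd m ρ 0 h
      rw [ps_succ]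
      simp only [mul_zero, Nat.cast_zero, zero_add] at h0 h1 ⊢
      have h2 := RR_succ m ρ 0
      simp only [zero_add] at h2
      rw [ps_zero, h0, h1, h2, RR_zero]
      ring
  | succ t ih =>
    have key : t + 1 ≤ m → ps (wt m ρ) (2 * (t + 1)) =
        AA m - ((t + 1 : ℕ) + 1) ^ 2 - RR m ρ (t + 1) := by
      intro h
      have h1 := ih.2 (by omega)
      have h2 := wt_even m ρ (t + 1)
      have e1 : 2 * (t + 1) = (2 * t + 1) + 1 := by ring
      rw [e1, ps_succ, h1, ← e1, h2]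
      push_cast
      ring
    refine ⟨fun h => ?_, fun h => ?_⟩
    · exact key h
    · rw [ps_succ, key (by omega), wt_odd m ρ (t + 1) h, RR_succ m ρ (t + 1)]
      push_cast
      ring

lemma even_ge (m : ℕ) (ρ : Equiv.Perm (Fin m)) (t : ℕ) (h : t ≤ m) :
    1 ≤ ps (wt m ρ) (2 * t) := by
  rw [(ps_both m ρ t).1 h]
  have h1 := RR_mono m ρ h
  rw [RR_m] at h1
  have h2 : (t : ℝ) ≤ m := by exact_mod_cast h
  have h3 : (0 : ℝ) ≤ t := by positivity
  have h4 : ((t : ℝ) + 1) ^ 2 ≤ ((m : ℝ) + 1) ^ 2 := by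
    apply pow_le_pow_left₀ (by positivity); linarith
  unfold AA
  have h5 : (0 : ℝ) ≤ m := by positivity
  nlinarith

lemma odd_le (m : ℕ) (ρ : Equiv.Perm (Fin m)) (t : ℕ) (h : t < m) :
    ps (wt m ρ) (2 * t + 1) ≤ -1 := by
  rw [(ps_both m ρ t).2 h]
  have h1 := RR_one m ρ t
  have h3 : (0 : ℝ) ≤ ((t : ℝ) + 1) ^ 2 := by positivity
  linarith

/-- the sign condition for the weights before the normalisation -/
lemma sg (m : ℕ) (ρ : Equiv.Perm (Fin m)) (i : ℕ) (h : i < 2 * m + 1) :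
    1 ≤ (-1) ^ i * ps (wt m ρ) i := by
  rcases Nat.even_or_odd' i with ⟨t, rfl | rfl⟩
  · have := even_ge m ρ t (by omega)
    rw [pow_mul]
    simpa using this
  · have := odd_le m ρ t (by omega)
    rw [pow_succ, pow_mul]
    simp only [even_two, Even.neg_pow, one_pow, one_mul, neg_mul]
    linarith

lemma abs_eq (m : ℕ) (ρ : Equiv.Perm (Fin m)) (i : ℕ) (h : i < 2 * m + 1) :
    |ps (wt m ρ) i| = (-1) ^ i * ps (wt m ρ) i := by
  have h1 := sg m ρ i h
  have h2 : |(-1 : ℝ) ^ i * ps (wt m ρ) i| = |ps (wt m ρ) i| := by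
    rw [abs_mul, abs_pow]
    simp
  rw [← h2, abs_of_pos (by linarith)]

lemma sum_aux (m : ℕ) (ρ : Equiv.Perm (Fin m)) (n : ℕ) :
    ∑ i ∈ Finset.range (2 * n + 1), (-1) ^ i * ps (wt m ρ) i =
      ∑ t ∈ Finset.range (n + 1), (AA m - 1 - 2 * t) := by
  induction n with
  | zero =>
    have h := wt_even m ρ 0
    simp only [mul_zero] at h
    simp [ps_zero, h]
  | succ n ih =>
    rw [show 2 * (n + 1) + 1 = (2 * n + 1) + 1 + 1 by ring, Finset.sum_range_succ,
      Finset.sum_range_succ, ih, Finset.sum_range_succ _ (n + 1)]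
    have h1 : ps (wt m ρ) (2 * n + 1 + 1) = ps (wt m ρ) (2 * n + 1) + (AA m - 1 - 2 * ((n + 1 : ℕ) : ℝ)) := by
      rw [ps_succ, show 2 * n + 1 + 1 = 2 * (n + 1) by ring, wt_even]
    rw [h1]
    have h2 : (-1 : ℝ) ^ (2 * n + 1) = -1 := by
      rw [pow_succ, pow_mul]; simp
    have h3 : (-1 : ℝ) ^ (2 * n + 1 + 1) = 1 := by
      rw [pow_succ, h2]; simp
    rw [h2, h3]
    ring

lemma sum_abs (m : ℕ) (ρ : Equiv.Perm (Fin m)) :
    ∑ i ∈ Finset.range (2 * m + 1), |ps (wt m ρ) i| = WW m := by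
  rw [Finset.sum_congr rfl (fun i hi => abs_eq m ρ i (Finset.mem_range.mp hi)), sum_aux]
  rfl

lemma WW_gt (m : ℕ) (h : 1 ≤ m) : 1 < WW m := by
  have h1 : ∀ t ∈ Finset.range (m + 1), (1 : ℝ) ≤ AA m - 1 - 2 * t := by
    intro t ht
    have : (t : ℝ) ≤ m := by
      have := Finset.mem_range.mp ht
      exact_mod_cast (by omega : t ≤ m)
    have h5 : (0 : ℝ) ≤ m := by positivity
    unfold AA
    nlinarith
  have h2 := Finset.sum_le_sum h1
  simp only [Finset.sum_const, Finset.card_range, nsmul_eq_mul, mul_one] at h2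
  unfold WW
  have h3 : (1 : ℝ) ≤ m := by exact_mod_cast h
  push_cast at h2
  linarith

lemma ps_wn (m : ℕ) (ρ : Equiv.Perm (Fin m)) (i : ℕ) :
    ps (wn m ρ) i = ps (wt m ρ) i / (WW m - 1) := by
  unfold ps wn
  rw [Finset.sum_div]

end XWTA

open XWTA in
theorem pr_WTA : WTA := by
  intro m ρ hm
  have hW := WW_gt m hm
  have hW0 : 0 < WW m - 1 := by linarith
  refine ⟨by omega, ?_, ?_⟩
  · intro i hi
    rw [ps_wn, ← mul_div_assoc]
    exact div_pos (by linarith [sg m ρ i hi]) hW0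
  · intro j hj
    have h1 : ∀ i, |ps (wn m ρ) i| = |ps (wt m ρ) i| / (WW m - 1) := by
      intro i
      rw [ps_wn, abs_div, abs_of_pos hW0]
    simp only [h1]
    rw [← Finset.sum_div, div_le_one hW0]
    have h2 := Finset.sum_erase_add (Finset.range (2 * m + 1)) (fun i => |ps (wt m ρ) i|)
      (Finset.mem_range.mpr hj)
    rw [sum_abs] at h2
    have h3 := sg m ρ j hj
    have h4 := abs_eq m ρ j hj
    linarith

end Pool.Agent.Work.MP_8db9c5_an.FG

end
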