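import Pool.Agent.Work.MP_8db9c5_an.FG.Stmts

/-! Bundle of small proof modules (one section per former module). -/

section

/-! MP_8db9c5_an, item BDS: bounds for the coefficients of the test vector. -/

namespace Pool.Agent.Work.MP_8db9c5_an.FG

namespace XBDS

theorem WW_eq (m : ℕ) : WW m = (m + 1) * (AA m - 1 - m) := by
  have h : ∀ (A : ℝ) (k : ℕ), ∑ t ∈ Finset.range k, (A - 1 - 2 * (t : ℝ)) = k * (A - k) := by
    intro A k
    induction k with
    | zero => simp
    | succ k ih => rw [Finset.sum_range_succ, ih]; push_cast; ring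
  unfold WW
  rw [h]
  push_cast
  ring

theorem sum_even (f : ℕ → ℝ) (k : ℕ) :
    ∑ i ∈ Finset.range (2 * k + 1), f i * (if i % 2 = 0 then 1 else 0) =
      ∑ t ∈ Finset.range (k + 1), f (2 * t) := by
  induction k with
  | zero => simp
  | succ k ih =>
    rw [show 2 * (k + 1) + 1 = 2 * k + 1 + 1 + 1 by ring, Finset.sum_range_succ,
      Finset.sum_range_succ, ih, Finset.sum_range_succ _ (k + 1), if_neg (by omega),
      if_pos (by omega), mul_zero, add_zero, mul_one]
    rfl

theorem AA_eq (m : ℕ) : AA m = 4 * (m : ℝ) ^ 2 + 8 * m + 4 := by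
  unfold AA
  ring

theorem key (m : ℕ) (hm : 1 ≤ m) : AA m + 2 * m + 1 ≤ WW m := by
  have h : (1 : ℝ) ≤ m := by exact_mod_cast hm
  rw [WW_eq, AA_eq]
  nlinarith [mul_nonneg (sub_nonneg.2 h) (sub_nonneg.2 h), mul_nonneg (sub_nonneg.2 h)
    (mul_nonneg (sub_nonneg.2 h) (sub_nonneg.2 h))]

theorem AA_ge (m : ℕ) : 4 * (m : ℝ) + 4 ≤ AA m := by
  rw [AA_eq]
  have h : (0 : ℝ) ≤ m := Nat.cast_nonneg m
  nlinarith [sq_nonneg (m : ℝ)]

end XBDS

theorem pr_BDS : BDS := by
  intro m hm
  have h0 : (1 : ℝ) ≤ m := by exact_mod_cast hm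
  have h1 := XBDS.key m hm
  have h2 := XBDS.AA_ge m
  refine ⟨by linarith, fun ρ i hi => ?_, ?_⟩
  · unfold wt
    have hi' : (i : ℝ) < 2 * m + 1 := by exact_mod_cast hi
    have hi0 : (0 : ℝ) ≤ i := Nat.cast_nonneg i
    split_ifs with h3 h4
    · rw [abs_le]
      constructor <;> linarith
    · have h5 : (((ρ ⟨i / 2, h4⟩ : Fin m) : ℕ) : ℝ) + 1 ≤ m := by
        exact_mod_cast (ρ ⟨i / 2, h4⟩).2
      have h6 : (0 : ℝ) ≤ (((ρ ⟨i / 2, h4⟩ : Fin m) : ℕ) : ℝ) := Nat.cast_nonneg _
      rw [abs_le]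
      constructor <;> linarith
    · rw [abs_zero]
      linarith
  · rw [XBDS.sum_even]
    unfold WW
    refine Finset.sum_congr rfl fun t _ => ?_
    unfold wt
    rw [if_pos (by omega)]
    push_cast
    ring

end Pool.Agent.Work.MP_8db9c5_an.FG

end

section

/-!
# The variation along intervals which start at the first positions of blocks
-/

set_option linter.unusedSectionVars false

open Topology Filter Set

open scoped ENNReal

universe u v

namespace Pool.Agent.Work.MP_8db9c5_an.FG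

open PG.LA in
theorem pr_FLA (h : FLO.{u}) : FLA.{u, v} := by
  intro X _ _ _ b n F hb E _ _ _ e hJ z K q hK
  set r := rc n K q with hr
  have hrc : IsCode r := isCode_rc hK
  set N := 1 + K.sup (fun k => max (q k) (Bk n k)) with hN
  have hle : ∀ k ∈ K, q k < N ∧ Bk n k < N := by
    intro k hk
    have h1 := Finset.le_sup (f := fun k => max (q k) (Bk n k)) hk
    have h2 := le_max_left (q k) (Bk n k)
    have h3 := le_max_right (q k) (Bk n k)
    constructor <;> omega
  have hnone : ∀ j, N ≤ j → r j = none := by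
    intro j hj
    by_contra hcon
    obtain ⟨p, hp⟩ := Option.ne_none_iff_exists'.1 hcon
    obtain ⟨k, hk, rfl, h1, h2⟩ := (rc_eq_some hK).1 hp
    have := (hle k hk).1
    omega
  have hcoord : ∀ k ∈ K, b.coord (Bk n k) (V b.basis e r z) =
      t b e (q k) z - t b e (Bk n k) z := by
    intro k hk
    have hiff : ∀ j, (r j = some (Bk n k) ↔ Bk n k ≤ j ∧ j < q k) := by
      intro j
      rw [hr, rc_eq_some hK]
      constructor
      · rintro ⟨k', hk', h1, h2, h3⟩
        have := (Bk_strictMono n).injective h1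
        subst this
        exact ⟨h2, h3⟩
      · rintro ⟨h1, h2⟩
        exact ⟨k, hk, rfl, h1, h2⟩
    rcases (hK.1 k hk).eq_or_lt with h1 | h1
    · rw [coord_V_none hJ hrc (fun j hj => by have := (hiff j).1 hj; omega), ← h1, sub_self]
    · rw [coord_V_fin hJ hrc h1 hiff, t_apply, t_apply]
      ring
  have h1 := (h X b n F hb (fun p => b.coord p (V b.basis e r z)) N).2.1 K fun k hk => (hle k hk).2
  rw [← V_eq_sum hJ hrc hnone z] at h1
  calc ∑ k ∈ K, (t b e (q k) z - t b e (Bk n k) z) ^ 2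
      = ∑ k ∈ K, (b.coord (Bk n k) (V b.basis e r z)) ^ 2 :=
        Finset.sum_congr rfl fun k hk => by rw [hcoord k hk]
    _ ≤ ‖V b.basis e r z‖ ^ 2 := h1
    _ ≤ ‖z‖ ^ 2 := by
        have := norm_V_le hJ hrc z
        gcongr

end Pool.Agent.Work.MP_8db9c5_an.FG

end

section

/-!
# The order of the first positions of the blocks is preserved
-/

universe u v

namespace Pool.Agent.Work.MP_8db9c5_an.FG

open Pool.Agent.Work.MP_8db9c5_an

theorem pr_FOR (h1 : FLA.{u, v}) (h2 : FSM.{u}) : FOR.{u, v} := by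
  intro X _ _ _ b n F hF hB E _ _ _ e hJ T s π hs hT k l hkl
  have hn := (h2 X b n F hF hB).1
  show π.symm (Bk n k) < π.symm (Bk n l)
  by_contra hcon
  have hBkl : Bk n k < Bk n l := Bk_strictMono n hkl
  have hne : π.symm (Bk n l) ≠ π.symm (Bk n k) := fun h => by
    have := π.symm.injective h
    omega
  have hlt : π.symm (Bk n l) < π.symm (Bk n k) := by omega
  set j := π.symm (Bk n l) with hj
  set z := T (e j) with hz
  have ht : ∀ p, t b e p z = if π.symm p ≤ j then -s else 0 := by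
    intro p
    rw [hz, PG.ORD.e_sum e j, map_neg, map_sum, map_neg, map_sum]
    have h3 : ∀ m ∈ Finset.range (j + 1), t b e p (T (dl e m)) =
        if m = π.symm p then s else 0 := by
      intro m _
      rw [hT, map_smul, t_dl hJ, smul_eq_mul]
      by_cases h : m = π.symm p
      · rw [if_pos h, if_pos (by rw [h, Equiv.apply_symm_apply]), mul_one]
      · rw [if_neg h, if_neg, mul_zero]
        intro h4
        exact h (by rw [h4, Equiv.symm_apply_apply])
    rw [Finset.sum_congr rfl h3, Finset.sum_ite_eq' ]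
    by_cases h : π.symm p ≤ j
    · rw [if_pos (Finset.mem_range.2 (by omega)), if_pos h]
    · rw [if_neg (by rw [Finset.mem_range]; omega), if_neg h, neg_zero]
  set M := (Finset.range (j + 1)).sup π + Bk n l + 1 with hM
  have hMj : ¬ π.symm M ≤ j := by
    intro h
    have h3 : π (π.symm M) ≤ (Finset.range (j + 1)).sup π :=
      Finset.le_sup (f := π) (Finset.mem_range.2 (by omega))
    rw [Equiv.apply_symm_apply] at h3
    omega
  have hkl' : l ≠ k := by omega
  have h4 := h1 X b n F hB E e hJ z {k, l} (fun i => if i = k then Bk n l else M) ?_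
  · rw [Finset.sum_pair (by omega)] at h4
    simp only [if_true, if_neg hkl', ht] at h4
    rw [if_pos le_rfl, if_neg (by omega), if_neg hMj, hz, T.norm_map, norm_e hn hJ] at h4
    rcases hs with h | h <;> rw [h] at h4 <;> norm_num at h4
  · constructor
    · intro i hi
      rcases Finset.mem_insert.1 hi with h | h
      · subst h; simp only [if_true]; exact hBkl.le
      · rw [Finset.mem_singleton.1 h]; simp only [if_neg hkl']; omega
    · intro i hi i' hi' hii'
      rcases Finset.mem_insert.1 hi with h | h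
      · subst h
        rcases Finset.mem_insert.1 hi' with h' | h'
        · omega
        · rw [Finset.mem_singleton.1 h']; simp
      · rcases Finset.mem_insert.1 hi' with h' | h'
        · rw [Finset.mem_singleton.1 h, h'] at hii'; omega
        · rw [Finset.mem_singleton.1 h, Finset.mem_singleton.1 h'] at hii'; omega

end Pool.Agent.Work.MP_8db9c5_an.FG

end

section

/-!
# Products of symmetric groups: the basis is normalised and smooth (item NSM)
-/

open Topology Filter Set

universe u v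

namespace Pool.Agent.Work.MP_8db9c5_an.FG

theorem pr_FSM (h1 : FUP.{u}) (h2 : FLO.{u}) : FSM.{u} := by
  intro X _ _ b n F hF hb
  refine ⟨fun i => ?_, ?_⟩
  · have hs : ∑ m ∈ Finset.range (i + 1), (if m = i then (1 : ℝ) else 0) • b m = b i := by
      simp only [ite_smul, zero_smul, one_smul]
      rw [Finset.sum_ite_eq', if_pos (Finset.mem_range.2 (Nat.lt_succ_self i))]
    have hq : ∑ m ∈ Finset.range (i + 1), (if m = i then (1 : ℝ) else 0) ^ 2 = 1 := by
      simp only [ite_pow, one_pow]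
      rw [Finset.sum_congr rfl (g := fun m => if m = i then (1 : ℝ) else 0)
        (fun m _ => by split_ifs <;> simp)]
      rw [Finset.sum_ite_eq', if_pos (Finset.mem_range.2 (Nat.lt_succ_self i))]
    have hu := h1 X b n F hF hb (fun m => if m = i then (1 : ℝ) else 0) (i + 1)
    have hl := (h2 X b n F hb (fun m => if m = i then (1 : ℝ) else 0) (i + 1)).1 i
      (Nat.lt_succ_self i)
    simp only [] at hu hl
    rw [hs, hq] at hu
    rw [hs] at hl
    simp only [if_true, abs_one] at hl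
    have h3 := norm_nonneg (b i)
    nlinarith
  · intro p i hip s hs
    have hs2 : s ^ 2 = 1 := by rcases hs with h | h <;> rw [h] <;> norm_num
    have key : ∀ M : ℝ, 0 < M → M ≤ ‖M • b p + s • b i‖ ∧
        ‖M • b p + s • b i‖ ^ 2 ≤ M ^ 2 + 1 := by
      intro M hM
      have hu := h1 X b n F hF hb
        (fun m => (if m = p then M else 0) + (if m = i then s else 0)) (p + 1)
      have hl := (h2 X b n F hb
        (fun m => (if m = p then M else 0) + (if m = i then s else 0)) (p + 1)).1 p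
        (Nat.lt_succ_self p)
      simp only [] at hu hl
      rw [PG.NSM.sum_two b hip, PG.NSM.sum_sq hip, hs2] at hu
      rw [PG.NSM.sum_two b hip, if_pos trivial, if_neg (by omega), add_zero] at hl
      exact ⟨(le_abs_self M).trans hl, hu⟩
    have hlim : Tendsto (fun M : ℝ => 1 / M) atTop (𝓝 0) := by
      simpa using tendsto_inv_atTop_zero (𝕜 := ℝ)
    refine tendsto_of_tendsto_of_tendsto_of_le_of_le' tendsto_const_nhds hlim ?_ ?_
    · filter_upwards [eventually_gt_atTop (0 : ℝ)] with M hM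
      have := (key M hM).1
      linarith
    · filter_upwards [eventually_gt_atTop (0 : ℝ)] with M hM
      obtain ⟨h3, h4⟩ := key M hM
      have h5 : 0 < 1 / M := by positivity
      have h6 : M * (1 / M) = 1 := by field_simp
      by_contra hcon
      push Not at hcon
      have h7 : M + 1 / M < ‖M • b p + s • b i‖ := by linarith
      nlinarith

end Pool.Agent.Work.MP_8db9c5_an.FG

end

section

/-!
# Products of symmetric groups: lower bounds for the test vectors
-/

set_option linter.unusedSectionVars false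
set_option autoImplicit false

open Topology Filter Set

universe u v

namespace Pool.Agent.Work.MP_8db9c5_an.FG

theorem pr_FTL (h : FLA.{u, v}) : FTL.{u, v} := by
  intro X _ _ _ b n F hB E _ _ _ e hJ
  have hlt : ∀ k, Bk n k < Bk n (k + 1) := fun k => Bk_strictMono n (Nat.lt_succ_self k)
  refine ⟨fun k => ?_, fun k => ?_, fun m hm k hk => ?_⟩
  · have h1 := PG.TLO.two (h X b n F hB E e hJ (dl e (Bk n (k + 1)))) (Nat.lt_succ_self k)
      (hlt k).le le_rfl (Nat.le_succ (Bk n (k + 1)))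
    simp only [t_dl hJ, if_true, if_neg (hlt k).ne, if_neg (Nat.succ_ne_self _)] at h1
    by_contra hcon
    have h2 := norm_nonneg (dl e (Bk n (k + 1)))
    nlinarith
  · have h1 := PG.TLO.two (h X b n F hB E e hJ (dl e 0 - dl e (Bk n (k + 1)))) (Nat.succ_pos k)
      (x := Bk n (k + 1)) (by rw [Bk_zero]; exact Nat.zero_le _) le_rfl
      (Nat.le_succ (Bk n (k + 1)))
    have h0 : Bk n (k + 1) ≠ 0 := by have := hlt k; omega
    simp only [map_sub, t_dl hJ, Bk_zero, if_true, if_neg h0, if_neg h0.symm,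
      if_neg (Nat.succ_ne_zero _), if_neg (Nat.succ_ne_self _)] at h1
    by_contra hcon
    have h2 := norm_nonneg (dl e 0 - dl e (Bk n (k + 1)))
    nlinarith
  · have hne : ∀ j, Bk n j ≠ m := by
      intro j hj
      apply hm
      rw [← hj, blk_Bk]
    have h1 := PG.TLO.two (h X b n F hB E e hJ (dl e m - dl e (Bk n (k + 1)))) (Nat.lt_succ_self k)
      (hlt k).le le_rfl ((Bk_le_iff n).2 hk)
    simp only [map_sub, t_dl hJ, if_true, if_neg (hne _), if_neg (hlt k).ne,
      if_neg (hne _).symm] at h1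
    by_contra hcon
    have h2 := norm_nonneg (dl e m - dl e (Bk n (k + 1)))
    nlinarith

end Pool.Agent.Work.MP_8db9c5_an.FG

end

section

/-!
# Products of permutation groups: the upper `ℓ_2` estimate
-/

set_option autoImplicit false

universe u v

namespace Pool.Agent.Work.MP_8db9c5_an.FG

namespace XFUP

/-- a sum over the first `N` blocks -/
theorem sbk (n : ℕ → ℕ) (f : ℕ → ℝ) (N : ℕ) :
    ∑ m ∈ Finset.range (Bk n N), f m =
      ∑ k ∈ Finset.range N, (f (Bk n k) + ∑ i : Fin (n k), f (Bk n k + 1 + i)) := by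
  induction N with
  | zero => simp
  | succ N ih =>
    rw [Finset.sum_range_succ (fun k => f (Bk n k) + ∑ i : Fin (n k), f (Bk n k + 1 + i)), ← ih,
      Bk_succ, show Bk n N + n N + 1 = (Bk n N + 1) + n N by ring, Finset.sum_range_add,
      Finset.sum_range_succ, Finset.sum_range (fun i => f (Bk n N + 1 + i)), add_assoc]

theorem mx_sq_le (n : ℕ → ℕ) (a : ℕ → ℝ) (k : ℕ) :
    mx n a k ^ 2 ≤ ∑ i : Fin (n k), a (Bk n k + 1 + i) ^ 2 := by
  have h0 : 0 ≤ ∑ i : Fin (n k), a (Bk n k + 1 + i) ^ 2 :=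
    Finset.sum_nonneg fun i _ => sq_nonneg _
  have h1 : mx n a k ≤ √(∑ i : Fin (n k), a (Bk n k + 1 + i) ^ 2) := by
    unfold mx
    rw [pi_norm_le_iff_of_nonneg (Real.sqrt_nonneg _)]
    intro i
    rw [Real.norm_eq_abs]
    refine Real.abs_le_sqrt ?_
    exact Finset.single_le_sum (f := fun i : Fin (n k) => a (Bk n k + 1 + i) ^ 2)
      (fun i _ => sq_nonneg _) (Finset.mem_univ i)
  calc mx n a k ^ 2 ≤ √(∑ i : Fin (n k), a (Bk n k + 1 + i) ^ 2) ^ 2 :=
        pow_le_pow_left₀ (norm_nonneg _) h1 2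
    _ = _ := Real.sq_sqrt h0

end XFUP

open XFUP in
theorem pr_FUP (h : ALT) : FUP.{u} := by
  intro X _ _ b n F hF hb a N
  obtain ⟨a', ha'⟩ : ∃ a' : ℕ → ℝ, a' = fun m => if m < N then a m else 0 := ⟨_, rfl⟩
  have hsub : Finset.range N ⊆ Finset.range (Bk n N) :=
    Finset.range_subset_range.2 (le_Bk n N)
  have e1 : ∑ m ∈ Finset.range N, a m • b m = ∑ m ∈ Finset.range (Bk n N), a' m • b m := by
    have h1 : ∑ m ∈ Finset.range N, a m • b m = ∑ m ∈ Finset.range N, a' m • b m := by
      refine Finset.sum_congr rfl fun m hm => ?_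
      rw [ha']
      simp only [if_pos (Finset.mem_range.1 hm)]
    rw [h1]
    refine Finset.sum_subset hsub fun m _ hm => ?_
    have h2 : a' m = 0 := by
      rw [ha']
      simp only [if_neg fun h => hm (Finset.mem_range.2 h)]
    rw [h2, zero_smul]
  have e2 : ∑ m ∈ Finset.range N, a m ^ 2 = ∑ m ∈ Finset.range (Bk n N), a' m ^ 2 := by
    have h1 : ∑ m ∈ Finset.range N, a m ^ 2 = ∑ m ∈ Finset.range N, a' m ^ 2 := by
      refine Finset.sum_congr rfl fun m hm => ?_
      rw [ha']
      simp only [if_pos (Finset.mem_range.1 hm)]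
    rw [h1]
    refine Finset.sum_subset hsub fun m _ hm => ?_
    have h2 : a' m = 0 := by
      rw [ha']
      simp only [if_neg fun h => hm (Finset.mem_range.2 h)]
    rw [h2]
    ring
  rw [e1, e2]
  obtain ⟨s, hs⟩ : ∃ s : ℝ, s = ∑ m ∈ Finset.range (Bk n N), a' m ^ 2 := ⟨_, rfl⟩
  have hs0 : 0 ≤ s := by
    rw [hs]
    exact Finset.sum_nonneg fun m _ => sq_nonneg _
  have hs1 := hs
  rw [sbk n (fun m => a' m ^ 2) N, Finset.sum_add_distrib] at hs1
  have hT : ∑ k ∈ Finset.range N, mx n a' k ^ 2 ≤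
      ∑ k ∈ Finset.range N, ∑ i : Fin (n k), a' (Bk n k + 1 + i) ^ 2 :=
    Finset.sum_le_sum fun k _ => mx_sq_le n a' k
  have hA : 0 ≤ ∑ k ∈ Finset.range N, a' (Bk n k) ^ 2 := Finset.sum_nonneg fun k _ => sq_nonneg _
  have hM : 0 ≤ ∑ k ∈ Finset.range N, mx n a' k ^ 2 := Finset.sum_nonneg fun k _ => sq_nonneg _
  have hle1 : ∑ k ∈ Finset.range N, a' (Bk n k) ^ 2 ≤ s := by linarith
  have hle2 : ∑ k ∈ Finset.range N, mx n a' k ^ 2 ≤ s := by linarith
  rw [← hs]
  have key : bmax n a' N ≤ √s := by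
    unfold bmax
    refine max_le (Real.sqrt_le_sqrt hle1) (max_le ?_ ?_)
    · rw [pi_norm_le_iff_of_nonneg (Real.sqrt_nonneg _)]
      intro k
      rw [Real.norm_eq_abs]
      refine Real.abs_le_sqrt (le_trans ?_ hle2)
      exact Finset.single_le_sum (f := fun k => mx n a' k ^ 2)
        (fun i _ => sq_nonneg _) (Finset.mem_range.2 k.2)
    · have h1 := Real.sqrt_le_sqrt hle2
      have h2 := Real.sqrt_nonneg (∑ k ∈ Finset.range N, mx n a' k ^ 2)
      linarith
  have key2 : ∀ k < N, ∀ w ∈ F k,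
      ∑ i ∈ Finset.range (n k), |ps w i| * |a' (Bk n k + 1 + i)| ≤ √s := by
    intro k hk w hw
    obtain ⟨-, -, h3, -, -⟩ := h (n k) w (hF k w hw)
    refine Real.le_sqrt_of_sq_le ?_
    have h4 : ∑ i ∈ Finset.range (n k), a' (Bk n k + 1 + i) ^ 2 ≤ s := by
      have h5 : ∑ i ∈ Finset.range (n k), a' (Bk n k + 1 + i) ^ 2 ≤
          ∑ k ∈ Finset.range N, ∑ i : Fin (n k), a' (Bk n k + 1 + i) ^ 2 := by
        rw [Finset.sum_range (fun i => a' (Bk n k + 1 + i) ^ 2)]
        exact Finset.single_le_sum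
          (f := fun k => ∑ i : Fin (n k), a' (Bk n k + 1 + i) ^ 2)
          (fun k _ => Finset.sum_nonneg fun i _ => sq_nonneg _) (Finset.mem_range.2 hk)
      linarith
    have h6 := Finset.sum_mul_sq_le_sq_mul_sq (Finset.range (n k)) (fun i => |ps w i|)
      (fun i => |a' (Bk n k + 1 + i)|)
    simp only [sq_abs] at h6
    have h7 : 0 ≤ ∑ i ∈ Finset.range (n k), a' (Bk n k + 1 + i) ^ 2 :=
      Finset.sum_nonneg fun i _ => sq_nonneg _
    nlinarith [mul_le_mul_of_nonneg_right h3 h7]
  calc _ ≤ √s ^ 2 := pow_le_pow_left₀ (norm_nonneg _) ((hb a' N (√s)).2 ⟨key, key2⟩) 2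
    _ = s := Real.sq_sqrt hs0

end Pool.Agent.Work.MP_8db9c5_an.FG

end

section

set_option autoImplicit false

namespace Pool.Agent.Work.MP_8db9c5_an.FG

namespace XKEY

/-- if `|a_j| * p_j` is absorbed by another term, the erased sum bounds the whole sum -/
theorem absorb {L j l : ℕ} (hj : j < L) (hl : l < L) (hjl : j ≠ l) {p b : ℕ → ℝ} {C : ℝ}
    (hp : ∀ i, 0 ≤ p i) (hC : 0 ≤ C) (hb : ∀ i < L, b i ≤ C)
    (h : p j * b j + p l * b l ≤ p l * C)
    (hs : ∑ i ∈ (Finset.range L).erase j, p i ≤ 1) :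
    ∑ i ∈ Finset.range L, p i * b i ≤ C := by
  have hjm : j ∈ Finset.range L := Finset.mem_range.2 hj
  have hlm : l ∈ (Finset.range L).erase j :=
    Finset.mem_erase.2 ⟨Ne.symm hjl, Finset.mem_range.2 hl⟩
  have e1 := Finset.add_sum_erase (Finset.range L) (fun i => p i * b i) hjm
  have e2 := Finset.add_sum_erase ((Finset.range L).erase j) (fun i => p i * b i) hlm
  have e3 := Finset.add_sum_erase ((Finset.range L).erase j) p hlm
  have h1 : ∑ i ∈ ((Finset.range L).erase j).erase l, p i * b i ≤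
      (∑ i ∈ ((Finset.range L).erase j).erase l, p i) * C := by
    rw [Finset.sum_mul]
    refine Finset.sum_le_sum fun i hi => ?_
    exact mul_le_mul_of_nonneg_left
      (hb i (Finset.mem_range.1 (Finset.mem_of_mem_erase (Finset.mem_of_mem_erase hi)))) (hp i)
  rw [← e1, ← e2]
  have h2 : (p l + ∑ i ∈ ((Finset.range L).erase j).erase l, p i) * C ≤ 1 * C := by
    rw [e3]
    exact mul_le_mul_of_nonneg_right hs hC
  nlinarith

end XKEY

open XKEY

theorem pr_KEY : KEY := by
  intro L w a C hA hC ha h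
  have hp : ∀ i, (0 : ℝ) ≤ |ps w i| := fun i => abs_nonneg _
  by_cases h0 : ∀ i < L, a i ≠ 0
  swap
  · push Not at h0
    obtain ⟨j, hj, h0⟩ := h0
    have h3 := hA.three
    obtain ⟨l, hl, hjl⟩ : ∃ l < L, j ≠ l := by
      by_cases h4 : j = 0
      · exact ⟨1, by omega, by omega⟩
      · exact ⟨0, by omega, h4⟩
    refine absorb hj hl hjl (p := fun i => |ps w i|) (b := fun i => |a i|) hp hC ha ?_
      (hA.small j hj)
    simp only [h0, abs_zero, mul_zero, zero_add]
    exact mul_le_mul_of_nonneg_left (ha l hl) (hp l)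
  obtain ⟨h1, h2⟩ := h h0
  by_cases h3 : ∃ i, i + 1 < L ∧ 0 < a i * a (i + 1)
  · obtain ⟨i, hi, h3⟩ := h3
    have h4 : |a i| + |a (i + 1)| ≤ C := by
      have h5 := h1 i hi
      rcases lt_or_gt_of_ne (h0 i (by omega)) with h6 | h6
      · have h7 : a (i + 1) < 0 := by
          by_contra h8
          push Not at h8
          nlinarith
        rw [abs_of_neg h6, abs_of_neg h7]
        rw [abs_of_neg (by linarith)] at h5
        linarith
      · have h7 : 0 < a (i + 1) := by
          by_contra h8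
          push Not at h8
          nlinarith
        rw [abs_of_pos h6, abs_of_pos h7]
        rw [abs_of_pos (by linarith)] at h5
        linarith
    rcases le_total |ps w i| |ps w (i + 1)| with h5 | h5
    · refine absorb (j := i) (l := i + 1) (by omega) hi (by omega) (p := fun i => |ps w i|)
        (b := fun i => |a i|) hp hC ha ?_ (hA.small i (by omega))
      have h6 : |ps w i| * |a i| ≤ |ps w (i + 1)| * |a i| :=
        mul_le_mul_of_nonneg_right h5 (abs_nonneg _)
      have h7 : |ps w (i + 1)| * (|a i| + |a (i + 1)|) ≤ |ps w (i + 1)| * C :=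
        mul_le_mul_of_nonneg_left h4 (hp _)
      linarith
    · refine absorb (j := i + 1) (l := i) hi (by omega) (by omega) (p := fun i => |ps w i|)
        (b := fun i => |a i|) hp hC ha ?_ (hA.small (i + 1) hi)
      have h6 : |ps w (i + 1)| * |a (i + 1)| ≤ |ps w i| * |a (i + 1)| :=
        mul_le_mul_of_nonneg_right h5 (abs_nonneg _)
      have h7 : |ps w i| * (|a i| + |a (i + 1)|) ≤ |ps w i| * C :=
        mul_le_mul_of_nonneg_left h4 (hp _)
      linarith
  · push Not at h3
    have h4 : ∀ i, i < L → 0 < (-1) ^ i * a i * a 0 := by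
      intro i
      induction i with
      | zero =>
        intro h
        rw [pow_zero, one_mul]
        exact mul_self_pos.2 (h0 0 h)
      | succ i ih =>
        intro hi
        have h5 := ih (by omega)
        have h6 : a i * a (i + 1) < 0 :=
          lt_of_le_of_ne (h3 i hi) (mul_ne_zero (h0 i (by omega)) (h0 (i + 1) hi))
        have h7 : ((-1) ^ (i + 1) * a (i + 1) * a 0) * ((-1) ^ i * a i * a 0) =
            ((-1) ^ i * (-1) ^ i) * (a 0 * a 0) * (-(a i * a (i + 1))) := by
          rw [pow_succ]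
          ring
        have h8 : (((-1 : ℝ)) ^ i * (-1) ^ i) = 1 := by
          rw [← mul_pow]
          norm_num
        rw [h8, one_mul] at h7
        have h9 : 0 < ((-1) ^ (i + 1) * a (i + 1) * a 0) * ((-1) ^ i * a i * a 0) := by
          rw [h7]
          exact mul_pos (mul_self_pos.2 (h0 0 (by omega))) (by linarith)
        exact (pos_iff_pos_of_mul_pos h9).2 h5
    have h5 : ∀ i < L, 0 < ps w i * a i * a 0 := by
      intro i hi
      have h6 := mul_pos (hA.sgn i hi) (h4 i hi)
      have h8 : (((-1 : ℝ)) ^ i * (-1) ^ i) = 1 := by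
        rw [← mul_pow]
        norm_num
      have h7 : (-1) ^ i * ps w i * ((-1) ^ i * a i * a 0) =
          ((-1) ^ i * (-1) ^ i) * (ps w i * a i * a 0) := by ring
      rwa [h7, h8, one_mul] at h6
    have hL := hA.three
    rcases lt_or_gt_of_ne (h0 0 (by omega)) with h6 | h6
    · have h7 : ∑ i ∈ Finset.range L, |ps w i| * |a i| =
          -∑ i ∈ Finset.range L, ps w i * a i := by
        rw [← Finset.sum_neg_distrib]
        refine Finset.sum_congr rfl fun i hi => ?_
        have h8 := h5 i (Finset.mem_range.1 hi)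
        have h9 : ps w i * a i < 0 := by
          by_contra h10
          push Not at h10
          nlinarith
        rw [← abs_mul, abs_of_neg h9]
      rw [h7]
      exact (neg_le_abs _).trans h2
    · have h7 : ∑ i ∈ Finset.range L, |ps w i| * |a i| =
          ∑ i ∈ Finset.range L, ps w i * a i := by
        refine Finset.sum_congr rfl fun i hi => ?_
        have h8 := h5 i (Finset.mem_range.1 hi)
        have h9 : 0 < ps w i * a i := by
          by_contra h10
          push Not at h10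
          nlinarith
        rw [← abs_mul, abs_of_pos h9]
      rw [h7]
      exact (le_abs_self _).trans h2

end Pool.Agent.Work.MP_8db9c5_an.FG

end

section

/-!
# The isometries act on the blocks by elements of `H k`
-/

set_option linter.unusedSectionVars false

open Topology Filter Set

universe u v

namespace Pool.Agent.Work.MP_8db9c5_an.FG

namespace XTST

variable {X : Type*} [NormedAddCommGroup X] [NormedSpace ℝ X] [CompleteSpace X]
variable {E : Type*} [NormedAddCommGroup E] [NormedSpace ℝ E] [CompleteSpace E]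

/-- `ρ` maps the position with the offset `i` to the one with the offset `off n k ρ i` -/
theorem off_spec (n : ℕ → ℕ) (ρ : Equiv.Perm ℕ) (hρ : BlockPerm n ρ) (k i : ℕ) (hi : i < n k) :
    off n k ρ i < n k ∧ ρ (Bk n k + 1 + i) = Bk n k + 1 + off n k ρ i := by
  have h1 := hρ.2 (Bk n k + 1 + i)
  rw [blk_add n hi] at h1
  have h2 : Bk n k ≤ ρ (Bk n k + 1 + i) := (Bk_le_iff n).2 h1.ge
  have h3 : ρ (Bk n k + 1 + i) < Bk n (k + 1) := (lt_Bk_iff n).2 (by omega)
  have h4 : ρ (Bk n k + 1 + i) ≠ Bk n k := by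
    intro h
    have := ρ.injective (h.trans (hρ.1 k).symm)
    omega
  rw [Bk_succ] at h3
  unfold off
  constructor <;> omega

theorem off_inj (n : ℕ → ℕ) (ρ : Equiv.Perm ℕ) (hρ : BlockPerm n ρ) (k : ℕ) {i j : ℕ}
    (hi : i < n k) (hj : j < n k) (hij : off n k ρ i = off n k ρ j) : i = j := by
  have h1 := (off_spec n ρ hρ k i hi).2
  rw [hij, ← (off_spec n ρ hρ k j hj).2] at h1
  have := ρ.injective h1
  omega

theorem off_image (n : ℕ → ℕ) (ρ : Equiv.Perm ℕ) (hρ : BlockPerm n ρ) (k : ℕ) :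
    (Finset.range (n k)).image (off n k ρ) = Finset.range (n k) := by
  have hinj : Set.InjOn (off n k ρ) (Finset.range (n k) : Finset ℕ) := by
    intro i hi j hj hij
    exact off_inj n ρ hρ k (Finset.mem_range.1 hi) (Finset.mem_range.1 hj) hij
  have hsub : (Finset.range (n k)).image (off n k ρ) ⊆ Finset.range (n k) := by
    intro j hj
    obtain ⟨i, hi, rfl⟩ := Finset.mem_image.1 hj
    exact Finset.mem_range.2 (off_spec n ρ hρ k i (Finset.mem_range.1 hi)).1
  exact Finset.eq_of_subset_of_card_le hsub (by rw [Finset.card_image_of_injOn hinj])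

theorem sum_off (n : ℕ → ℕ) (ρ : Equiv.Perm ℕ) (hρ : BlockPerm n ρ) (k : ℕ) (g : ℕ → ℝ) :
    ∑ i ∈ Finset.range (n k), g (off n k ρ i) = ∑ i ∈ Finset.range (n k), g i := by
  conv_rhs => rw [← off_image n ρ hρ k]
  rw [Finset.sum_image]
  intro i hi j hj hij
  exact off_inj n ρ hρ k (Finset.mem_range.1 hi) (Finset.mem_range.1 hj) hij

theorem off_bij (n : ℕ → ℕ) (ρ : Equiv.Perm ℕ) (hρ : BlockPerm n ρ) (k : ℕ) :
    Set.BijOn (off n k ρ) (Set.Iio (n k)) (Set.Iio (n k)) := by
  refine ⟨fun i hi => (off_spec n ρ hρ k i hi).1, fun i hi j hj hij =>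
    off_inj n ρ hρ k hi hj hij, fun j hj => ?_⟩
  have h : j ∈ (Finset.range (n k)).image (off n k ρ) := by
    rw [off_image n ρ hρ k]
    exact Finset.mem_range.2 hj
  obtain ⟨i, hi, h1⟩ := Finset.mem_image.1 h
  exact ⟨i, Finset.mem_range.1 hi, h1⟩

/-- the coordinates of a finite combination of the vectors `dl e (g i)` -/
theorem t_sum {b : UnconditionalSchauderBasis ℕ ℝ X} {e : ℕ → E}
    (hJ : IsJamesification b.basis e) (L : ℕ) (c : ℕ → ℝ) (g : ℕ → ℕ) (m : ℕ) :
    t b e m (∑ i ∈ Finset.range L, c i • dl e (g i)) =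
      ∑ i ∈ Finset.range L, if m = g i then c i else 0 := by
  rw [map_sum]
  refine Finset.sum_congr rfl fun i _ => ?_
  rw [map_smul, t_dl hJ, smul_eq_mul]
  split_ifs <;> simp

theorem t_sum_at {b : UnconditionalSchauderBasis ℕ ℝ X} {e : ℕ → E}
    (hJ : IsJamesification b.basis e) (L : ℕ) (c : ℕ → ℝ) (g : ℕ → ℕ)
    (hg : Function.Injective g) (j : ℕ) (hj : j < L) :
    t b e (g j) (∑ i ∈ Finset.range L, c i • dl e (g i)) = c j := by
  rw [t_sum hJ, Finset.sum_eq_single j]
  · rw [if_pos rfl]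
  · intro i _ hij
    rw [if_neg fun h => hij (hg h).symm]
  · intro h
    exact absurd (Finset.mem_range.2 hj) h

theorem t_sum_off {b : UnconditionalSchauderBasis ℕ ℝ X} {e : ℕ → E}
    (hJ : IsJamesification b.basis e) (L : ℕ) (c : ℕ → ℝ) (g : ℕ → ℕ) (m : ℕ)
    (hm : ∀ i < L, m ≠ g i) :
    t b e m (∑ i ∈ Finset.range L, c i • dl e (g i)) = 0 := by
  rw [t_sum hJ]
  refine Finset.sum_eq_zero fun i hi => ?_
  rw [if_neg (hm i (Finset.mem_range.1 hi))]

/-- the numerical end of the proof -/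
theorem num {W ε Q : ℝ} (hW : 1 < W) (hε : ε = 1 / (4 * W ^ 2)) (hQ : 0 ≤ Q) :
    max (1 + 2 * (ε * W)) ((W + ε * Q - ε / 2) / (W - 1)) < (W + ε * Q) / (W - 1) := by
  have h1 : 0 < W - 1 := by linarith
  have h2 : 0 < ε := by rw [hε]; positivity
  have h3 : 4 * W ^ 2 * ε = 1 := by
    rw [hε]
    field_simp
  refine max_lt ?_ ?_
  · rw [lt_div_iff₀ h1]
    nlinarith [mul_nonneg h2.le hQ, mul_pos h2 (by linarith : (0 : ℝ) < W)]
  · exact div_lt_div_of_pos_right (by linarith) h1

end XTST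

open XTST in
theorem pr_TST (h1 : FLB.{u, v}) (h2 : FLU.{u, v}) (h3 : PAIR) (h4 : BDS) (h5 : UPB)
    (h6 : WTA) : TST.{u, v} := by
  intro m H X _ _ _ b hF E _ _ _ e hJ T s π hs hπ hT k hk
  have hAlt : AltF (nn m) (FF m H) := by
    rintro k w ⟨hk, ρ, _, rfl⟩
    exact h6 (m k) ρ hk
  set n := nn m with hn
  have hnk : n k = 2 * m k + 1 := rfl
  obtain ⟨hW, hb, hsum⟩ := h4 (m k) hk
  set M := m k with hM
  set W := WW M with hWdef
  set ε : ℝ := 1 / (4 * W ^ 2) with hε
  have hW0 : 0 < W := by linarith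
  have hε0 : 0 < ε := by rw [hε]; positivity
  have hε1 : ε ≤ 1 := by
    rw [hε, div_le_one (by positivity)]
    nlinarith
  set Q : ℝ := ∑ i ∈ Finset.range (2 * M + 1), wt M 1 i ^ 2 with hQ
  have hQ0 : 0 ≤ Q := Finset.sum_nonneg fun i _ => sq_nonneg _
  have hnum := num hW hε hQ0
  set c : ℕ → ℝ := fun i => (if i % 2 = 0 then 1 else 0) + ε * wt M 1 i with hc
  set s0 := Bk n k + 1 with hs0
  by_contra hcon
  push Not at hcon
  -- bounds for `c`
  have hcb : ∀ i < 2 * M + 1, -(ε * W) ≤ c i ∧ c i ≤ 1 + ε * W := by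
    intro i hi
    have h := abs_le.1 (hb 1 i hi)
    have e1 : ε * wt M 1 i ≤ ε * W := mul_le_mul_of_nonneg_left h.2 hε0.le
    have e2 : ε * (-W) ≤ ε * wt M 1 i := mul_le_mul_of_nonneg_left h.1 hε0.le
    simp only [hc]
    split_ifs <;> constructor <;> linarith
  -- the pairing with `wt M 1`
  have hpair : ∑ i ∈ Finset.range (2 * M + 1), wt M 1 i * c i = W + ε * Q := by
    have e1 : ∀ i ∈ Finset.range (2 * M + 1), wt M 1 i * c i =
        wt M 1 i * (if i % 2 = 0 then 1 else 0) + ε * wt M 1 i ^ 2 := by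
      intro i _
      simp only [hc]
      ring
    rw [Finset.sum_congr rfl e1, Finset.sum_add_distrib, hsum, ← Finset.mul_sum]
  -- the first vector
  set z : E := ∑ i ∈ Finset.range (n k), c i • dl e (s0 + i) with hz
  have hlow : (W + ε * Q) / (W - 1) ≤ ‖z‖ := by
    have hw : wn M 1 ∈ FF m H k := ⟨hk, 1, (H k).one_mem, rfl⟩
    have e1 := h1 X b n (FF m H) hF E e hJ z k (wn M 1) hw (Bk n (k + 1)) le_rfl
    have e2 : wv n k (wn M 1) (fun p => t b e p z) (Bk n (k + 1)) =
        -((W + ε * Q) / (W - 1)) := by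
      unfold wv
      have e3 : t b e (Bk n (k + 1)) z = 0 := by
        refine t_sum_off hJ _ _ (fun i => s0 + i) _ fun i hi => ?_
        rw [Bk_succ]
        omega
      have e4 : ∀ i ∈ Finset.range (n k), wn M 1 i * (t b e (Bk n (k + 1)) z -
          t b e (Bk n k + 1 + i) z) = -(wt M 1 i * c i / (W - 1)) := by
        intro i hi
        have e5 : t b e (s0 + i) z = c i :=
          t_sum_at hJ _ _ (fun i => s0 + i) (fun a b h => by simpa using h) i
            (Finset.mem_range.1 hi)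
        rw [e3, ← hs0, e5]
        unfold wn
        rw [← hWdef]
        ring
      change ∑ i ∈ Finset.range (n k), wn M 1 i * (t b e (Bk n (k + 1)) z -
          t b e (Bk n k + 1 + i) z) = _
      rw [Finset.sum_congr rfl e4, Finset.sum_neg_distrib, ← Finset.sum_div, hnk, hpair]
    rw [e2, abs_neg] at e1
    exact (le_abs_self _).trans e1
  -- the second vector
  set z2 : E := ∑ i ∈ Finset.range (n k), c i • dl e (π (s0 + i)) with hz2
  have hTz : T z = s • z2 := by
    rw [hz, hz2, map_sum, Finset.smul_sum]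
    refine Finset.sum_congr rfl fun i _ => ?_
    rw [map_smul, hT, smul_comm]
  have hnorm : ‖z2‖ = ‖z‖ := by
    have e1 := T.norm_map z
    rw [hTz, norm_smul] at e1
    have e2 : ‖s‖ = 1 := by
      rcases hs with h | h <;> rw [h] <;> simp
    rw [e2, one_mul] at e1
    exact e1
  have hinj : Function.Injective fun i => π (s0 + i) := by
    intro a b h
    have := π.injective h
    omega
  have hat : ∀ i < n k, t b e (π (s0 + i)) z2 = c i := fun i hi =>
    t_sum_at hJ _ _ (fun i => π (s0 + i)) hinj i hi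
  have hzero : ∀ p, (∀ i < n k, p ≠ π (s0 + i)) → t b e p z2 = 0 := fun p hp =>
    t_sum_off hJ _ _ (fun i => π (s0 + i)) p hp
  set C : ℝ := max (1 + 2 * (ε * W)) ((W + ε * Q - ε / 2) / (W - 1)) with hC
  have hC0 : 0 ≤ C := le_max_of_le_left (by positivity)
  have hup := h5 n (FF m H) hAlt (fun p => t b e p z2) k (ε * W) C (by positivity)
    (fun p _ _ => by
      by_cases hp : ∃ i < n k, p = π (s0 + i)
      · obtain ⟨i, hi, rfl⟩ := hp
        change -(ε * W) ≤ t b e (π (s0 + i)) z2 ∧ t b e (π (s0 + i)) z2 ≤ 1 + ε * W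
        rw [hat i hi]
        exact hcb i hi
      · push Not at hp
        change -(ε * W) ≤ t b e p z2 ∧ t b e p z2 ≤ 1 + ε * W
        rw [hzero p hp]
        constructor <;> nlinarith [mul_pos hε0 hW0])
    (fun p hp => by
      refine hzero p fun i hi h => ?_
      have e1 : blk n (π (s0 + i)) = k := by
        rw [hπ.2, hs0, blk_add n hi]
      have e2 := (off_spec n π hπ k i hi).2
      rcases hp with hp | hp
      · rw [h] at hp
        exact hp e1
      · rw [hp, hs0, e2] at h
        omega)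
    (le_max_left _ _)
    (by
      rintro w ⟨_, σ, hσ, rfl⟩
      have e1 : ∑ i ∈ Finset.range (n k), wn M σ i * t b e (Bk n k + 1 + i) z2 =
          (∑ i ∈ Finset.range (2 * M + 1), wt M σ (off n k π i) * c i) / (W - 1) := by
        rw [← sum_off n π hπ k fun j => wn M σ j * t b e (Bk n k + 1 + j) z2, Finset.sum_div]
        refine Finset.sum_congr rfl fun i hi => ?_
        have hi' := Finset.mem_range.1 hi
        change wn M σ (off n k π i) * t b e (Bk n k + 1 + off n k π i) z2 = _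
        rw [← (off_spec n π hπ k i hi').2, ← hs0, hat i hi']
        unfold wn
        rw [← hWdef]
        ring
      change |∑ i ∈ Finset.range (n k), wn M σ i * t b e (Bk n k + 1 + i) z2| ≤ C
      rw [e1, abs_div, abs_of_pos (by linarith : 0 < W - 1)]
      refine le_max_of_le_right ?_
      refine div_le_div_of_nonneg_right ?_ (by linarith)
      rcases h3 M σ (off n k π) ε hk hε0 hε1 (off_bij n π hπ k) with h | h
      · obtain ⟨i, hi, hne⟩ := hcon σ hσ
        exact absurd (h i hi) hne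
      · exact h)
  have hle := h2 X b n (FF m H) hAlt hF E e hJ z2 C hC0 hup.1 hup.2.1 hup.2.2
  rw [hnorm] at hle
  exact absurd (hlow.trans hle) (not_le.2 hnum)

end Pool.Agent.Work.MP_8db9c5_an.FG

end

section

/-!
# The upper bound for the norm of a vector which lives on one block
-/

set_option linter.unusedSectionVars false

open Topology Filter Set

namespace Pool.Agent.Work.MP_8db9c5_an.FG

namespace XUPB

theorem tau_Bk {n : ℕ → ℕ} {τ : ℕ → ℝ} {k : ℕ}
    (h2 : ∀ m, (blk n m ≠ k ∨ m = Bk n k) → τ m = 0) (j : ℕ) : τ (Bk n j) = 0 := by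
  refine h2 _ ?_
  by_cases hj : j = k
  · right
    rw [hj]
  · left
    rwa [blk_Bk]

theorem bds {n : ℕ → ℕ} {τ : ℕ → ℝ} {k : ℕ} {B : ℝ} (hB : 0 ≤ B)
    (h1 : ∀ m, blk n m = k → m ≠ Bk n k → -B ≤ τ m ∧ τ m ≤ 1 + B)
    (h2 : ∀ m, (blk n m ≠ k ∨ m = Bk n k) → τ m = 0) (m : ℕ) : -B ≤ τ m ∧ τ m ≤ 1 + B := by
  by_cases hm : blk n m = k ∧ m ≠ Bk n k
  · exact h1 m hm.1 hm.2
  · have h3 : τ m = 0 := by
      refine h2 m ?_
      by_cases h4 : blk n m = k
      · right
        by_contra h5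
        exact hm ⟨h4, h5⟩
      · left
        exact h4
    rw [h3]
    constructor <;> linarith

theorem supp {n : ℕ → ℕ} {τ : ℕ → ℝ} {k : ℕ}
    (h2 : ∀ m, (blk n m ≠ k ∨ m = Bk n k) → τ m = 0) {m : ℕ} (hm : τ m ≠ 0) :
    blk n m = k ∧ m ≠ Bk n k := by
  constructor
  · by_contra h3
    exact hm (h2 m (Or.inl h3))
  · intro h3
    exact hm (h2 m (Or.inr h3))

theorem bbound {n : ℕ → ℕ} {τ : ℕ → ℝ} {k : ℕ} {B C : ℝ} (hB : 0 ≤ B)
    (h1 : ∀ m, blk n m = k → m ≠ Bk n k → -B ≤ τ m ∧ τ m ≤ 1 + B)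
    (h2 : ∀ m, (blk n m ≠ k ∨ m = Bk n k) → τ m = 0) (hC : 1 + 2 * B ≤ C) : BBound n τ C := by
  classical
  intro K q hK
  have hc := PG.TUP.card_le K (fun j => τ (q j) ≠ 0) fun j hj j' hj' h3 h4 h5 => by
    obtain ⟨h6, h7⟩ := supp h2 h3
    obtain ⟨h8, h9⟩ := supp h2 h4
    have h10 := hK.2 j hj j' hj' h5
    have h11 := hK.1 j' hj'
    have h12 : Bk n k ≤ q j := (Bk_le_iff n).2 (le_of_eq h6.symm)
    have h13 : Bk n k < Bk n j' := by omega
    have h14 : k < j' := (Bk_strictMono n).lt_iff_lt.1 h13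
    have h15 : j' ≤ blk n (q j') := (Bk_le_iff n).1 h11
    omega
  have h3 : ∀ j ∈ K, (τ (q j) - τ (Bk n j)) ^ 2 ≤
      (if τ (q j) ≠ 0 then (1 : ℝ) else 0) * (1 + B) ^ 2 := by
    intro j hj
    rw [tau_Bk h2 j, sub_zero]
    by_cases h4 : τ (q j) = 0
    · simp [h4]
    · rw [if_pos h4, one_mul]
      obtain ⟨h5, h6⟩ := bds hB h1 h2 (q j)
      exact sq_le_sq' (by linarith) h6
  refine (Finset.sum_le_sum h3).trans ?_
  rw [← Finset.sum_mul]
  have h4 : (1 + B) ^ 2 ≤ C ^ 2 := by
    apply pow_le_pow_left₀ (by linarith)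
    linarith
  have h5 : (∑ j ∈ K, if τ (q j) ≠ 0 then (1 : ℝ) else 0) * (1 + B) ^ 2 ≤ 1 * (1 + B) ^ 2 :=
    mul_le_mul_of_nonneg_right hc (sq_nonneg _)
  linarith

theorem wbound (h : ALT) {n : ℕ → ℕ} {F : ℕ → Set (ℕ → ℝ)} (hF : AltF n F) {τ : ℕ → ℝ} {k : ℕ}
    {B C : ℝ} (hB : 0 ≤ B)
    (h1 : ∀ m, blk n m = k → m ≠ Bk n k → -B ≤ τ m ∧ τ m ≤ 1 + B)
    (h2 : ∀ m, (blk n m ≠ k ∨ m = Bk n k) → τ m = 0) (hC : 1 + 2 * B ≤ C)
    (hw : ∀ w ∈ F k, |∑ i ∈ Finset.range (n k), w i * τ (Bk n k + 1 + i)| ≤ C) :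
    WBound n F τ C := by
  intro k' w hw' r hr
  unfold wv
  by_cases hk : k' = k
  · subst hk
    have h3 : τ r = 0 := by
      refine h2 r (Or.inl ?_)
      have h4 := (Bk_le_iff n).1 hr
      omega
    have h4 : ∑ i ∈ Finset.range (n k'), w i * (τ r - τ (Bk n k' + 1 + i)) =
        -∑ i ∈ Finset.range (n k'), w i * τ (Bk n k' + 1 + i) := by
      rw [← Finset.sum_neg_distrib]
      refine Finset.sum_congr rfl fun i _ => ?_
      rw [h3]
      ring
    rw [h4, abs_neg]
    exact hw w hw'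
  · have h4 : ∑ i ∈ Finset.range (n k'), w i * (τ r - τ (Bk n k' + 1 + i)) =
        (∑ i ∈ Finset.range (n k'), w i) * τ r := by
      rw [Finset.sum_mul]
      refine Finset.sum_congr rfl fun i hi => ?_
      have h5 : τ (Bk n k' + 1 + i) = 0 := by
        refine h2 _ (Or.inl ?_)
        rw [blk_add n (Finset.mem_range.1 hi)]
        exact hk
      rw [h5, sub_zero]
    rw [h4, abs_mul]
    have h5 : |∑ i ∈ Finset.range (n k'), w i| ≤ 1 := (h _ _ (hF k' w hw')).2.2.2.2
    have h6 : |τ r| ≤ 1 + B := by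
      obtain ⟨h7, h8⟩ := bds hB h1 h2 r
      exact abs_le.2 ⟨by linarith, h8⟩
    have h7 : |∑ i ∈ Finset.range (n k'), w i| * |τ r| ≤ 1 * (1 + B) :=
      mul_le_mul h5 h6 (abs_nonneg _) zero_le_one
    linarith

end XUPB

theorem pr_UPB (h : ALT) : UPB := by
  intro n F hF τ k B C hB h1 h2 hC hw
  refine ⟨XUPB.bbound hB h1 h2 hC, fun p q _ => ?_, XUPB.wbound h hF hB h1 h2 hC hw⟩
  obtain ⟨h3, h4⟩ := XUPB.bds hB h1 h2 p
  obtain ⟨h5, h6⟩ := XUPB.bds hB h1 h2 q
  exact abs_le.2 ⟨by linarith, by linarith⟩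

end Pool.Agent.Work.MP_8db9c5_an.FG

end

section

/-!
# The bounds `WBound` are invariant
-/

namespace Pool.Agent.Work.MP_8db9c5_an.FG

namespace XWIN

/-- `ρ` maps the position with the offset `i` to the one with the offset `off n k ρ i` -/
theorem off_spec (n : ℕ → ℕ) (ρ : Equiv.Perm ℕ) (hρ : BlockPerm n ρ) (k i : ℕ) (hi : i < n k) :
    off n k ρ i < n k ∧ ρ (Bk n k + 1 + i) = Bk n k + 1 + off n k ρ i := by
  have h1 := hρ.2 (Bk n k + 1 + i)
  rw [blk_add n hi] at h1
  have h2 : Bk n k ≤ ρ (Bk n k + 1 + i) := (Bk_le_iff n).2 h1.ge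
  have h3 : ρ (Bk n k + 1 + i) < Bk n (k + 1) := (lt_Bk_iff n).2 (by omega)
  have h4 : ρ (Bk n k + 1 + i) ≠ Bk n k := by
    intro h
    have := ρ.injective (h.trans (hρ.1 k).symm)
    omega
  rw [Bk_succ] at h3
  unfold off
  constructor <;> omega

/-- the offsets are permuted -/
theorem sum_off (n : ℕ → ℕ) (ρ : Equiv.Perm ℕ) (hρ : BlockPerm n ρ) (k : ℕ) (g : ℕ → ℝ) :
    ∑ i ∈ Finset.range (n k), g (off n k ρ i) = ∑ i ∈ Finset.range (n k), g i := by
  have hinj : Set.InjOn (off n k ρ) (Finset.range (n k) : Finset ℕ) := by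
    intro i hi j hj hij
    have hi' : i < n k := Finset.mem_range.1 hi
    have hj' : j < n k := Finset.mem_range.1 hj
    have h1 := (off_spec n ρ hρ k i hi').2
    rw [hij, ← (off_spec n ρ hρ k j hj').2] at h1
    have := ρ.injective h1
    omega
  have hsub : (Finset.range (n k)).image (off n k ρ) ⊆ Finset.range (n k) := by
    intro j hj
    obtain ⟨i, hi, rfl⟩ := Finset.mem_image.1 hj
    exact Finset.mem_range.2 (off_spec n ρ hρ k i (Finset.mem_range.1 hi)).1
  have himg : (Finset.range (n k)).image (off n k ρ) = Finset.range (n k) :=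
    Finset.eq_of_subset_of_card_le hsub (by rw [Finset.card_image_of_injOn hinj])
  conv_rhs => rw [← himg]
  rw [Finset.sum_image hinj]

end XWIN

open XWIN in
theorem pr_WIN : WIN := by
  intro n F τ C ρ hρ h k w hw r hr
  obtain ⟨w', hw', hww⟩ := hρ.2 k w hw
  have hr' : Bk n (k + 1) ≤ ρ r := by
    rw [Bk_le_iff, hρ.1.2 r, ← Bk_le_iff]
    exact hr
  have h1 := h k w' hw' (ρ r) hr'
  have h2 : wv n k w (fun m => τ (ρ m)) r = wv n k w' τ (ρ r) := by
    unfold wv
    rw [← sum_off n ρ hρ.1 k fun i => w' i * (τ (ρ r) - τ (Bk n k + 1 + i))]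
    refine Finset.sum_congr rfl fun i hi => ?_
    have hi' := Finset.mem_range.1 hi
    change w i * (τ (ρ r) - τ (ρ (Bk n k + 1 + i))) =
      w' (off n k ρ i) * (τ (ρ r) - τ (Bk n k + 1 + off n k ρ i))
    rw [hww i hi', ← (off_spec n ρ hρ.1 k i hi').2]
  rw [h2]
  exact h1

end Pool.Agent.Work.MP_8db9c5_an.FG

end
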